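import Pool.Agent.Y842.QY.TwoW

/-!
Library Y842.QY (helper842), part 4: all phases and partial sums for the families.
-/

set_option autoImplicit false

open Finset

namespace Pool.Agent.Y842.QY

open Pool.Agent.Y842.PG
open Pool.Agent.Y842.QG
open Pool.Agent.Y842.PH
open Pool.Agent.Helper602.MK (ee)
open Pool.Agent.Helper602.MK.N_J1c (c_ee_add c_ee_int c_norm_ee)
open Pool.Agent.TH112.BL (QD)
open Pool.Agent.Y304.U (sE ind ind_nonneg ind_le)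

/-- small scales -/
lemma sE_small (N₂ X : ℕ) : sE {N : ℕ | N < N₂} X ≤ N₂ := by
  classical
  unfold sE
  have h1 : ∀ n ∈ Icc 1 X, ind {N : ℕ | N < N₂} n / (n : ℝ) ≤ if n < N₂ then 1 else 0 := by
    intro n hn
    have hn1 : (1 : ℝ) ≤ n := by exact_mod_cast (mem_Icc.1 hn).1
    unfold ind
    by_cases h : n < N₂
    · rw [if_pos h, if_pos (show n ∈ {N : ℕ | N < N₂} from h), div_le_one (by linarith)]
      exact hn1
    · rw [if_neg h, if_neg (show ¬ n ∈ {N : ℕ | N < N₂} from h), zero_div]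
  refine (sum_le_sum h1).trans ?_
  rw [← sum_filter, sum_const, nsmul_eq_mul, mul_one]
  have h2 : (Icc 1 X).filter (fun n => n < N₂) ⊆ range N₂ := by
    intro n hn
    rw [mem_range]
    exact (mem_filter.1 hn).2
  have h3 := card_le_card h2
  rw [card_range] at h3
  exact_mod_cast h3

/-- comparison of the families at comparable scales -/
lemma convW {r : ℕ} (hr : 1 ≤ r) (hs : Fin r → ℕ) (𝒞 : (ℕ → Fin r → ℕ → ℂ) → Prop)
    (hC : ∀ G, 𝒞 G → ∀ N t n, ‖G N t n‖ ≤ 1) (hSt : Stab 𝒞) (σ c : ℝ) (hσ : 0 < σ) (hc : 0 < c) : ∃ N₀ : ℕ,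
    ∀ G, 𝒞 G → ∀ N m : ℕ, N₀ ≤ N → N₀ ≤ m → c * N ≤ m → m ≤ 2 * N → ∀ α : ℝ,
      ‖Cg (G N) hs m α‖ ≤ ‖Cg (G m) hs m α‖ + σ * m := by
  obtain ⟨K, hK⟩ := exists_nat_ge (1 / c)
  obtain ⟨N₀, h1⟩ := stab_Cg hr hs 𝒞 hC hSt σ hσ (K + 2)
  refine ⟨N₀, fun G hG N m hN hm hcm hm2 α => ?_⟩
  rcases Nat.le_total N m with h | h
  · have h2 := h1 G hG N m hN h (hm2.trans (Nat.mul_le_mul_right _ (by omega))) m α
    have h3 := norm_sub_norm_le (Cg (G N) hs m α) (Cg (G m) hs m α)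
    rw [norm_sub_rev] at h3
    linarith
  · have h2 := h1 G hG m N hm h (by
      have e1 : (N : ℝ) ≤ (K + 2 : ℕ) * m := by
        have e2 : (N : ℝ) ≤ 1 / c * m := by
          rw [div_mul_eq_mul_div, one_mul, le_div_iff₀ hc]
          linarith
        refine e2.trans ?_
        apply mul_le_mul_of_nonneg_right _ (Nat.cast_nonneg m)
        push_cast
        linarith
      exact_mod_cast e1) m α
    have h3 := norm_sub_norm_le (Cg (G N) hs m α) (Cg (G m) hs m α)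
    linarith

/-- **all phases**, for the families -/
theorem all_phasesW (kc : ℕ) (a c : ℕ) (hac : a ≠ c) (δ : ℝ) (hδ : 0 < δ) (hδ1 : δ ≤ 1) (η : ℝ) (hη : 0 < η) :
    ∃ X₀ : ℕ, ∀ X : ℕ, X₀ ≤ X → ∀ G, CW kc G →
      sE {N : ℕ | ∃ α : ℝ, ∃ y ≤ N, δ * N < ‖Cg (G N) ![a, c] y α‖} X ≤ η * Real.log X := by
  set δ₀ : ℝ := δ / 8 with hδ₀
  have hδ₀0 : 0 < δ₀ := by positivity
  have hδ₀1 : δ₀ ≤ 1 := by rw [hδ₀]; linarith
  set η' : ℝ := η / 2 with hη'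
  have hη'0 : 0 < η' := by positivity
  have hhs : ∀ t, (![a, c] : Fin 2 → ℕ) t ≤ a + c := by
    intro t
    fin_cases t
    · show a ≤ a + c
      omega
    · show c ≤ a + c
      omega
  obtain ⟨R, X₁, hX₁⟩ := minorW (r := 2) (by norm_num) (a + c) ![a, c] hhs (CW kc) (CW_CF2 kc) (CW_Stab kc) δ₀ hδ₀0 hδ₀1
    (η' * δ / 32) (by positivity)
  set δ₁ : ℝ := δ₀ / (1 + 7 * R) with hδ₁
  have h10 : (0 : ℝ) < 1 + 7 * R := by positivity
  have hδ₁0 : 0 < δ₁ := by positivity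
  have hδ₁1 : δ₁ ≤ 1 := by
    rw [hδ₁, div_le_one h10]
    have : (0 : ℝ) ≤ R := Nat.cast_nonneg R
    linarith
  have hCb : ∀ G, CW kc G → ∀ N t n, ‖G N t n‖ ≤ 1 := CW_le kc
  obtain ⟨Na, hNa⟩ := convW (r := 2) (by norm_num) ![a, c] (CW kc) hCb (CW_Stab kc) (δ / 8) (δ / 2) (by positivity) (by positivity)
  obtain ⟨Nb, hNb⟩ := convW (r := 2) (by norm_num) ![a, c] (CW kc) hCb (CW_Stab kc) (δ₁ / 8) (δ₁ / 2) (by positivity) (by positivity)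
  obtain ⟨N₂, hN₂⟩ := exists_nat_ge ((Na : ℝ) * (2 / δ))
  obtain ⟨N₃, hN₃⟩ := exists_nat_ge ((Nb : ℝ) * (2 / δ₁))
  set η₂ : ℝ := η' * δ / 32 / ((R + 1) ^ 2 * (8 / δ₁) * 2) with hη₂
  have hη₂0 : 0 < η₂ := by positivity
  have hrat : ∀ q j : ℕ, ∃ X₀ : ℕ, ∀ X : ℕ, X₀ ≤ X → ∀ G, CW kc G → 1 ≤ q → IsCoprime (j : ℤ) (q : ℤ) →
      sE {N : ℕ | δ₁ / 8 * N < ‖Cg (G N) ![a, c] N (j / q)‖} X ≤ η₂ * Real.log X := by
    intro q j
    by_cases h : 1 ≤ q ∧ IsCoprime (j : ℤ) (q : ℤ)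
    · obtain ⟨X₀, h1⟩ := ratW kc a c hac (j : ℤ) q h.1 h.2 (δ₁ / 8) (by positivity) (by linarith) η₂ hη₂0
      refine ⟨X₀, fun X hX G hG _ _ => ?_⟩
      have := h1 X hX G hG
      push_cast at this
      exact this
    · exact ⟨0, fun X _ G _ h1 h2 => (h ⟨h1, h2⟩).elim⟩
  choose X₂ hX₂ using hrat
  obtain ⟨X₃, hX₃⟩ := Filter.eventually_atTop.1 ((Filter.tendsto_atTop.1
    (Real.tendsto_log_atTop.comp tendsto_natCast_atTop_atTop))
      (((Na + N₂ + 1 : ℕ) + 8 / δ * (Nb + N₃ + 1 : ℕ)) * (2 / η)))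
  refine ⟨X₁ + ∑ q ∈ range (R + 1), ∑ j ∈ range (R + 1), X₂ q j + X₃ + 2, fun X hX GG hGG => ?_⟩
  have hX2 : 2 ≤ X := by omega
  have hlX := log_two_mul X hX2
  have hlX4 := log_two_mul (2 * X) (by omega)
  have hlog0 : 0 ≤ Real.log (X : ℝ) := Real.log_natCast_nonneg X
  have hlog3 : ((Na + N₂ + 1 : ℕ) + 8 / δ * (Nb + N₃ + 1 : ℕ)) * (2 / η) ≤ Real.log X := hX₃ X (by omega)
  set hs : Fin 2 → ℕ := ![a, c] with hhsd
  set T : Set ℕ := {N : ℕ | ∃ α : ℝ, ∃ y ≤ N, δ * N < ‖Cg (GG N) hs y α‖} with hT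
  set B : Set ℕ := {m : ℕ | ∃ α : ℝ, δ₀ * m < ‖Cg (GG m) hs m α‖} with hB
  set Mj : Set ℕ := {m : ℕ | ∃ α : ℝ, ¬ GdM R m α ∧ δ₀ * m < ‖Cg (GG m) hs m α‖} with hMj
  -- partial sums
  have h1 : sE T X ≤ (Na + N₂ + 1 : ℕ) + 4 / (δ / 2) * sE B (2 * X) := by
    have e0 : T ⊆ {N : ℕ | N < Na + N₂ + 1} ∪
        {N : ℕ | ∃ y : ℕ, δ / 2 * N ≤ y ∧ y ≤ N ∧ ∀ m : ℕ, y ≤ m → (m : ℝ) ≤ y + δ / 2 * N → m ∈ B} := by
      rintro N ⟨α, y, hyN, hbig⟩
      by_cases hNs : N < Na + N₂ + 1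
      · exact Or.inl hNs
      right
      have hN0 : 0 < N := by omega
      obtain ⟨h2, h3⟩ := near (GG N) (hCb GG hGG N) hs δ hδ hδ1 α N y hyN hN0 hbig
      refine ⟨y, h2, hyN, fun m hm1 hm2 => ?_⟩
      have hm3 := h3 m hm1 hm2
      have hNr : (N₂ : ℝ) ≤ N := by exact_mod_cast (by omega : N₂ ≤ N)
      have hmr : (y : ℝ) ≤ m := by exact_mod_cast hm1
      have hyr : (y : ℝ) ≤ N := by exact_mod_cast hyN
      have hmNa : Na ≤ m := by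
        have e1 : (Na : ℝ) ≤ m := by
          have e2 : (Na : ℝ) * (2 / δ) ≤ N := hN₂.trans hNr
          have e3 : (Na : ℝ) = δ / 2 * ((Na : ℝ) * (2 / δ)) := by field_simp
          rw [e3]
          calc δ / 2 * ((Na : ℝ) * (2 / δ)) ≤ δ / 2 * N := mul_le_mul_of_nonneg_left e2 (by positivity)
            _ ≤ m := h2.trans hmr
        exact_mod_cast e1
      have hm2N : m ≤ 2 * N := by
        have e1 : (m : ℝ) ≤ 2 * N := by
          have : δ / 2 * (N : ℝ) ≤ 1 * N := mul_le_mul_of_nonneg_right (by linarith) (Nat.cast_nonneg N)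
          linarith
        exact_mod_cast e1
      have h4 := hNa GG hGG N m (by omega) hmNa (h2.trans hmr) hm2N α
      refine ⟨α, ?_⟩
      have e5 : δ / 4 * (m : ℝ) = δ₀ * m + δ / 8 * m := by rw [hδ₀]; ring
      linarith
    exact (sE_mono e0 X).trans ((sE_union _ _ X).trans (add_le_add (sE_small _ X)
      (thick B (δ / 2) (by positivity) (by linarith) X)))
  -- minor and major arcs
  have h2 : sE B (2 * X) ≤ sE (BadW GG hs GdM R δ₀) (2 * X) + sE Mj (2 * X) := by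
    refine (sE_mono ?_ _).trans (sE_union _ _ _)
    rintro m ⟨α, hα⟩
    by_cases h : GdM R m α
    · exact Or.inl ⟨α, h, hα⟩
    · exact Or.inr ⟨α, h, hα⟩
  have h3 := hX₁ (2 * X) (by omega) GG hGG
  have h4 : sE Mj (2 * X) ≤ (Nb + N₃ + 1 : ℕ) + ∑ q ∈ range (R + 1), ∑ j ∈ range (R + 1),
      (if 1 ≤ q ∧ IsCoprime (j : ℤ) (q : ℤ) then
        4 / (δ₁ / 2) * sE {N : ℕ | δ₁ / 8 * N < ‖Cg (GG N) hs N (j / q)‖} (2 * (2 * X)) else 0) := by
    classical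
    set Fj : ℕ × ℕ → Set ℕ := fun t => if 1 ≤ t.1 ∧ IsCoprime (t.2 : ℤ) (t.1 : ℤ) then
      {N : ℕ | ∃ y : ℕ, δ₁ / 2 * N ≤ y ∧ y ≤ N ∧ ∀ m : ℕ, y ≤ m → (m : ℝ) ≤ y + δ₁ / 2 * N →
        m ∈ {N : ℕ | δ₁ / 8 * N < ‖Cg (GG N) hs N (t.2 / t.1)‖}} else ∅ with hFj
    have e0 : Mj ⊆ {N : ℕ | N < Nb + N₃ + 1} ∪ (Mj ∩ {N : ℕ | Nb + N₃ + 1 ≤ N}) := by
      intro m hm
      by_cases h : m < Nb + N₃ + 1
      · exact Or.inl h
      · exact Or.inr ⟨hm, by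
          show Nb + N₃ + 1 ≤ m
          omega⟩
    have h5 := sE_cover (range (R + 1) ×ˢ range (R + 1)) (Mj ∩ {N : ℕ | Nb + N₃ + 1 ≤ N}) Fj (by
      rintro m ⟨⟨α, hα1, hα2⟩, hmb⟩
      have hmb : Nb + N₃ + 1 ≤ m := hmb
      have hm0 : 0 < m := by omega
      unfold GdM at hα1
      push Not at hα1
      obtain ⟨q, hq1, hqR, A, hA⟩ := hα1
      obtain ⟨q', j, z, hq'1, hq'q, hj, hcop, hAq⟩ := red_frac q hq1 A
      obtain ⟨y, hyN, hy⟩ := close_rat (GG m) hs δ₀ hδ₀0 α R (Nat.cast_nonneg R) m (A / q) hA.le hα2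
      rw [hAq, Cg_int] at hy
      refine ⟨(q', j), by
        rw [mem_product, mem_range, mem_range]
        constructor
        · show q' < R + 1
          omega
        · show j < R + 1
          omega, ?_⟩
      rw [hFj]
      show m ∈ (if 1 ≤ q' ∧ IsCoprime (j : ℤ) (q' : ℤ) then
        {N : ℕ | ∃ y : ℕ, δ₁ / 2 * N ≤ y ∧ y ≤ N ∧ ∀ m : ℕ, y ≤ m → (m : ℝ) ≤ y + δ₁ / 2 * N →
          m ∈ {N : ℕ | δ₁ / 8 * N < ‖Cg (GG N) hs N (j / q')‖}} else ∅)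
      rw [if_pos ⟨hq'1, hcop⟩]
      obtain ⟨h6, h7⟩ := near (GG m) (hCb GG hGG m) hs δ₁ hδ₁0 hδ₁1 (j / q') m y hyN hm0 hy
      refine ⟨y, h6, hyN, fun m' hm1 hm2 => ?_⟩
      have hm3 := h7 m' hm1 hm2
      have hNr : (N₃ : ℝ) ≤ m := by exact_mod_cast (by omega : N₃ ≤ m)
      have hmr : (y : ℝ) ≤ m' := by exact_mod_cast hm1
      have hyr : (y : ℝ) ≤ m := by exact_mod_cast hyN
      have hmNb : Nb ≤ m' := by
        have e1 : (Nb : ℝ) ≤ m' := by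
          have e2 : (Nb : ℝ) * (2 / δ₁) ≤ m := hN₃.trans hNr
          have e3 : (Nb : ℝ) = δ₁ / 2 * ((Nb : ℝ) * (2 / δ₁)) := by field_simp
          rw [e3]
          calc δ₁ / 2 * ((Nb : ℝ) * (2 / δ₁)) ≤ δ₁ / 2 * m := mul_le_mul_of_nonneg_left e2 (by positivity)
            _ ≤ m' := h6.trans hmr
        exact_mod_cast e1
      have hm2N : m' ≤ 2 * m := by
        have e1 : (m' : ℝ) ≤ 2 * m := by
          have : δ₁ / 2 * (m : ℝ) ≤ 1 * m := mul_le_mul_of_nonneg_right (by linarith) (Nat.cast_nonneg m)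
          linarith
        exact_mod_cast e1
      have h8 := hNb GG hGG m m' (by omega) hmNb (h6.trans hmr) hm2N (j / q')
      show δ₁ / 8 * (m' : ℝ) < ‖Cg (GG m') hs m' (j / q')‖
      have e5 : δ₁ / 4 * (m' : ℝ) = δ₁ / 8 * m' + δ₁ / 8 * m' := by ring
      linarith) (2 * X)
    rw [sum_product] at h5
    refine (sE_mono e0 _).trans ((sE_union _ _ _).trans (add_le_add (sE_small _ _) (h5.trans
      (sum_le_sum fun q _ => sum_le_sum fun j _ => ?_))))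
    rw [hFj]
    show sE (if 1 ≤ q ∧ IsCoprime (j : ℤ) (q : ℤ) then
        {N : ℕ | ∃ y : ℕ, δ₁ / 2 * N ≤ y ∧ y ≤ N ∧ ∀ m : ℕ, y ≤ m → (m : ℝ) ≤ y + δ₁ / 2 * N →
          m ∈ {N : ℕ | δ₁ / 8 * N < ‖Cg (GG N) hs N (j / q)‖}} else ∅) (2 * X) ≤ _
    split_ifs with h6
    · exact thick _ (δ₁ / 2) (by positivity) (by linarith) (2 * X)
    · unfold sE ind
      simp
  have h5 : ∑ q ∈ range (R + 1), ∑ j ∈ range (R + 1),
      (if 1 ≤ q ∧ IsCoprime (j : ℤ) (q : ℤ) then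
        4 / (δ₁ / 2) * sE {N : ℕ | δ₁ / 8 * N < ‖Cg (GG N) hs N (j / q)‖} (2 * (2 * X)) else 0) ≤
      η' * δ / 32 * (2 * Real.log X) := by
    have e1 : ∀ q ∈ range (R + 1), ∀ j ∈ range (R + 1), (if 1 ≤ q ∧ IsCoprime (j : ℤ) (q : ℤ) then
        4 / (δ₁ / 2) * sE {N : ℕ | δ₁ / 8 * N < ‖Cg (GG N) hs N (j / q)‖} (2 * (2 * X)) else 0) ≤
        4 / (δ₁ / 2) * (η₂ * (4 * Real.log X)) := by
      intro q hq j hj
      split_ifs with h6
      · apply mul_le_mul_of_nonneg_left _ (by positivity)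
        have h7 : X₂ q j ≤ ∑ q ∈ range (R + 1), ∑ j ∈ range (R + 1), X₂ q j :=
          (single_le_sum (f := fun j => X₂ q j) (fun _ _ => Nat.zero_le _) hj).trans
            (single_le_sum (f := fun q => ∑ j ∈ range (R + 1), X₂ q j) (fun _ _ => Nat.zero_le _) hq)
        refine (hX₂ q j (2 * (2 * X)) (by omega) GG hGG h6.1 h6.2).trans ?_
        apply mul_le_mul_of_nonneg_left _ hη₂0.le
        linarith
      · positivity
    refine (sum_le_sum fun q hq => sum_le_sum fun j hj => e1 q hq j hj).trans (le_of_eq ?_)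
    rw [sum_const, sum_const, card_range, nsmul_eq_mul, nsmul_eq_mul, hη₂]
    push_cast
    field_simp
    ring
  have h6 : sE B (2 * X) ≤ η' * δ / 8 * Real.log X + (Nb + N₃ + 1 : ℕ) := by
    have e1 : η' * δ / 32 * Real.log ((2 * X : ℕ) : ℝ) ≤ η' * δ / 32 * (2 * Real.log X) :=
      mul_le_mul_of_nonneg_left hlX (by positivity)
    have e2 : η' * δ / 32 * (2 * Real.log X) + η' * δ / 32 * (2 * Real.log X) = η' * δ / 8 * Real.log X := by ring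
    linarith
  have h7 : ((Na + N₂ + 1 : ℕ) : ℝ) + 8 / δ * (Nb + N₃ + 1 : ℕ) ≤ η / 2 * Real.log X := by
    have e1 := mul_le_mul_of_nonneg_left hlog3 (by positivity : (0 : ℝ) ≤ η / 2)
    refine le_trans (le_of_eq ?_) e1
    field_simp
  calc sE T X ≤ (Na + N₂ + 1 : ℕ) + 4 / (δ / 2) * sE B (2 * X) := h1
    _ ≤ (Na + N₂ + 1 : ℕ) + 4 / (δ / 2) * (η' * δ / 8 * Real.log X + (Nb + N₃ + 1 : ℕ)) :=
        add_le_add le_rfl (mul_le_mul_of_nonneg_left h6 (by positivity))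
    _ = ((Na + N₂ + 1 : ℕ) + 8 / δ * (Nb + N₃ + 1 : ℕ)) + η' * Real.log X := by field_simp; ring
    _ ≤ η / 2 * Real.log X + η' * Real.log X := add_le_add h7 le_rfl
    _ = η * Real.log X := by rw [hη']; ring

end Pool.Agent.Y842.QY
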