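import Pool.Agent.Y842.QY.CellsW
import Pool.Agent.TH575.OM.AvgU
import Pool.Agent.TH575.OM.Cls

/-!
Library Y842.QY (helper842), part 2: bilinear sums for rational phases, for the functions of `Ω` with mean removed.
-/

set_option autoImplicit false

open Finset

namespace Pool.Agent.Y842.QY

open Pool.Agent.Y842.PG
open Pool.Agent.Y842.QG
open Pool.Agent.Y842.PH
open Pool.Agent.Helper602.MK (ee)
open Pool.Agent.Helper602.MK.N_J1c (c_ee_add c_ee_int c_norm_ee)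
open Pool.Agent.TH112.BL (QD)
open Pool.Agent.H373R2.T7 (exI)
open Pool.Agent.Y958.TC (iv iv_lt)
open Pool.Agent.TH575.OM (ExpoU Hom Mn rl avgU expo_hom Hom_norm rl_B0 Mn_scale Mn_up Mn_abs B0)
open ArithmeticFunction (cardFactors)

/-- bilinear sums with a rational twist, for classes -/
lemma avgR (Hc : ℕ → (ℕ → ℂ) → Prop) (hb0 : ∀ X f, Hc X f → ∀ n, ‖f n‖ ≤ 1) (hE : ExpoU Hc) (z : ℤ) (hz : z ≠ 0)
    (A : ℤ) (q : ℕ) (hq : 1 ≤ q) (ε : ℝ) (hε : 0 < ε) :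
    ∃ i2 : ℕ, ∀ i : ℕ, i2 ≤ i → ∃ N0 : ℕ, ∀ y : ℕ, N0 ≤ y → ∀ f, Hc (18 * y) f → ∀ g : ℕ → ℂ, (∀ n, ‖g n‖ ≤ 1) →
      ∑ p ∈ QD i (i + 1), Real.log p / 2 ^ i *
        ‖∑ n ∈ range y, g n * ee (A * (iv q p : ℕ) / q * n) * exI f (n + p * z)‖ ≤ ε * y := by
  have hq0 : (0 : ℝ) < q := by exact_mod_cast hq
  obtain ⟨i2, h1⟩ := avgU Hc hb0 hE z hz q hq (ε / (2 * q)) (by positivity)
  refine ⟨i2, fun i hi => ?_⟩
  obtain ⟨N0, h2⟩ := h1 i hi
  obtain ⟨N1, hN1⟩ := exists_nat_ge (6 / ε)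
  refine ⟨N0 + N1 + 1, fun y hy f hf g hg => ?_⟩
  have hb := hb0 _ f hf
  have h3 : ∀ b ∈ range q, ∑ p ∈ QD i (i + 1), Real.log p / 2 ^ i *
      ‖∑ n ∈ Icc 1 (y - 1), (if n % q = b then g n else 0) * exI f ((n : ℤ) + z * p)‖ ≤ ε / (2 * q) * y := by
    intro b hb'
    have h4 := h2 y (by omega) f hf g hg (fun _ => y - 1) (fun _ => b) (fun _ _ => by omega)
    rw [Nat.mod_eq_of_lt (mem_range.1 hb')] at h4
    exact h4
  have h4 : ∀ p : ℕ, ‖∑ n ∈ range y, g n * ee (A * (iv q p : ℕ) / q * n) * exI f (n + p * z)‖ ≤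
      1 + ∑ b ∈ range q, ‖∑ n ∈ Icc 1 (y - 1), (if n % q = b then g n else 0) * exI f ((n : ℤ) + z * p)‖ := by
    intro p
    have e1 : ∑ n ∈ range y, g n * ee (A * (iv q p : ℕ) / q * n) * exI f (n + p * z) =
        g 0 * ee (A * (iv q p : ℕ) / q * (0 : ℕ)) * exI f ((0 : ℕ) + p * z) +
        ∑ n ∈ Icc 1 (y - 1), g n * ee (A * (iv q p : ℕ) / q * n) * exI f (n + p * z) := by
      rw [← sum_erase_add (range y) _ (mem_range.2 (by omega : 0 < y)), add_comm]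
      congr 1
      apply sum_congr _ (fun _ _ => rfl)
      ext n
      simp only [mem_erase, mem_range, mem_Icc]
      omega
    have e2 : ∑ n ∈ Icc 1 (y - 1), g n * ee (A * (iv q p : ℕ) / q * n) * exI f (n + p * z) =
        ∑ b ∈ range q, ee (A * (iv q p : ℕ) / q * b) *
          ∑ n ∈ Icc 1 (y - 1), (if n % q = b then g n else 0) * exI f ((n : ℤ) + z * p) := by
      simp_rw [mul_sum]
      rw [sum_comm]
      refine sum_congr rfl fun n _ => ?_
      rw [sum_eq_single (n % q)]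
      · rw [if_pos rfl]
        obtain ⟨k, hk⟩ : ∃ k, k = n / q := ⟨_, rfl⟩
        have e3 : (A : ℝ) * (iv q p : ℕ) / q * n = A * (iv q p : ℕ) / q * ((n % q : ℕ) : ℝ) +
            ((A * (iv q p : ℕ) * k : ℤ) : ℝ) := by
          have e4 : (n : ℝ) = q * (k : ℝ) + ((n % q : ℕ) : ℝ) := by
            rw [hk]
            exact_mod_cast (Nat.div_add_mod n q).symm
          rw [e4]
          push_cast
          field_simp
          ring
        rw [e3, c_ee_add, c_ee_int, mul_one, mul_comm z]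
        ring
      · intro b _ hne
        rw [if_neg (Ne.symm hne)]
        ring
      · intro h
        exact (h (mem_range.2 (Nat.mod_lt _ hq))).elim
    rw [e1, e2]
    refine (norm_add_le _ _).trans (add_le_add ?_ ((norm_sum_le _ _).trans (le_of_eq ?_)))
    · rw [norm_mul, norm_mul, c_norm_ee, mul_one]
      exact mul_le_one₀ (hg _) (norm_nonneg _) (exI_le f hb _)
    · refine sum_congr rfl fun b _ => ?_
      rw [norm_mul, c_norm_ee, one_mul]
  calc ∑ p ∈ QD i (i + 1), Real.log p / 2 ^ i *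
        ‖∑ n ∈ range y, g n * ee (A * (iv q p : ℕ) / q * n) * exI f (n + p * z)‖ ≤
      ∑ p ∈ QD i (i + 1), (Real.log p / 2 ^ i + ∑ b ∈ range q, Real.log p / 2 ^ i *
        ‖∑ n ∈ Icc 1 (y - 1), (if n % q = b then g n else 0) * exI f ((n : ℤ) + z * p)‖) := by
        refine sum_le_sum fun p _ => ?_
        refine (mul_le_mul_of_nonneg_left (h4 p) (w_nonneg i p)).trans (le_of_eq ?_)
        rw [mul_add, mul_one, mul_sum]
    _ = ∑ p ∈ QD i (i + 1), Real.log p / 2 ^ i + ∑ b ∈ range q, ∑ p ∈ QD i (i + 1), Real.log p / 2 ^ i *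
        ‖∑ n ∈ Icc 1 (y - 1), (if n % q = b then g n else 0) * exI f ((n : ℤ) + z * p)‖ := by
        rw [sum_add_distrib, sum_comm]
    _ ≤ 3 + ∑ b ∈ range q, ε / (2 * q) * y := add_le_add (w_sum i _ (Subset.refl _)) (sum_le_sum h3)
    _ = 3 + ε / 2 * y := by
        rw [sum_const, card_range, nsmul_eq_mul]
        field_simp
    _ ≤ ε * y := by
        have h5 : 6 / ε ≤ y := hN1.trans (by exact_mod_cast (by omega : N1 ≤ y))
        rw [div_le_iff₀ hε] at h5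
        linarith

/-- the bilinear sums for a rational phase, for classes -/
lemma bil_ratU (Hc : ℕ → (ℕ → ℂ) → Prop) (hb0 : ∀ X f, Hc X f → ∀ n, ‖f n‖ ≤ 1) (hE : ExpoU Hc) (a c : ℕ)
    (hac : a ≠ c) (A : ℤ) (q : ℕ) (hq : 1 ≤ q) (e : ℝ) (he : 0 < e) :
    ∃ I₀ : ℕ, ∀ i : ℕ, I₀ ≤ i → ∃ N₀ : ℕ, ∀ N : ℕ, N₀ ≤ N → ∀ f, Hc (18 * N) f →
      ∀ g : ℕ → ℂ, (∀ n, ‖g n‖ ≤ 1) → ∀ P : Finset ℕ, P ⊆ QD i (i + 1) →
        ∑ p ∈ P, Real.log p / 2 ^ i * ‖∑ m ∈ range N, pr ![f, g] ![a, c] p m * ee (th A q 0 p * m)‖ ≤ e * N := by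
  obtain ⟨I₀, h1⟩ := avgR Hc hb0 hE ((a : ℤ) - c) (by omega) A q hq (e / 2) (by positivity)
  refine ⟨I₀, fun i hi => ?_⟩
  obtain ⟨N₀, h2⟩ := h1 i hi
  obtain ⟨N₁, hN₁⟩ := exists_nat_ge (2 * (3 * (4 * 2 ^ i * c + 1)) / e)
  refine ⟨N₀ + N₁, fun N hN f hf g hg P hP => ?_⟩
  have hb := hb0 _ f hf
  have h3 := h2 N (by omega) f hf g hg
  have h4 : ∀ p ∈ P, ‖∑ m ∈ range N, pr ![f, g] ![a, c] p m * ee (th A q 0 p * m)‖ ≤
      ‖∑ n ∈ range N, g n * ee (A * (iv q p : ℕ) / q * n) * exI f (n + p * ((a : ℤ) - c))‖ +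
        (4 * 2 ^ i * c + 1) := by
    intro p hp
    have hpp := QD_mem (hP hp)
    set u : ℤ → ℂ := fun z => exI f (z + p * ((a : ℤ) - c)) * (g z.toNat * ee (th A q 0 p * ((z - p * c : ℤ) : ℝ)))
      with hu
    have hu1 : ∀ z, ‖u z‖ ≤ 1 := by
      intro z
      rw [hu]
      show ‖exI f (z + p * ((a : ℤ) - c)) * (g z.toNat * ee (th A q 0 p * ((z - p * c : ℤ) : ℝ)))‖ ≤ 1
      rw [norm_mul, norm_mul, c_norm_ee, mul_one]
      exact mul_le_one₀ (exI_le f hb _) (norm_nonneg _) (hg _)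
    have e1 := shz N (p * c) u 1 hu1
    have e2 : ‖∑ m ∈ range N, pr ![f, g] ![a, c] p m * ee (th A q 0 p * m) - ∑ m ∈ range N, u (m + p * c)‖ ≤ 1 := by
      rw [← sum_sub_distrib]
      have e3 : ∀ m ∈ range N, ‖pr ![f, g] ![a, c] p m * ee (th A q 0 p * m) - u (m + p * c)‖ ≤
          if m = 0 then 1 else 0 := by
        intro m _
        rw [pr_two, hu]
        show ‖f (m + p * a) * g (m + p * c) * ee (th A q 0 p * m) -
          exI f ((m : ℤ) + p * c + p * ((a : ℤ) - c)) * (g ((m : ℤ) + p * c).toNat *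
            ee (th A q 0 p * (((m : ℤ) + p * c - p * c : ℤ) : ℝ)))‖ ≤ _
        have e4 : (((m : ℤ) + p * c - p * c : ℤ) : ℝ) = m := by
          push_cast
          ring
        have e5 : ((m : ℤ) + p * c).toNat = m + p * c := by
          have : ((m : ℤ) + p * c) = ((m + p * c : ℕ) : ℤ) := by push_cast; ring
          rw [this, Int.toNat_natCast]
        have e6 : (m : ℤ) + p * c + p * ((a : ℤ) - c) = ((m + p * a : ℕ) : ℤ) := by
          push_cast
          ring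
        rw [e4, e5, e6]
        have e7 : f (m + p * a) * g (m + p * c) * ee (th A q 0 p * m) -
            exI f ((m + p * a : ℕ) : ℤ) * (g (m + p * c) * ee (th A q 0 p * m)) =
            (f (m + p * a) - exI f ((m + p * a : ℕ) : ℤ)) * (g (m + p * c) * ee (th A q 0 p * m)) := by ring
        rw [e7, norm_mul, norm_mul, c_norm_ee, mul_one]
        unfold exI
        split_ifs with h5 h6 h6
        · rw [Int.toNat_natCast, sub_self, norm_zero, zero_mul]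
          exact zero_le_one
        · rw [Int.toNat_natCast, sub_self, norm_zero, zero_mul]
        · rw [sub_zero]
          exact mul_le_one₀ (hb _) (norm_nonneg _) (hg _)
        · exfalso
          apply h5
          exact_mod_cast (by omega : 1 ≤ m + p * a)
      refine (norm_sum_le _ _).trans ((sum_le_sum e3).trans ?_)
      rw [sum_ite_eq']
      split_ifs <;> norm_num
    have e3 : ‖∑ m ∈ range N, u m‖ =
        ‖∑ n ∈ range N, g n * ee (A * (iv q p : ℕ) / q * n) * exI f (n + p * ((a : ℤ) - c))‖ := by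
      have e4 : ∑ m ∈ range N, u m = ee (-(th A q 0 p * ((p * c : ℤ) : ℝ))) *
          ∑ n ∈ range N, g n * ee (A * (iv q p : ℕ) / q * n) * exI f (n + p * ((a : ℤ) - c)) := by
        rw [mul_sum]
        refine sum_congr rfl fun m _ => ?_
        rw [hu]
        show exI f ((m : ℤ) + p * ((a : ℤ) - c)) * (g (m : ℤ).toNat *
          ee (th A q 0 p * (((m : ℤ) - p * c : ℤ) : ℝ))) = _
        rw [Int.toNat_natCast]
        have e5 : ee (th A q 0 p * (((m : ℤ) - p * c : ℤ) : ℝ)) =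
            ee (-(th A q 0 p * ((p * c : ℤ) : ℝ))) * ee (A * (iv q p : ℕ) / q * m) := by
          rw [← c_ee_add]
          congr 1
          unfold th
          push_cast
          rw [zero_div, add_zero]
          ring
        rw [e5]
        ring
      rw [e4, norm_mul, c_norm_ee, one_mul]
    have e4 : 2 * |((p * c : ℤ) : ℝ)| * 1 ≤ 4 * 2 ^ i * c := by
      have h8 : (p : ℝ) ≤ 2 * 2 ^ i := by
        have : (p : ℝ) ≤ 2 ^ (i + 1) := by exact_mod_cast hpp.2.2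
        rw [pow_succ] at this
        linarith
      push_cast
      rw [abs_mul, Nat.abs_cast, Nat.abs_cast, mul_one]
      calc 2 * ((p : ℝ) * c) ≤ 2 * ((2 * 2 ^ i) * c) := by gcongr
        _ = 4 * 2 ^ i * c := by ring
    have e5 := norm_sub_norm_le (∑ m ∈ range N, pr ![f, g] ![a, c] p m * ee (th A q 0 p * m))
      (∑ m ∈ range N, u (m + p * c))
    have e6 := norm_sub_norm_le (∑ m ∈ range N, u (m + p * c)) (∑ m ∈ range N, u m)
    linarith
  calc ∑ p ∈ P, Real.log p / 2 ^ i * ‖∑ m ∈ range N, pr ![f, g] ![a, c] p m * ee (th A q 0 p * m)‖ ≤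
      ∑ p ∈ P, (Real.log p / 2 ^ i * ‖∑ n ∈ range N, g n * ee (A * (iv q p : ℕ) / q * n) *
        exI f (n + p * ((a : ℤ) - c))‖ + Real.log p / 2 ^ i * (4 * 2 ^ i * c + 1)) := by
        refine sum_le_sum fun p hp => ?_
        rw [← mul_add]
        exact mul_le_mul_of_nonneg_left (h4 p hp) (w_nonneg i p)
    _ = ∑ p ∈ P, Real.log p / 2 ^ i * ‖∑ n ∈ range N, g n * ee (A * (iv q p : ℕ) / q * n) *
        exI f (n + p * ((a : ℤ) - c))‖ + (∑ p ∈ P, Real.log p / 2 ^ i) * (4 * 2 ^ i * c + 1) := by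
        rw [sum_add_distrib, sum_mul]
    _ ≤ (e / 2) * N + 3 * (4 * 2 ^ i * c + 1) := by
        apply add_le_add
        · refine le_trans ?_ h3
          apply sum_le_sum_of_subset_of_nonneg hP
          intro p _ _
          exact mul_nonneg (w_nonneg i p) (norm_nonneg _)
        · exact mul_le_mul_of_nonneg_right (w_sum i P hP) (by positivity)
    _ ≤ e * N := by
        have h5 : 2 * (3 * (4 * 2 ^ i * c + 1)) / e ≤ N := hN₁.trans (by exact_mod_cast (by omega : N₁ ≤ N))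
        rw [div_le_iff₀ he] at h5
        linarith

/-- half of a function of `Ω` with its mean at scale `N` removed -/
noncomputable def Fb (b : ℕ → ℤ) (N : ℕ) : ℕ → ℂ := fun n => ((((b (cardFactors n) : ℝ) - Mn (rl b) N) / 2 : ℝ) : ℂ)

/-- the function related to `Fb` at the primes -/
noncomputable def Fp (b : ℕ → ℤ) (N : ℕ) : ℕ → ℂ := fun n => ((((b (cardFactors n - 1) : ℝ) - Mn (rl b) N) / 2 : ℝ) : ℂ)

lemma Mn_one (b : ℕ → ℤ) (hb : ∀ l, |b l| ≤ 1) (N : ℕ) : |Mn (rl b) N| ≤ 1 := by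
  rcases Nat.eq_zero_or_pos N with h | h
  · unfold Mn
    rw [h, Nat.cast_zero, div_zero, abs_zero]
    norm_num
  · exact Mn_abs (rl_B0 hb) (by exact_mod_cast h)

lemma half_le (x y : ℝ) (hx : |x| ≤ 1) (hy : |y| ≤ 1) : ‖(((x - y) / 2 : ℝ) : ℂ)‖ ≤ 1 := by
  rw [Complex.norm_real, Real.norm_eq_abs, abs_div, abs_two, div_le_one two_pos]
  refine (abs_sub _ _).trans ?_
  linarith

lemma Fb_le (b : ℕ → ℤ) (hb : ∀ l, |b l| ≤ 1) (N n : ℕ) : ‖Fb b N n‖ ≤ 1 :=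
  half_le _ _ (by exact_mod_cast hb _) (Mn_one b hb N)

lemma Fp_le (b : ℕ → ℤ) (hb : ∀ l, |b l| ≤ 1) (N n : ℕ) : ‖Fp b N n‖ ≤ 1 :=
  half_le _ _ (by exact_mod_cast hb _) (Mn_one b hb N)

lemma Fb_Fl2 (b : ℕ → ℤ) (N p : ℕ) (hp : p.Prime) : Fl2 (Fb b N) (Fp b N) p := by
  refine ⟨1, norm_one, fun n hn => ?_⟩
  have hn0 : n ≠ 0 := by
    rintro rfl
    exact hn (dvd_zero _)
  rw [one_mul]
  unfold Fb Fp
  rw [ArithmeticFunction.cardFactors_mul hp.ne_zero hn0, ArithmeticFunction.cardFactors_apply_prime hp,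
    Nat.add_sub_cancel_left]

/-- the bilinear sums for the functions of `Ω` -/
lemma bilF (a c : ℕ) (hac : a ≠ c) (A : ℤ) (q : ℕ) (hq : 1 ≤ q) (e : ℝ) (he : 0 < e) :
    ∃ I₀ : ℕ, ∀ i : ℕ, I₀ ≤ i → ∃ N₀ : ℕ, ∀ N M : ℕ, N₀ ≤ N → N ≤ M → M ≤ 2 * N →
      ∀ b : ℕ → ℤ, (∀ l, |b l| ≤ 1) → ∀ g : ℕ → ℂ, (∀ n, ‖g n‖ ≤ 1) → ∀ P : Finset ℕ, P ⊆ QD i (i + 1) →
        ∑ p ∈ P, Real.log p / 2 ^ i * ‖∑ m ∈ range N, pr ![Fp b M, g] ![a, c] p m * ee (th A q 0 p * m)‖ ≤ e * N := by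
  obtain ⟨I₀, h1⟩ := bil_ratU Hom Hom_norm expo_hom a c hac A q hq (e / 2) (by positivity)
  refine ⟨I₀, fun i hi => ?_⟩
  obtain ⟨N₀, h2⟩ := h1 i hi
  obtain ⟨x₁, hx₁⟩ := Mn_up (show (0 : ℝ) < e / 6 by positivity)
  obtain ⟨x₂, hx₂⟩ := Mn_scale (show (0 : ℝ) < 1 / 18 by norm_num) (show (0 : ℝ) < e / 6 by positivity)
  obtain ⟨N₁, hN₁⟩ := exists_nat_ge (max x₁ x₂)
  refine ⟨N₀ + N₁ + 1, fun N M hN hNM hM2 b hb g hg P hP => ?_⟩
  set b₁ : ℕ → ℤ := fun l => b (l - 1) with hb₁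
  have hb1 : ∀ l, |b₁ l| ≤ 1 := fun l => hb _
  set f : ℕ → ℂ := fun n => ((((b₁ (cardFactors n) : ℝ) - Mn (rl b₁) ((18 * N : ℕ) : ℝ)) / 2 : ℝ) : ℂ) with hf
  have hfH : Hom (18 * N) f := ⟨b₁, hb1, rfl⟩
  have hfn := Hom_norm _ f hfH
  have h3 := h2 N (by omega) f hfH g hg P hP
  -- comparison of the means
  have hNx : max x₁ x₂ ≤ ((18 * N : ℕ) : ℝ) := hN₁.trans (by exact_mod_cast (by omega : N₁ ≤ 18 * N))
  have hc1 := hx₁ ((18 * N : ℕ) : ℝ) ((le_max_left _ _).trans hNx) (rl b₁) (rl_B0 hb1)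
  have hc2 : (fun l => rl b₁ (l + 1)) = rl b := by
    funext l
    unfold rl
    rw [hb₁]
    simp
  rw [hc2] at hc1
  have hc3 := hx₂ ((18 * N : ℕ) : ℝ) ((le_max_right _ _).trans hNx) (M : ℝ) (by
    push_cast
    have : (N : ℝ) ≤ M := by exact_mod_cast hNM
    linarith) (by exact_mod_cast (by omega : M ≤ 18 * N)) (rl b) (rl_B0 hb)
  have hdiff : ∀ n, ‖Fp b M n - f n‖ ≤ e / 6 := by
    intro n
    rw [hf]
    unfold Fp
    simp only
    rw [← Complex.ofReal_sub, Complex.norm_real, Real.norm_eq_abs]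
    have e1 : ((b (cardFactors n - 1) : ℝ) - Mn (rl b) M) / 2 -
        ((b₁ (cardFactors n) : ℝ) - Mn (rl b₁) ((18 * N : ℕ) : ℝ)) / 2 =
        ((Mn (rl b₁) ((18 * N : ℕ) : ℝ) - Mn (rl b) ((18 * N : ℕ) : ℝ)) +
          (Mn (rl b) ((18 * N : ℕ) : ℝ) - Mn (rl b) M)) / 2 := by
      rw [hb₁]
      ring
    rw [e1, abs_div, abs_two, div_le_iff₀ two_pos]
    refine (abs_add_le _ _).trans ?_
    linarith
  have h4 : ∀ p : ℕ, ‖∑ m ∈ range N, pr ![Fp b M, g] ![a, c] p m * ee (th A q 0 p * m)‖ ≤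
      ‖∑ m ∈ range N, pr ![f, g] ![a, c] p m * ee (th A q 0 p * m)‖ + e / 6 * N := by
    intro p
    have e1 : ‖∑ m ∈ range N, pr ![Fp b M, g] ![a, c] p m * ee (th A q 0 p * m) -
        ∑ m ∈ range N, pr ![f, g] ![a, c] p m * ee (th A q 0 p * m)‖ ≤ e / 6 * N := by
      rw [← sum_sub_distrib]
      refine (norm_sum_le _ _).trans ?_
      have e2 : ∀ m ∈ range N, ‖pr ![Fp b M, g] ![a, c] p m * ee (th A q 0 p * m) -
          pr ![f, g] ![a, c] p m * ee (th A q 0 p * m)‖ ≤ e / 6 := by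
        intro m _
        rw [pr_two, pr_two, ← sub_mul, norm_mul, c_norm_ee, mul_one, ← sub_mul, norm_mul]
        calc ‖Fp b M (m + p * a) - f (m + p * a)‖ * ‖g (m + p * c)‖ ≤ e / 6 * 1 :=
              mul_le_mul (hdiff _) (hg _) (norm_nonneg _) (by positivity)
          _ = e / 6 := mul_one _
      refine (sum_le_sum e2).trans (le_of_eq ?_)
      rw [sum_const, card_range, nsmul_eq_mul]
      ring
    have e2 := norm_sub_norm_le (∑ m ∈ range N, pr ![Fp b M, g] ![a, c] p m * ee (th A q 0 p * m))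
      (∑ m ∈ range N, pr ![f, g] ![a, c] p m * ee (th A q 0 p * m))
    linarith
  calc ∑ p ∈ P, Real.log p / 2 ^ i * ‖∑ m ∈ range N, pr ![Fp b M, g] ![a, c] p m * ee (th A q 0 p * m)‖ ≤
      ∑ p ∈ P, (Real.log p / 2 ^ i * ‖∑ m ∈ range N, pr ![f, g] ![a, c] p m * ee (th A q 0 p * m)‖ +
        Real.log p / 2 ^ i * (e / 6 * N)) := by
        refine sum_le_sum fun p _ => ?_
        rw [← mul_add]
        exact mul_le_mul_of_nonneg_left (h4 p) (w_nonneg i p)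
    _ = ∑ p ∈ P, Real.log p / 2 ^ i * ‖∑ m ∈ range N, pr ![f, g] ![a, c] p m * ee (th A q 0 p * m)‖ +
        (∑ p ∈ P, Real.log p / 2 ^ i) * (e / 6 * N) := by rw [sum_add_distrib, sum_mul]
    _ ≤ e / 2 * N + 3 * (e / 6 * N) :=
        add_le_add h3 (mul_le_mul_of_nonneg_right (w_sum i P hP) (by positivity))
    _ = e * N := by ring

end Pool.Agent.Y842.QY
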