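import Pool.Agent.Y842.QG.Two

/-!
Library Y842.QY (helper842), part 1: from chains to almost all scales, for families of functions depending on the
scale.
-/

set_option autoImplicit false

open Finset Filter Topology

namespace Pool.Agent.Y842.QY

open Pool.Agent.Y842.PG
open Pool.Agent.Y842.QG
open Pool.Agent.Y842.PH
open Pool.Agent.Helper602.MK (ee)
open Pool.Agent.Helper602.MK.N_J1c (c_ee_add c_ee_int c_norm_ee)
open Pool.Agent.TH112.BL (QD)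
open Pool.Agent.Y958.U (QQ)
open Pool.Agent.Y958.TC (sum_inv_large)
open Pool.Agent.Y304.U (sE ind ind_nonneg ind_le FF FF_nonneg FF_le FF_low low harm pw sE_nonneg)

/-- close functions have close sums -/
lemma Cg_close {r : ℕ} (G G' : Fin r → ℕ → ℂ) (hG : ∀ t n, ‖G t n‖ ≤ 1) (hG' : ∀ t n, ‖G' t n‖ ≤ 1)
    (hs : Fin r → ℕ) (σ : ℝ) (h : ∀ t n, ‖G t n - G' t n‖ ≤ σ) (y : ℕ) (α : ℝ) :
    ‖Cg G hs y α - Cg G' hs y α‖ ≤ r * σ * y := by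
  unfold Cg
  rw [← sum_sub_distrib]
  refine (norm_sum_le _ _).trans ?_
  have h1 : ∀ m ∈ range y, ‖pr G hs 1 m * ee (α * m) - pr G' hs 1 m * ee (α * m)‖ ≤ r * σ := by
    intro m _
    rw [← sub_mul, norm_mul, c_norm_ee, mul_one]
    unfold pr
    refine (prod_sub_le _ _ _ (fun t => hG _ _) (fun t => hG' _ _)).trans ?_
    refine (sum_le_sum fun t _ => h t _).trans (le_of_eq ?_)
    rw [sum_const, card_univ, Fintype.card_fin, nsmul_eq_mul]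
  refine (sum_le_sum h1).trans (le_of_eq ?_)
  rw [sum_const, card_range, nsmul_eq_mul]
  ring

/-- stability of a class of families -/
def Stab {r : ℕ} (𝒞 : (ℕ → Fin r → ℕ → ℂ) → Prop) : Prop := ∀ σ : ℝ, 0 < σ → ∀ K : ℕ, ∃ N₀ : ℕ, ∀ G, 𝒞 G →
  ∀ N M : ℕ, N₀ ≤ N → N ≤ M → M ≤ K * N → ∀ t n, ‖G M t n - G N t n‖ ≤ σ

/-- the sums at comparable scales -/
lemma stab_Cg {r : ℕ} (hr : 1 ≤ r) (hs : Fin r → ℕ) (𝒞 : (ℕ → Fin r → ℕ → ℂ) → Prop)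
    (hC : ∀ G, 𝒞 G → ∀ N t n, ‖G N t n‖ ≤ 1) (hSt : Stab 𝒞) (σ : ℝ) (hσ : 0 < σ) (K : ℕ) : ∃ N₀ : ℕ, ∀ G, 𝒞 G →
    ∀ N M : ℕ, N₀ ≤ N → N ≤ M → M ≤ K * N → ∀ (y : ℕ) (α : ℝ), ‖Cg (G M) hs y α - Cg (G N) hs y α‖ ≤ σ * y := by
  have hrr : (1 : ℝ) ≤ r := by exact_mod_cast hr
  obtain ⟨N₀, h1⟩ := hSt (σ / r) (by positivity) K
  refine ⟨N₀, fun G hG N M hN hNM hMK y α => ?_⟩
  refine (Cg_close (G M) (G N) (hC G hG M) (hC G hG N) hs (σ / r) (h1 G hG N M hN hNM hMK) y α).trans (le_of_eq ?_)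
  field_simp

/-- the bad scales -/
def BadW {r : ℕ} (G : ℕ → Fin r → ℕ → ℂ) (hs : Fin r → ℕ) (Gd : ℕ → ℕ → ℝ → Prop) (R : ℕ) (δ : ℝ) : Set ℕ :=
  {N : ℕ | ∃ α : ℝ, Gd R N α ∧ δ * N < ‖Cg (G N) hs N α‖}

open Classical in
/-- **from chains to almost all scales** -/
theorem cellsW {r : ℕ} (hr : 1 ≤ r) (hs : Fin r → ℕ) (𝒞 : (ℕ → Fin r → ℕ → ℂ) → Prop)
    (hC : ∀ G, 𝒞 G → ∀ N t n, ‖G N t n‖ ≤ 1) (hSt : Stab 𝒞)
    (Gd : ℕ → ℕ → ℝ → Prop) (hR : ∀ R R' N α, R ≤ R' → Gd R' N α → Gd R N α)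
    (hN : ∀ R N N' α, N ≤ N' → Gd R N α → Gd R N' α)
    (hch : ∀ ε : ℝ, 0 < ε → ∃ D : ℕ, 1 ≤ D ∧ ∃ Bc : ℝ, 0 ≤ Bc ∧ ∃ b₀ : ℕ, ∀ b, b₀ ≤ b → ∀ n : ℕ, ∃ R M₀ : ℕ,
      ∀ M : ℕ, M₀ ≤ M → ∀ G, 𝒞 G → ∀ (α : ℕ → ℝ) (S : ℕ → Finset ℕ),
        (∀ k, S k ⊆ QD (b + k * D) (b + k * D + 1)) → (∀ k < n, (S k).Nonempty → Gd R M (α k)) →
        ∑ k ∈ range n, 1 / ((b + k * D : ℕ) : ℝ) * ∑ p ∈ S k, Real.log p / 2 ^ (b + k * D) *
          (p * ‖Cg (G M) hs (M / p) (α k)‖ / M) ≤ ε * ∑ k ∈ range n, 1 / ((b + k * D : ℕ) : ℝ) + Bc)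
    (δ₂ : ℝ) (hδ₂ : 0 < δ₂) (hδ21 : δ₂ ≤ 1) (η : ℝ) (hη : 0 < η) :
    ∃ R X₀ : ℕ, ∀ X : ℕ, X₀ ≤ X → ∀ G, 𝒞 G → sE (BadW G hs Gd R δ₂) X ≤ η * Real.log X := by
  set δ : ℝ := δ₂ / 2 with hδd
  have hδ : 0 < δ := by positivity
  have hδ1 : δ ≤ 1 := by rw [hδd]; linarith
  obtain ⟨I₀, hI₀, hAv⟩ := avf
  set ε' : ℝ := η / 16 with hε'
  have hε'0 : 0 < ε' := by positivity
  obtain ⟨J, hJ⟩ := exists_nat_ge (8 / δ)
  have hJ0 : (0 : ℝ) < J := lt_of_lt_of_le (by positivity) hJ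
  have hJ1 : 0 < J := by exact_mod_cast hJ0
  set ε : ℝ := ε' * δ / (8 * J) with hε
  have hε0 : 0 < ε := by positivity
  obtain ⟨D, hD, Bc, hBc, b₀, hch1⟩ := hch ε hε0
  set i₀ : ℕ := I₀ + b₀ + 1 with hi₀
  obtain ⟨n, hn, hS⟩ := sum_inv_large i₀ (by omega) (8 * (J * D * Bc) / (δ * ε'))
  have hnD : n ≤ i₀ + n * D := by
    have : n * 1 ≤ n * D := Nat.mul_le_mul_left n hD
    omega
  set Z : ℝ := ∑ i ∈ Ico i₀ (i₀ + n * D), (1 : ℝ) / i with hZ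
  have hZS : 8 * (J * D * Bc) / (δ * ε') < Z := by
    refine lt_of_lt_of_le hS ?_
    apply sum_le_sum_of_subset_of_nonneg
    · intro i hi
      rw [mem_Ico] at hi ⊢
      omega
    · intro i _ _
      positivity
  choose Rr M₀ hch2 using fun r : ℕ => hch1 (i₀ + r) (by omega) n
  obtain ⟨R₁, hR₁⟩ := exists_nat_ge (8 / δ)
  obtain ⟨Ns, hNs⟩ := stab_Cg hr hs 𝒞 hC hSt δ hδ (2 * 2 ^ (i₀ + n * D))
  obtain ⟨X₀, hX₀⟩ := hAv i₀ (i₀ + n * D) (by omega) (by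
    have : 1 * 1 ≤ n * D := Nat.mul_le_mul (by omega) hD
    omega) η hη (∑ r ∈ range D, M₀ r + (1 + R₁) * 2 ^ (i₀ + n * D) + Ns * 2 ^ (i₀ + n * D))
  refine ⟨∑ r ∈ range D, Rr r, X₀, fun X hX G hGC => ?_⟩
  by_contra hcon
  rw [not_le] at hcon
  set E : Set ℕ := BadW G hs Gd (∑ r ∈ range D, Rr r) δ₂ with hEd
  obtain ⟨M, hM1, -, hM2⟩ := hX₀ X hX E hcon.le
  have hG := hC G hGC M
  -- cells
  set SS : ℕ → ℕ → Finset ℕ := fun i j => (QD i (i + 1)).filter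
    (fun p => M / p ∈ E ∧ J * (p - 2 ^ i - 1) / 2 ^ i = j) with hSS
  have hex : ∀ i j : ℕ, ∃ α : ℝ, (SS i j).Nonempty → ∃ p₀ ∈ SS i j, Gd (∑ r ∈ range D, Rr r) (M / p₀) α ∧
      (i < i₀ + n * D → δ * ((M / p₀ : ℕ) : ℝ) < ‖Cg (G M) hs (M / p₀) α‖) := by
    intro i j
    by_cases hne : (SS i j).Nonempty
    · obtain ⟨p₀, hp₀⟩ := hne
      have h1 := hp₀
      rw [hSS] at h1
      simp only [mem_filter] at h1
      obtain ⟨α, hα⟩ := h1.2.1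
      refine ⟨α, fun _ => ⟨p₀, hp₀, hα.1, fun hi => ?_⟩⟩
      have hq := QD_mem h1.1
      have hp2 : p₀ ≤ 2 ^ (i₀ + n * D) := hq.2.2.trans (Nat.pow_le_pow_right (by norm_num) (by omega))
      have hp1 : 0 < p₀ := hq.1.pos
      have hNs1 : Ns ≤ M / p₀ := by
        rw [Nat.le_div_iff_mul_le hp1]
        have : Ns * p₀ ≤ Ns * 2 ^ (i₀ + n * D) := Nat.mul_le_mul_left _ hp2
        omega
      have hMp : p₀ ≤ M := by
        have : 1 * 2 ^ (i₀ + n * D) ≤ (1 + R₁) * 2 ^ (i₀ + n * D) := Nat.mul_le_mul_right _ (by omega)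
        omega
      have hM2K : M ≤ 2 * 2 ^ (i₀ + n * D) * (M / p₀) := by
        have e1 : M < p₀ * (M / p₀ + 1) := Nat.lt_mul_div_succ M hp1
        have e2 : 1 ≤ M / p₀ := Nat.div_pos hMp hp1
        have e3 : p₀ * (M / p₀ + 1) ≤ 2 ^ (i₀ + n * D) * (M / p₀ + M / p₀) := Nat.mul_le_mul hp2 (by omega)
        have e4 : 2 ^ (i₀ + n * D) * (M / p₀ + M / p₀) = 2 * 2 ^ (i₀ + n * D) * (M / p₀) := by ring
        omega
      have h3 := hNs G hGC (M / p₀) M hNs1 (Nat.div_le_self _ _) hM2K (M / p₀) α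
      have h4 := norm_sub_norm_le (Cg (G (M / p₀)) hs (M / p₀) α) (Cg (G M) hs (M / p₀) α)
      rw [norm_sub_rev] at h4
      have h5 := hα.2
      have h6 : δ₂ * ((M / p₀ : ℕ) : ℝ) = δ * ((M / p₀ : ℕ) : ℝ) + δ * ((M / p₀ : ℕ) : ℝ) := by rw [hδd]; ring
      linarith
    · exact ⟨0, fun h1 => (hne h1).elim⟩
  choose aa haa using hex
  have hpM : ∀ i < i₀ + n * D, ∀ p ∈ QD i (i + 1), (1 + R₁) * p ≤ M := by
    intro i hi p hp
    have h1 := (QD_mem hp).2.2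
    have h2 : 2 ^ (i + 1) ≤ 2 ^ (i₀ + n * D) := Nat.pow_le_pow_right (by norm_num) (by omega)
    have h3 : (1 + R₁) * p ≤ (1 + R₁) * 2 ^ (i₀ + n * D) := Nat.mul_le_mul_left _ (h1.trans h2)
    omega
  have hbig : ∀ i < i₀ + n * D, ∀ j, ∀ p ∈ SS i j, δ / 2 ≤ p * ‖Cg (G M) hs (M / p) (aa i j)‖ / M := by
    intro i hi j p hp
    obtain ⟨p₀, hp₀, hα⟩ := haa i j ⟨p, hp⟩
    rw [hSS] at hp hp₀
    simp only [mem_filter] at hp hp₀
    have h1 := QD_mem hp.1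
    have h2 := QD_mem hp₀.1
    refine cell_bigg (G M) hG hs δ hδ hδ1 J hJ i p p₀ M h1.2.1 h2.2.1 (hp.2.2.trans hp₀.2.2.symm) ?_ _ (hα.2 hi)
    have h3 := hpM i hi p hp.1
    have h4 : ((1 + R₁ : ℕ) : ℝ) * p ≤ M := by exact_mod_cast h3
    refine le_trans ?_ h4
    apply mul_le_mul_of_nonneg_right _ (Nat.cast_nonneg p)
    push_cast
    linarith
  have hA2 : ∀ i, ∀ j, (SS i j).Nonempty → Gd (∑ r ∈ range D, Rr r) M (aa i j) := by
    intro i j hne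
    obtain ⟨p₀, hp₀, hα⟩ := haa i j hne
    exact hN _ _ _ _ (Nat.div_le_self M p₀) hα.1
  -- the chains
  have hchain : ∀ r < D, ∀ j, ∑ k ∈ range n, 1 / ((i₀ + r + k * D : ℕ) : ℝ) *
      ∑ p ∈ SS (i₀ + r + k * D) j, Real.log p / 2 ^ (i₀ + r + k * D) *
        (p * ‖Cg (G M) hs (M / p) (aa (i₀ + r + k * D) j)‖ / M) ≤
      ε * ∑ k ∈ range n, 1 / ((i₀ + r + k * D : ℕ) : ℝ) + Bc := by
    intro r hr j
    have hrD : r ∈ range D := mem_range.2 hr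
    have hsing : ∀ g : ℕ → ℕ, g r ≤ ∑ r ∈ range D, g r := fun g =>
      single_le_sum (f := g) (fun _ _ => Nat.zero_le _) hrD
    refine hch2 r M ?_ G hGC (fun k => aa (i₀ + r + k * D) j) (fun k => SS (i₀ + r + k * D) j)
      (fun k => filter_subset _ _) ?_
    · have := hsing M₀
      omega
    · intro k _ hne
      exact hR _ _ _ _ (hsing Rr) (hA2 _ j hne)
  have htot : ∑ j ∈ range J, ∑ i ∈ Ico i₀ (i₀ + n * D), 1 / (i : ℝ) * ∑ p ∈ SS i j, Real.log p / 2 ^ i *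
      (p * ‖Cg (G M) hs (M / p) (aa i j)‖ / M) ≤ J * (ε * Z + D * Bc) := by
    have h1 : ∀ j ∈ range J, ∑ i ∈ Ico i₀ (i₀ + n * D), 1 / (i : ℝ) * ∑ p ∈ SS i j, Real.log p / 2 ^ i *
        (p * ‖Cg (G M) hs (M / p) (aa i j)‖ / M) ≤ ε * Z + D * Bc := by
      intro j _
      rw [resum (fun i => 1 / (i : ℝ) * ∑ p ∈ SS i j, Real.log p / 2 ^ i *
        (p * ‖Cg (G M) hs (M / p) (aa i j)‖ / M)) i₀ D n, hZ, resum (fun i => 1 / (i : ℝ)) i₀ D n, mul_sum]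
      have h2 : (D : ℝ) * Bc = ∑ r ∈ range D, Bc := by rw [sum_const, card_range, nsmul_eq_mul]
      rw [h2, ← sum_add_distrib]
      exact sum_le_sum fun r hr => hchain r (mem_range.1 hr) j
    refine (sum_le_sum h1).trans ?_
    rw [sum_const, card_range, nsmul_eq_mul]
  have hlow : ε' * Z * (δ / 2) ≤ ∑ j ∈ range J, ∑ i ∈ Ico i₀ (i₀ + n * D), 1 / (i : ℝ) *
      ∑ p ∈ SS i j, Real.log p / 2 ^ i * (p * ‖Cg (G M) hs (M / p) (aa i j)‖ / M) := by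
    refine (mul_le_mul_of_nonneg_right hM2 (by positivity : (0 : ℝ) ≤ δ / 2)).trans ?_
    unfold FF
    rw [sum_comm, sum_mul]
    refine sum_le_sum fun i hi => ?_
    rw [mem_Ico] at hi
    rw [← mul_sum, mul_assoc]
    apply mul_le_mul_of_nonneg_left _ (by positivity)
    have h1 : ∑ p ∈ QQ i, Real.log p / 2 ^ i * ind E (M / p) =
        ∑ j ∈ range J, ∑ p ∈ SS i j, Real.log p / 2 ^ i := by
      have e1 : ∀ j ∈ range J, ∑ p ∈ SS i j, Real.log (p : ℝ) / 2 ^ i =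
          ∑ p ∈ (QD i (i + 1)).filter (fun p => M / p ∈ E),
            if J * (p - 2 ^ i - 1) / 2 ^ i = j then Real.log (p : ℝ) / 2 ^ i else 0 := by
        intro j _
        rw [← sum_filter]
        refine sum_congr ?_ (fun _ _ => rfl)
        ext p
        rw [hSS]
        simp only [mem_filter]
        tauto
      rw [sum_congr rfl e1, sum_comm, sum_filter]
      refine sum_congr rfl fun p hp => ?_
      have hp2 := QD_mem (show p ∈ QD i (i + 1) from hp)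
      by_cases hpE : M / p ∈ E
      · have hi1 : ind E (M / p) = 1 := by
          unfold ind
          rw [if_pos hpE]
        rw [hi1, if_pos hpE, mul_one, sum_ite_eq, if_pos]
        rw [mem_range]
        apply Nat.div_lt_of_lt_mul
        rw [mul_comm (2 ^ i)]
        apply Nat.mul_lt_mul_of_pos_left _ hJ1
        have := pow_succ 2 i
        omega
      · have hi1 : ind E (M / p) = 0 := by
          unfold ind
          rw [if_neg hpE]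
        rw [hi1, if_neg hpE, mul_zero]
    rw [h1, sum_mul]
    refine sum_le_sum fun j _ => ?_
    rw [sum_mul]
    refine sum_le_sum fun p hp => ?_
    exact mul_le_mul_of_nonneg_left (hbig i hi.2 j p hp) (w_nonneg i p)
  have hfin := hlow.trans htot
  have e1 : (J : ℝ) * (ε * Z + D * Bc) = ε' * δ / 8 * Z + J * D * Bc := by
    rw [hε]
    field_simp
  rw [e1] at hfin
  have hZ0 : 0 < Z := by
    refine lt_of_le_of_lt ?_ hZS
    positivity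
  rw [div_lt_iff₀ (by positivity)] at hZS
  have : 0 < δ * ε' * Z := by positivity
  nlinarith

end Pool.Agent.Y842.QY
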