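import Pool.Agent.Y842.QY.Mov

/-!
Library Y842.QY (helper842), part 8: several clusters at independently moving shifts.
-/

set_option autoImplicit false

open Finset

namespace Pool.Agent.Y842.QY

open ArithmeticFunction (cardFactors)

/-- the function of the cluster -/
noncomputable def Pc (A B : ℕ → ℂ) (a c n s : ℕ) : ℂ := A (cardFactors (n + s + c)) * B (cardFactors (n + s + a))

lemma Pc_le (A B : ℕ → ℂ) (hA : ∀ l, ‖A l‖ ≤ 1) (hB : ∀ l, ‖B l‖ ≤ 1) (a c n s : ℕ) : ‖Pc A B a c n s‖ ≤ 1 := by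
  unfold Pc
  rw [norm_mul]
  exact mul_le_one₀ (hA _) (norm_nonneg _) (hB _)

/-- sums over all shifts: one coordinate at a time -/
lemma split_sum {j N : ℕ} (hN : 1 ≤ N) (i : Fin j) (φ : (Fin j → Fin N) → ℝ) (V : ℝ)
    (h : ∀ s : Fin j → Fin N, ∑ t : Fin N, φ (Function.update s i t) ≤ V) :
    (N : ℝ) * ∑ s : Fin j → Fin N, φ s ≤ (N : ℝ) ^ j * V := by
  classical
  have e1 : ∑ s : Fin j → Fin N, ∑ t : Fin N, φ (Function.update s i t) = (N : ℝ) * ∑ s : Fin j → Fin N, φ s := by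
    have e2 : ∑ s : Fin j → Fin N, ∑ t : Fin N, φ (Function.update s i t) =
        ∑ x : Fin N × ({l // l ≠ i} → Fin N), ∑ t : Fin N,
          φ (Function.update ((Equiv.funSplitAt i (Fin N)).symm x) i t) :=
      (Equiv.sum_comp (Equiv.funSplitAt i (Fin N)).symm
        (fun s => ∑ t : Fin N, φ (Function.update s i t))).symm
    have e3 : ∑ s : Fin j → Fin N, φ s =
        ∑ x : Fin N × ({l // l ≠ i} → Fin N), φ ((Equiv.funSplitAt i (Fin N)).symm x) :=
      (Equiv.sum_comp (Equiv.funSplitAt i (Fin N)).symm φ).symm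
    have e4 : ∀ (u t : Fin N) (r : {l // l ≠ i} → Fin N),
        Function.update ((Equiv.funSplitAt i (Fin N)).symm (u, r)) i t = (Equiv.funSplitAt i (Fin N)).symm (t, r) := by
      intro u t r
      funext l
      by_cases hl : l = i
      · subst hl
        rw [Function.update_self, Equiv.funSplitAt_symm_apply, dif_pos rfl]
      · rw [Function.update_of_ne hl, Equiv.funSplitAt_symm_apply, Equiv.funSplitAt_symm_apply, dif_neg hl, dif_neg hl]
    rw [e2, e3, Fintype.sum_prod_type, Fintype.sum_prod_type]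
    have e5 : ∀ u : Fin N, ∑ r : {l // l ≠ i} → Fin N, ∑ t : Fin N,
        φ (Function.update ((Equiv.funSplitAt i (Fin N)).symm (u, r)) i t) =
        ∑ t : Fin N, ∑ r : {l // l ≠ i} → Fin N, φ ((Equiv.funSplitAt i (Fin N)).symm (t, r)) := by
      intro u
      rw [sum_comm]
      refine sum_congr rfl fun t _ => sum_congr rfl fun r _ => ?_
      rw [e4]
    rw [sum_congr rfl fun u _ => e5 u, sum_const, card_univ, Fintype.card_fin, nsmul_eq_mul]
  rw [← e1]
  refine (sum_le_sum fun s _ => h s).trans (le_of_eq ?_)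
  rw [sum_const, card_univ, Fintype.card_fun, Fintype.card_fin, Fintype.card_fin, nsmul_eq_mul]
  push_cast
  rfl

/-- **several clusters** at independently moving shifts, arbitrary side information -/
theorem clusters (j : ℕ) (a c : Fin j → ℕ) (hac : ∀ i, a i ≠ c i) (ε : ℝ) (hε : 0 < ε) :
    ∃ X₀ : ℕ, ∀ X : ℕ, X₀ ≤ X → ∀ A B : Fin j → ℕ → ℂ, (∀ i l, ‖A i l‖ ≤ 1) → (∀ i l, ‖B i l‖ ≤ 1) →
      ∀ F : ℕ → ℕ → ℂ, (∀ N n, ‖F N n‖ ≤ 1) →
      ∑ N ∈ Icc 1 X, 1 / (N : ℝ) * (1 / (N : ℝ) ^ j * ∑ s : Fin j → Fin N,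
        ‖(∑ n ∈ Icc 1 N, F N n * ∏ i, (A i (cardFactors (n + s i + c i)) * B i (cardFactors (n + s i + a i)))) / N -
          (∑ n ∈ Icc 1 N, F N n) / N * ∏ i, (mB (A i) N * mB (B i) N)‖) ≤ ε * Real.log X := by
  classical
  choose X₀ hX₀ using fun i : Fin j => one_cl (a i) (c i) (hac i) (ε / (j + 1)) (by positivity)
  refine ⟨∑ i, X₀ i + 1, fun X hX A B hA hB F hF => ?_⟩
  have hX1 : 1 ≤ X := by omega
  choose V hV1 hV2 using fun i : Fin j => hX₀ i X (by
    have := single_le_sum (f := X₀) (fun _ _ => Nat.zero_le _) (mem_univ i)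
    omega) (A i) (B i) (hA i) (hB i)
  set m : ℕ → Fin j → ℂ := fun N i => mB (A i) N * mB (B i) N with hm
  have hm1 : ∀ N i, ‖m N i‖ ≤ 1 := by
    intro N i
    rw [hm]
    show ‖mB (A i) N * mB (B i) N‖ ≤ 1
    rw [norm_mul]
    exact mul_le_one₀ (mB_le _ 1 zero_le_one (hA i) N) (norm_nonneg _) (mB_le _ 1 zero_le_one (hB i) N)
  have hP1 : ∀ (N : ℕ) (s : Fin j → Fin N) n i, ‖Pc (A i) (B i) (a i) (c i) n (s i)‖ ≤ 1 := fun N s n i =>
    Pc_le _ _ (hA i) (hB i) _ _ _ _
  -- one scale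
  have hone : ∀ N ∈ Icc 1 X, 1 / (N : ℝ) * (1 / (N : ℝ) ^ j * ∑ s : Fin j → Fin N,
        ‖(∑ n ∈ Icc 1 N, F N n * ∏ i, (A i (cardFactors (n + s i + c i)) * B i (cardFactors (n + s i + a i)))) / N -
          (∑ n ∈ Icc 1 N, F N n) / N * ∏ i, (mB (A i) N * mB (B i) N)‖) ≤ ∑ i, V i N / (N : ℝ) ^ 3 := by
    intro N hN
    have hN1 := (mem_Icc.1 hN).1
    have hN0 : (0 : ℝ) < N := by exact_mod_cast hN1
    set Fi : Fin j → (Fin j → Fin N) → ℕ → ℂ := fun i s n => F N n * (∏ l ∈ univ.filter (fun l => l < i), m N l) *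
      ∏ l ∈ univ.filter (fun l => i < l), Pc (A l) (B l) (a l) (c l) n (s l) with hFi
    have hFi1 : ∀ i s n, ‖Fi i s n‖ ≤ 1 := by
      intro i s n
      rw [hFi]
      show ‖F N n * (∏ l ∈ univ.filter (fun l => l < i), m N l) *
        ∏ l ∈ univ.filter (fun l => i < l), Pc (A l) (B l) (a l) (c l) n (s l)‖ ≤ 1
      rw [norm_mul, norm_mul, norm_prod, norm_prod]
      have e1 : ∏ l ∈ univ.filter (fun l => l < i), ‖m N l‖ ≤ 1 := prod_le_one (fun _ _ => norm_nonneg _) (fun l _ => hm1 N l)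
      have e2 : ∏ l ∈ univ.filter (fun l => i < l), ‖Pc (A l) (B l) (a l) (c l) n (s l)‖ ≤ 1 :=
        prod_le_one (fun _ _ => norm_nonneg _) (fun l _ => hP1 N s n l)
      exact mul_le_one₀ (mul_le_one₀ (hF N n) (prod_nonneg fun _ _ => norm_nonneg _) e1)
        (prod_nonneg fun _ _ => norm_nonneg _) e2
    set φ : Fin j → (Fin j → Fin N) → ℝ := fun i s =>
      ‖∑ n ∈ Icc 1 N, Fi i s n * (Pc (A i) (B i) (a i) (c i) n (s i) - m N i)‖ with hφ
    -- telescoping
    have h1 : ∀ s : Fin j → Fin N,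
        ‖(∑ n ∈ Icc 1 N, F N n * ∏ i, (A i (cardFactors (n + s i + c i)) * B i (cardFactors (n + s i + a i)))) / N -
          (∑ n ∈ Icc 1 N, F N n) / N * ∏ i, (mB (A i) N * mB (B i) N)‖ ≤ 1 / (N : ℝ) * ∑ i, φ i s := by
      intro s
      have e1 : (∑ n ∈ Icc 1 N, F N n * ∏ i, (A i (cardFactors (n + s i + c i)) * B i (cardFactors (n + s i + a i)))) / N -
          (∑ n ∈ Icc 1 N, F N n) / N * ∏ i, (mB (A i) N * mB (B i) N) =
          1 / (N : ℂ) * ∑ i, ∑ n ∈ Icc 1 N, Fi i s n * (Pc (A i) (B i) (a i) (c i) n (s i) - m N i) := by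
        rw [sum_comm]
        have e2 : ∀ n, ∑ i, Fi i s n * (Pc (A i) (B i) (a i) (c i) n (s i) - m N i) =
            F N n * ∏ i, Pc (A i) (B i) (a i) (c i) n (s i) - F N n * ∏ i, m N i := by
          intro n
          have e3 := prod_sub_ordered (univ : Finset (Fin j)) (fun i => Pc (A i) (B i) (a i) (c i) n (s i))
            (fun i => Pc (A i) (B i) (a i) (c i) n (s i) - m N i)
          have e4 : ∀ i, Pc (A i) (B i) (a i) (c i) n (s i) - (Pc (A i) (B i) (a i) (c i) n (s i) - m N i) = m N i :=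
            fun i => sub_sub_cancel _ _
          simp only [e4] at e3
          rw [e3, mul_sub, sub_sub_cancel, mul_sum]
          refine sum_congr rfl fun i _ => ?_
          rw [hFi]
          ring
        rw [sum_congr rfl fun n _ => e2 n, sum_sub_distrib, ← sum_mul, mul_sub]
        have e5 : ∀ n, ∏ i, Pc (A i) (B i) (a i) (c i) n (s i) =
            ∏ i, (A i (cardFactors (n + s i + c i)) * B i (cardFactors (n + s i + a i))) := fun n => rfl
        simp only [e5]
        rw [hm]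
        ring
      rw [e1, norm_mul, norm_div, norm_one, Complex.norm_natCast]
      exact mul_le_mul_of_nonneg_left (norm_sum_le _ _) (by positivity)
    -- one cluster at a time
    have h2 : ∀ i, (N : ℝ) * ∑ s : Fin j → Fin N, φ i s ≤ (N : ℝ) ^ j * V i N := by
      intro i
      refine split_sum hN1 i (φ i) (V i N) fun s => ?_
      have h3 := hV1 i N hN1 (fun n => Fi i s n) (hFi1 i s)
      refine le_trans (le_of_eq ?_) h3
      rw [← Fin.sum_univ_eq_sum_range (fun t => ‖∑ n ∈ Icc 1 N, Fi i s n *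
        (A i (cardFactors (n + t + c i)) * B i (cardFactors (n + t + a i)) - mB (A i) N * mB (B i) N)‖) N]
      refine sum_congr rfl fun t _ => ?_
      rw [hφ]
      show ‖∑ n ∈ Icc 1 N, Fi i (Function.update s i t) n *
        (Pc (A i) (B i) (a i) (c i) n ((Function.update s i t) i) - m N i)‖ = _
      congr 1
      refine sum_congr rfl fun n _ => ?_
      rw [Function.update_self]
      have e1 : Fi i (Function.update s i t) n = Fi i s n := by
        rw [hFi]
        show F N n * (∏ l ∈ univ.filter (fun l => l < i), m N l) *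
          ∏ l ∈ univ.filter (fun l => i < l), Pc (A l) (B l) (a l) (c l) n ((Function.update s i t) l) =
          F N n * (∏ l ∈ univ.filter (fun l => l < i), m N l) *
          ∏ l ∈ univ.filter (fun l => i < l), Pc (A l) (B l) (a l) (c l) n (s l)
        congr 1
        refine prod_congr rfl fun l hl => ?_
        rw [Function.update_of_ne (ne_of_gt (mem_filter.1 hl).2)]
      rw [e1]
      rfl
    have h3 : ∀ i, 1 / (N : ℝ) ^ j * ∑ s : Fin j → Fin N, φ i s ≤ V i N / N := by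
      intro i
      rw [le_div_iff₀ hN0, one_div, mul_assoc, inv_mul_le_iff₀ (by positivity), mul_comm (∑ s : Fin j → Fin N, φ i s)]
      exact h2 i
    calc 1 / (N : ℝ) * (1 / (N : ℝ) ^ j * ∑ s : Fin j → Fin N,
          ‖(∑ n ∈ Icc 1 N, F N n * ∏ i, (A i (cardFactors (n + s i + c i)) * B i (cardFactors (n + s i + a i)))) / N -
            (∑ n ∈ Icc 1 N, F N n) / N * ∏ i, (mB (A i) N * mB (B i) N)‖) ≤
        1 / (N : ℝ) * (1 / (N : ℝ) ^ j * ∑ s : Fin j → Fin N, 1 / (N : ℝ) * ∑ i, φ i s) := by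
          apply mul_le_mul_of_nonneg_left _ (by positivity)
          exact mul_le_mul_of_nonneg_left (sum_le_sum fun s _ => h1 s) (by positivity)
      _ = 1 / (N : ℝ) ^ 2 * ∑ i, (1 / (N : ℝ) ^ j * ∑ s : Fin j → Fin N, φ i s) := by
          rw [← mul_sum, sum_comm, ← mul_sum]
          ring
      _ ≤ 1 / (N : ℝ) ^ 2 * ∑ i, V i N / N :=
          mul_le_mul_of_nonneg_left (sum_le_sum fun i _ => h3 i) (by positivity)
      _ = ∑ i, V i N / (N : ℝ) ^ 3 := by
          rw [mul_sum]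
          refine sum_congr rfl fun i _ => ?_
          field_simp
  refine (sum_le_sum hone).trans ?_
  rw [sum_comm]
  refine (sum_le_sum fun i _ => hV2 i).trans ?_
  rw [sum_const, card_univ, Fintype.card_fin, nsmul_eq_mul]
  have hlog0 : 0 ≤ Real.log (X : ℝ) := Real.log_natCast_nonneg X
  have e1 : (j : ℝ) * (ε / (j + 1) * Real.log X) = (j / (j + 1)) * (ε * Real.log X) := by ring
  rw [e1]
  have e2 : (j : ℝ) / (j + 1) ≤ 1 := by
    rw [div_le_one (by positivity)]
    linarith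
  have e3 : 0 ≤ ε * Real.log X := by positivity
  nlinarith

end Pool.Agent.Y842.QY
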