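import Pool.Agent.Y842.QY.Clu

/-!
Library Y842.QY (helper842), part 9: several clusters, exceptional sets.
-/

set_option autoImplicit false

open Finset

namespace Pool.Agent.Y842.QY

open Pool.Agent.Y304.U (sE ind ind_nonneg)
open Pool.Agent.Y958.U (LZ)
open Pool.Agent.Y842.EL (LZ_eps LZ_diag')
open ArithmeticFunction (cardFactors)

/-- the discrepancy -/
noncomputable def disc {j : ℕ} (A B : Fin j → ℕ → ℂ) (a c : Fin j → ℕ) (F : ℕ → ℂ) (N : ℕ) (s : Fin j → Fin N) : ℝ :=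
  ‖(∑ n ∈ Icc 1 N, F n * ∏ i, (A i (cardFactors (n + s i + c i)) * B i (cardFactors (n + s i + a i)))) / N -
    (∑ n ∈ Icc 1 N, F n) / N * ∏ i, (mB (A i) N * mB (B i) N)‖

/-- **one exceptional set** -/
theorem clu_exc (j : ℕ) (A B : Fin j → ℕ → ℂ) (hA : ∀ i l, ‖A i l‖ ≤ 1) (hB : ∀ i l, ‖B i l‖ ≤ 1)
    (F : ℕ → ℕ → ℂ) (hF : ∀ N n, ‖F N n‖ ≤ 1) :
    ∃ E : Set ℕ, LZ E ∧ ∀ a c : Fin j → ℕ, (∀ i, a i ≠ c i) → ∀ ε : ℝ, 0 < ε → ∃ N₀ : ℕ, ∀ N : ℕ, N₀ ≤ N → N ∉ E →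
      ((univ.filter (fun s : Fin j → Fin N => ε < disc A B a c (F N) N s)).card : ℝ) ≤ ε * (N : ℝ) ^ j := by
  classical
  obtain ⟨E, hE, h1⟩ := LZ_diag' (ι := (Fin j → ℕ) × (Fin j → ℕ) × ℕ)
    (fun t => {N : ℕ | (∀ i, t.1 i ≠ t.2.1 i) ∧ 1 / ((t.2.2 : ℝ) + 1) * (N : ℝ) ^ j <
      ((univ.filter (fun s : Fin j → Fin N => 1 / ((t.2.2 : ℝ) + 1) < disc A B t.1 t.2.1 (F N) N s)).card : ℝ)}) (by
    rintro ⟨a, c, k⟩
    rw [LZ_eps]
    intro ε hε
    have hk0 : (0 : ℝ) < (k : ℝ) + 1 := by positivity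
    by_cases hac : ∀ i, a i ≠ c i
    swap
    · refine ⟨0, fun X _ => ?_⟩
      have e : {N : ℕ | (∀ i, a i ≠ c i) ∧ 1 / ((k : ℝ) + 1) * (N : ℝ) ^ j <
          ((univ.filter (fun s : Fin j → Fin N => 1 / ((k : ℝ) + 1) < disc A B a c (F N) N s)).card : ℝ)} = ∅ := by
        ext N
        constructor
        · rintro ⟨h, -⟩
          exact (hac h).elim
        · intro h
          exact h.elim
      show sE {N : ℕ | (∀ i, a i ≠ c i) ∧ 1 / ((k : ℝ) + 1) * (N : ℝ) ^ j <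
          ((univ.filter (fun s : Fin j → Fin N => 1 / ((k : ℝ) + 1) < disc A B a c (F N) N s)).card : ℝ)} X ≤ _
      rw [e]
      unfold sE ind
      simp only [Set.mem_empty_iff_false, if_false, zero_div, sum_const_zero]
      exact mul_nonneg hε.le (Real.log_natCast_nonneg _)
    obtain ⟨X₀, h2⟩ := clusters j a c hac (ε / ((k : ℝ) + 1) ^ 2) (by positivity)
    refine ⟨X₀, fun X hX => ?_⟩
    set T : Set ℕ := {N : ℕ | (∀ i, a i ≠ c i) ∧ 1 / ((k : ℝ) + 1) * (N : ℝ) ^ j <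
          ((univ.filter (fun s : Fin j → Fin N => 1 / ((k : ℝ) + 1) < disc A B a c (F N) N s)).card : ℝ)} with hT
    have h4 := h2 X hX A B hA hB F hF
    have h5 : (1 / ((k : ℝ) + 1)) ^ 2 * sE T X ≤ ε / ((k : ℝ) + 1) ^ 2 * Real.log X := by
      refine le_trans ?_ h4
      unfold sE
      rw [mul_sum]
      refine sum_le_sum fun N hN => ?_
      have hN0 : (0 : ℝ) < N := by exact_mod_cast (mem_Icc.1 hN).1
      have hd0 : ∀ s : Fin j → Fin N, 0 ≤ disc A B a c (F N) N s := fun s => norm_nonneg _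
      unfold ind
      split_ifs with h6
      · have h7 : 1 / ((k : ℝ) + 1) * ((univ.filter (fun s : Fin j → Fin N =>
            1 / ((k : ℝ) + 1) < disc A B a c (F N) N s)).card : ℝ) ≤ ∑ s : Fin j → Fin N, disc A B a c (F N) N s := by
          rw [mul_comm, ← nsmul_eq_mul, ← sum_const]
          refine (sum_le_sum fun s hs => (mem_filter.1 hs).2.le).trans ?_
          exact sum_le_sum_of_subset_of_nonneg (filter_subset _ _) fun s _ _ => hd0 s
        have h8 : (1 / ((k : ℝ) + 1)) ^ 2 * (N : ℝ) ^ j ≤ ∑ s : Fin j → Fin N, disc A B a c (F N) N s := by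
          refine le_trans ?_ h7
          rw [sq, mul_assoc]
          exact mul_le_mul_of_nonneg_left h6.2.le (by positivity)
        have h9 : (1 / ((k : ℝ) + 1)) ^ 2 ≤ 1 / (N : ℝ) ^ j * ∑ s : Fin j → Fin N, disc A B a c (F N) N s := by
          rw [one_div ((N : ℝ) ^ j), le_inv_mul_iff₀ (by positivity), mul_comm]
          exact h8
        calc (1 / ((k : ℝ) + 1)) ^ 2 * (1 / (N : ℝ)) ≤
              (1 / (N : ℝ) ^ j * ∑ s : Fin j → Fin N, disc A B a c (F N) N s) * (1 / (N : ℝ)) :=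
              mul_le_mul_of_nonneg_right h9 (by positivity)
          _ = 1 / (N : ℝ) * (1 / (N : ℝ) ^ j * ∑ s : Fin j → Fin N, disc A B a c (F N) N s) := mul_comm _ _
      · rw [zero_div, mul_zero]
        have : 0 ≤ ∑ s : Fin j → Fin N, disc A B a c (F N) N s := sum_nonneg fun s _ => hd0 s
        show 0 ≤ 1 / (N : ℝ) * (1 / (N : ℝ) ^ j * ∑ s : Fin j → Fin N, disc A B a c (F N) N s)
        positivity
    have h7 := mul_le_mul_of_nonneg_left h5 (by positivity : (0 : ℝ) ≤ ((k : ℝ) + 1) ^ 2)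
    have e1 : ((k : ℝ) + 1) ^ 2 * ((1 / ((k : ℝ) + 1)) ^ 2 * sE T X) = sE T X := by field_simp
    have e2 : ((k : ℝ) + 1) ^ 2 * (ε / ((k : ℝ) + 1) ^ 2 * Real.log X) = ε * Real.log X := by field_simp
    rw [e1, e2] at h7
    exact h7)
  refine ⟨E, hE, fun a c hac ε hε => ?_⟩
  obtain ⟨k, hk⟩ := exists_nat_gt (1 / ε)
  obtain ⟨N₀, h2⟩ := h1 (a, c, k)
  have hkε : 1 / ((k : ℝ) + 1) ≤ ε := by
    rw [div_le_iff₀ (by positivity)]
    rw [div_lt_iff₀ hε] at hk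
    nlinarith
  refine ⟨N₀, fun N hN hNE => ?_⟩
  by_contra hcon
  rw [not_le] at hcon
  apply hNE
  apply h2 N hN
  rw [Set.mem_ofPred_eq]
  refine ⟨hac, lt_of_le_of_lt (mul_le_mul_of_nonneg_right hkε (by positivity)) (lt_of_lt_of_le hcon ?_)⟩
  apply Nat.cast_le.2
  apply card_le_card
  intro s hs
  rw [mem_filter] at hs ⊢
  exact ⟨hs.1, lt_of_le_of_lt hkε hs.2⟩

end Pool.Agent.Y842.QY
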