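import Pool.Agent.Y842.QY.Mov

/-!
Library Y842.QY (helper842), part 10: the functions `z ^ Ω(n)` and an arbitrary multiplicative function, uniformly in
`z` away from `1`; periodic weights; arbitrary further factors.
-/

set_option autoImplicit false

open Finset

namespace Pool.Agent.Y842.QY

open Pool.Agent.Y842.PG
open Pool.Agent.Helper602.MK (ee)
open Pool.Agent.Helper602.MK.N_J1c (c_ee_add c_ee_int c_norm_ee)
open Pool.Agent.Y304.U (harm)
open Pool.Agent.TH575.OM (Mn rl rl_B0 Mn_up)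
open ArithmeticFunction (cardFactors)

/-- the means of a complex function of `Ω` and of its shift -/
lemma mB_up (σ : ℝ) (hσ : 0 < σ) : ∃ N₀ : ℕ, ∀ B : ℕ → ℂ, (∀ l, ‖B l‖ ≤ 1) → ∀ N : ℕ, N₀ ≤ N →
    ‖mB B N - mB (fun l => B (l + 1)) N‖ ≤ σ := by
  obtain ⟨x₀, hx₀⟩ := Mn_up (show (0 : ℝ) < σ / 2 by positivity)
  obtain ⟨N₀, hN₀⟩ := exists_nat_ge x₀
  refine ⟨N₀, fun B hB N hN => ?_⟩
  have hx : x₀ ≤ (N : ℝ) := hN₀.trans (by exact_mod_cast hN)
  have h1 := hx₀ N hx (fun l => (B l).re) (fun l => (Complex.abs_re_le_norm _).trans (hB l))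
  have h2 := hx₀ N hx (fun l => (B l).im) (fun l => (Complex.abs_im_le_norm _).trans (hB l))
  have hdec : ∀ C : ℕ → ℂ, mB C N = ((Mn (fun l => (C l).re) N : ℝ) : ℂ) +
      Complex.I * ((Mn (fun l => (C l).im) N : ℝ) : ℂ) := by
    intro C
    rw [Mn_eq, Mn_eq, ← mB_smul, ← mB_add]
    congr 1
    funext l
    rw [mul_comm]
    exact (Complex.re_add_im (C l)).symm
  rw [hdec B, hdec (fun l => B (l + 1))]
  have e1 : ((Mn (fun l => (B l).re) N : ℝ) : ℂ) + Complex.I * ((Mn (fun l => (B l).im) N : ℝ) : ℂ) -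
      (((Mn (fun l => (B (l + 1)).re) N : ℝ) : ℂ) + Complex.I * ((Mn (fun l => (B (l + 1)).im) N : ℝ) : ℂ)) =
      ((Mn (fun l => (B l).re) N - Mn (fun l => (B (l + 1)).re) N : ℝ) : ℂ) +
        Complex.I * ((Mn (fun l => (B l).im) N - Mn (fun l => (B (l + 1)).im) N : ℝ) : ℂ) := by
    push_cast
    ring
  rw [e1]
  refine (norm_add_le _ _).trans ?_
  rw [norm_mul, Complex.norm_I, one_mul, Complex.norm_real, Complex.norm_real, Real.norm_eq_abs, Real.norm_eq_abs]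
  linarith

/-- the mean of `z ^ Ω(n)` -/
lemma zmean (δ σ : ℝ) (hδ : 0 < δ) (hσ : 0 < σ) : ∃ N₀ : ℕ, ∀ z : ℂ, ‖z‖ ≤ 1 → δ ≤ ‖z - 1‖ → ∀ N : ℕ, N₀ ≤ N →
    ‖mB (fun l => z ^ l) N‖ ≤ σ := by
  obtain ⟨N₀, h1⟩ := mB_up (σ * δ) (by positivity)
  refine ⟨N₀, fun z hz hz1 N hN => ?_⟩
  have h2 := h1 (fun l => z ^ l) (fun l => by
    rw [norm_pow]
    exact pow_le_one₀ (norm_nonneg _) hz) N hN
  have e1 : mB (fun l => z ^ (l + 1)) N = z * mB (fun l => z ^ l) N := by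
    rw [← mB_smul]
    congr 1
    funext l
    rw [pow_succ]
    ring
  have e2 : mB (fun l => z ^ l) N - mB (fun l => z ^ (l + 1)) N = -((z - 1) * mB (fun l => z ^ l) N) := by
    rw [e1]
    ring
  rw [e2, norm_neg, norm_mul] at h2
  have h3 : δ * ‖mB (fun l => z ^ l) N‖ ≤ σ * δ :=
    (mul_le_mul_of_nonneg_right hz1 (norm_nonneg _)).trans h2
  rw [mul_comm σ δ] at h3
  exact le_of_mul_le_mul_left h3 hδ

/-- bounds for all phases, for a class of functions -/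
def PB (𝓕 : (ℕ → ℂ) → Prop) (a c : ℕ) : Prop := ∀ ε : ℝ, 0 < ε → ∃ X₀ : ℕ, ∀ X : ℕ, X₀ ≤ X → ∀ f₀, 𝓕 f₀ →
  ∀ g : ℕ → ℂ, (∀ n, 1 ≤ n → ‖g n‖ ≤ 1) → (∀ m n : ℕ, 1 ≤ m → 1 ≤ n → Nat.Coprime m n → g (m * n) = g m * g n) →
    ∀ y : ℕ → ℕ, (∀ N, y N ≤ N) →
      ∃ B : ℕ → ℝ, (∀ N (α : ℝ), ‖∑ n ∈ Icc 1 (y N), f₀ (n + a) * g (n + c) * ee (α * n)‖ ≤ B N) ∧
        ∑ N ∈ Icc 1 X, B N / (N : ℝ) ^ 2 ≤ ε * Real.log X

/-- the functions `z ^ Ω(n)` -/
def Zc (δ : ℝ) (f : ℕ → ℂ) : Prop := ∃ z : ℂ, ‖z‖ ≤ 1 ∧ δ ≤ ‖z - 1‖ ∧ f = fun n => z ^ cardFactors n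

theorem PB_Zc (a c : ℕ) (hac : a ≠ c) (δ : ℝ) (hδ : 0 < δ) : PB (Zc δ) a c := by
  intro ε hε
  obtain ⟨X₁, hX₁⟩ := pair_B 1 a c hac (ε / 4) (by positivity)
  obtain ⟨N₀, hN₀⟩ := zmean δ (ε / 8) hδ (by positivity)
  obtain ⟨X₂, hX₂⟩ := Filter.eventually_atTop.1 ((Filter.tendsto_atTop.1
    (Real.tendsto_log_atTop.comp tendsto_natCast_atTop_atTop)) ((N₀ + 2) * (4 / ε) + 1))
  refine ⟨X₁ + X₂, fun X hX f₀ hf₀ g hg hm y hy => ?_⟩
  obtain ⟨z, hz, hz1, rfl⟩ := hf₀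
  have hlog : (N₀ + 2) * (4 / ε) + 1 ≤ Real.log X := hX₂ X (by omega)
  have hlog1 : 1 ≤ Real.log X := by
    have : 0 ≤ ((N₀ : ℝ) + 2) * (4 / ε) := by positivity
    linarith
  have hB : ∀ l : ℕ, ‖z ^ l‖ ≤ 1 := fun l => by
    rw [norm_pow]
    exact pow_le_one₀ (norm_nonneg _) hz
  have hbm := mB_le (fun l => z ^ l) 1 zero_le_one hB
  set F : ℕ → ℝ → ℝ := fun N α => ‖∑ n ∈ Icc 1 (y N), z ^ cardFactors (n + a) * g (n + c) * ee (α * n)‖ with hF
  have hbd : ∀ N, BddAbove (Set.range (F N)) := by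
    intro N
    refine ⟨(y N : ℝ), ?_⟩
    rintro _ ⟨α, rfl⟩
    refine (norm_sum_le _ _).trans ?_
    calc ∑ n ∈ Icc 1 (y N), ‖z ^ cardFactors (n + a) * g (n + c) * ee (α * n)‖ ≤ ∑ n ∈ Icc 1 (y N), (1 : ℝ) := by
          refine sum_le_sum fun n hn => ?_
          have h1 := (mem_Icc.1 hn).1
          rw [norm_mul, norm_mul, c_norm_ee, mul_one]
          exact mul_le_one₀ (hB _) (norm_nonneg _) (hg _ (by omega))
      _ = (y N : ℝ) := by simp
  have hex : ∀ N, ∃ α : ℝ, (⨆ β, F N β) - 1 < F N α := fun N => exists_lt_of_lt_ciSup (by linarith)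
  choose α hα using hex
  refine ⟨fun N => F N (α N) + 1, fun N β => ?_, ?_⟩
  · have h1 : F N β ≤ ⨆ β, F N β := le_ciSup (hbd N) β
    have h2 := hα N
    show F N β ≤ F N (α N) + 1
    linarith
  · have h1 := hX₁ X (by omega) (fun _ => 0) (fun _ => 1) (fun _ => by simp) g hg hm (fun l => z ^ l) hB α y hy
    have h2 : ∀ N ∈ Icc 1 X, (F N (α N) + 1) / (N : ℝ) ^ 2 ≤
        ‖Lc (fun n => 1 * g (n + c) * ee (α N * n)) a N (y N) (fun l => z ^ l)‖ / (N : ℝ) ^ 2 +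
          (1 / (N : ℝ) ^ 2 + (ε / 8 * (1 / N) + if N < N₀ then 1 else 0)) := by
      intro N hN
      have hN1 : (1 : ℝ) ≤ N := by exact_mod_cast (mem_Icc.1 hN).1
      have hN0 : (0 : ℝ) < N := by linarith
      have hyN : (y N : ℝ) ≤ N := by exact_mod_cast hy N
      have e1 : ∑ n ∈ Icc 1 (y N), z ^ cardFactors (n + a) * g (n + c) * ee (α N * n) =
          Lc (fun n => 1 * g (n + c) * ee (α N * n)) a N (y N) (fun l => z ^ l) +
            ∑ n ∈ Icc 1 (y N), g (n + c) * ee (α N * n) * mB (fun l => z ^ l) N := by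
        unfold Lc
        rw [← sum_add_distrib]
        refine sum_congr rfl fun n _ => ?_
        ring
      have e2 : ‖∑ n ∈ Icc 1 (y N), g (n + c) * ee (α N * n) * mB (fun l => z ^ l) N‖ ≤
          N * ‖mB (fun l => z ^ l) N‖ := by
        refine (norm_sum_le _ _).trans ?_
        calc ∑ n ∈ Icc 1 (y N), ‖g (n + c) * ee (α N * n) * mB (fun l => z ^ l) N‖ ≤
              ∑ n ∈ Icc 1 (y N), ‖mB (fun l => z ^ l) N‖ := by
              refine sum_le_sum fun n hn => ?_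
              have h1 := (mem_Icc.1 hn).1
              rw [norm_mul, norm_mul, c_norm_ee, mul_one]
              calc ‖g (n + c)‖ * ‖mB (fun l => z ^ l) N‖ ≤ 1 * ‖mB (fun l => z ^ l) N‖ :=
                    mul_le_mul_of_nonneg_right (hg _ (by omega)) (norm_nonneg _)
                _ = _ := one_mul _
          _ = y N * ‖mB (fun l => z ^ l) N‖ := by simp
          _ ≤ N * ‖mB (fun l => z ^ l) N‖ := mul_le_mul_of_nonneg_right hyN (norm_nonneg _)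
      have e3 : ‖mB (fun l => z ^ l) N‖ ≤ ε / 8 + if N < N₀ then 1 else 0 := by
        split_ifs with h
        · have := hbm N
          linarith
        · rw [add_zero]
          exact hN₀ z hz hz1 N (not_lt.1 h)
      have e4 : F N (α N) ≤ ‖Lc (fun n => 1 * g (n + c) * ee (α N * n)) a N (y N) (fun l => z ^ l)‖ +
          N * (ε / 8 + if N < N₀ then 1 else 0) := by
        rw [hF]
        show ‖∑ n ∈ Icc 1 (y N), z ^ cardFactors (n + a) * g (n + c) * ee (α N * n)‖ ≤ _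
        rw [e1]
        exact (norm_add_le _ _).trans (add_le_add le_rfl (e2.trans (mul_le_mul_of_nonneg_left e3 hN0.le)))
      have e5 : (if N < N₀ then (1 : ℝ) else 0) * (1 / N) ≤ if N < N₀ then 1 else 0 := by
        split_ifs
        · rw [one_mul, div_le_one hN0]
          exact hN1
        · simp
      calc (F N (α N) + 1) / (N : ℝ) ^ 2 ≤
            (‖Lc (fun n => 1 * g (n + c) * ee (α N * n)) a N (y N) (fun l => z ^ l)‖ +
              N * (ε / 8 + if N < N₀ then 1 else 0) + 1) / (N : ℝ) ^ 2 :=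
            div_le_div_of_nonneg_right (by linarith) (by positivity)
        _ = ‖Lc (fun n => 1 * g (n + c) * ee (α N * n)) a N (y N) (fun l => z ^ l)‖ / (N : ℝ) ^ 2 +
          (1 / (N : ℝ) ^ 2 + (ε / 8 * (1 / N) + (if N < N₀ then 1 else 0) * (1 / N))) := by
            field_simp
            ring
        _ ≤ _ := by linarith
    refine (sum_le_sum h2).trans ?_
    rw [sum_add_distrib, sum_add_distrib, sum_add_distrib, ← mul_sum]
    have h3 := sq_le X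
    have h4 := harm X
    have h5 : ∑ N ∈ Icc 1 X, (if N < N₀ then (1 : ℝ) else 0) ≤ N₀ := by
      rw [← sum_filter, sum_const, nsmul_eq_mul, mul_one]
      have h7 : (Icc 1 X).filter (fun n => n < N₀) ⊆ range N₀ := by
        intro n hn
        rw [mem_range]
        exact (mem_filter.1 hn).2
      have h8 := card_le_card h7
      rw [card_range] at h8
      exact_mod_cast h8
    have h6 : ε / 8 * ∑ N ∈ Icc 1 X, 1 / (N : ℝ) ≤ ε / 4 * Real.log X := by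
      calc ε / 8 * ∑ N ∈ Icc 1 X, 1 / (N : ℝ) ≤ ε / 8 * (1 + Real.log X) :=
            mul_le_mul_of_nonneg_left h4 (by positivity)
        _ ≤ ε / 8 * (2 * Real.log X) := mul_le_mul_of_nonneg_left (by linarith) (by positivity)
        _ = _ := by ring
    have h7 : (N₀ : ℝ) + 2 ≤ ε / 4 * Real.log X := by
      have e1 := mul_le_mul_of_nonneg_left hlog (by positivity : (0 : ℝ) ≤ ε / 4)
      have e2 : ε / 4 * (((N₀ : ℝ) + 2) * (4 / ε) + 1) = N₀ + 2 + ε / 4 := by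
        field_simp
      linarith
    have h9 : 0 ≤ ε * Real.log X := by positivity
    linarith

/-- periodic weights -/
theorem PB_tw (𝓕 : (ℕ → ℂ) → Prop) (a c : ℕ) (hPB : PB 𝓕 a c) (Q : ℕ) :
    PB (fun f => ∃ f₀, 𝓕 f₀ ∧ Tw f₀ Q f) a c := by
  intro ε hε
  obtain ⟨X₀, hX₀⟩ := hPB (ε / (Q + 1)) (by positivity)
  refine ⟨X₀, fun X hX f hf g hg hm y hy => ?_⟩
  obtain ⟨f₀, hf₀, q, κ, hq1, hqQ, hκ1, hκq, hfκ⟩ := hf
  obtain ⟨B, hB1, hB2⟩ := hX₀ X hX f₀ hf₀ g hg hm y hy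
  refine ⟨fun N => q * B N, fun N α => ?_, ?_⟩
  · have h1 := per_I (y N) q hq1 (fun n => f₀ (n + a) * g (n + c)) κ a hκ1 hκq (B N) (hB1 N) α
    refine le_trans (le_of_eq ?_) h1
    congr 1
    refine sum_congr rfl fun n _ => ?_
    rw [hfκ]
    ring
  · have h1 : ∑ N ∈ Icc 1 X, (q : ℝ) * B N / (N : ℝ) ^ 2 = q * ∑ N ∈ Icc 1 X, B N / (N : ℝ) ^ 2 := by
      rw [mul_sum]
      refine sum_congr rfl fun N _ => ?_
      rw [mul_div_assoc]
    rw [h1]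
    have h0 : (0 : ℝ) ≤ Real.log X := Real.log_natCast_nonneg X
    have hqQ' : (q : ℝ) ≤ Q + 1 := by
      have : (q : ℝ) ≤ Q := by exact_mod_cast hqQ
      linarith
    calc (q : ℝ) * ∑ N ∈ Icc 1 X, B N / (N : ℝ) ^ 2 ≤ q * (ε / (Q + 1) * Real.log X) :=
          mul_le_mul_of_nonneg_left hB2 (Nat.cast_nonneg q)
      _ ≤ (Q + 1) * (ε / (Q + 1) * Real.log X) := mul_le_mul_of_nonneg_right hqQ' (by positivity)
      _ = ε * Real.log X := by field_simp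

/-- **all orders**: arbitrary further factors, almost all shifts -/
theorem PB_ord (𝓕 : (ℕ → ℂ) → Prop) (a c : ℕ) (hPB : PB 𝓕 a c) (ε : ℝ) (hε : 0 < ε) :
    ∃ X₀ : ℕ, ∀ X : ℕ, X₀ ≤ X → ∀ f, 𝓕 f → ∀ g : ℕ → ℂ, (∀ n, 1 ≤ n → ‖g n‖ ≤ 1) →
      (∀ m n : ℕ, 1 ≤ m → 1 ≤ n → Nat.Coprime m n → g (m * n) = g m * g n) → ∀ G : ℕ → ℕ → ℂ,
        (∀ N n, ‖G N n‖ ≤ 1) → ∑ N ∈ Icc 1 X, (∑ s ∈ range N, ‖∑ n ∈ Icc 1 N,
          G N n * (f (n + s + a) * g (n + s + c))‖) / (N : ℝ) ^ 3 ≤ ε * Real.log X := by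
  obtain ⟨X₁, hX₁⟩ := hPB (ε / 16) (by positivity)
  refine ⟨X₁ + 2, fun X hX f hf g hg hm G hG => ?_⟩
  have hlX := log_two_mul X (by omega)
  obtain ⟨B, hB1, hB2⟩ := hX₁ (2 * X) (by omega) f hf g hg hm (fun N => N) (fun _ => le_refl _)
  have hB0 : ∀ N, 0 ≤ B N := fun N => (norm_nonneg _).trans (hB1 N 0)
  have h1 : ∀ N ∈ Icc 1 X, (∑ s ∈ range N, ‖∑ n ∈ Icc 1 N, G N n * (f (n + s + a) * g (n + s + c))‖) / (N : ℝ) ^ 3 ≤
      8 * (B (2 * N) / ((2 * N : ℕ) : ℝ) ^ 2) := by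
    intro N hN
    have hN1 := (mem_Icc.1 hN).1
    have hN0 : (0 : ℝ) < N := by exact_mod_cast hN1
    have h2 := mov N hN1 (fun m => f (m + a) * g (m + c)) (G N) (hG N) (B (2 * N)) (fun α => hB1 (2 * N) α)
    calc _ ≤ (2 * N * B (2 * N)) / (N : ℝ) ^ 3 := div_le_div_of_nonneg_right h2 (by positivity)
      _ = 8 * (B (2 * N) / ((2 * N : ℕ) : ℝ) ^ 2) := by
          push_cast
          field_simp
          ring
  refine (sum_le_sum h1).trans ?_
  rw [← mul_sum]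
  have h2 := (even_sum B hB0 X).trans hB2
  have h3 := mul_le_mul_of_nonneg_left hlX (show (0 : ℝ) ≤ ε / 16 by positivity)
  linarith

end Pool.Agent.Y842.QY
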