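import Pool.Agent.Y842.QY.SigW

/-!
Library Y842.QY (helper842), part 6: moving means, logarithmic averages in total variation, exceptional sets.
-/

set_option autoImplicit false

open Finset

namespace Pool.Agent.Y842.QY

open Pool.Agent.Y842.PG
open Pool.Agent.Y842.QG
open Pool.Agent.Helper602.MK (ee)
open Pool.Agent.Helper602.MK.N_J1c (c_ee_add c_ee_int c_norm_ee)
open Pool.Agent.Y304.U (sE ind ind_nonneg harm)
open Pool.Agent.Y958.U (LZ)
open Pool.Agent.Y842.EL (LZ_eps LZ_diag')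
open Pool.Agent.TH575.OM (Mn rl rl_B0 Mn_scale SA B0)
open ArithmeticFunction (cardFactors)

/-- the means of a complex function of `Ω` at comparable scales -/
lemma mB_scale (σ c : ℝ) (hσ : 0 < σ) (hc : 0 < c) : ∃ N₀ : ℕ, ∀ B : ℕ → ℂ, (∀ l, ‖B l‖ ≤ 1) → ∀ N n : ℕ, N₀ ≤ N →
    c * N ≤ n → n ≤ N → ‖mB B N - mB B n‖ ≤ σ := by
  obtain ⟨x₀, hx₀⟩ := Mn_scale hc (show (0 : ℝ) < σ / 2 by positivity)
  obtain ⟨N₀, hN₀⟩ := exists_nat_ge x₀
  refine ⟨N₀, fun B hB N n hN hcn hn => ?_⟩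
  have hx : x₀ ≤ (N : ℝ) := hN₀.trans (by exact_mod_cast hN)
  have h1 := hx₀ N hx n hcn (by exact_mod_cast hn) (fun l => (B l).re) (fun l => (Complex.abs_re_le_norm _).trans (hB l))
  have h2 := hx₀ N hx n hcn (by exact_mod_cast hn) (fun l => (B l).im) (fun l => (Complex.abs_im_le_norm _).trans (hB l))
  have hdec : ∀ M : ℕ, mB B M = ((Mn (fun l => (B l).re) M : ℝ) : ℂ) + Complex.I * ((Mn (fun l => (B l).im) M : ℝ) : ℂ) := by
    intro M
    rw [Mn_eq, Mn_eq, ← mB_smul, ← mB_add]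
    congr 1
    funext l
    rw [mul_comm]
    exact (Complex.re_add_im (B l)).symm
  rw [hdec N, hdec n]
  have e1 : ((Mn (fun l => (B l).re) N : ℝ) : ℂ) + Complex.I * ((Mn (fun l => (B l).im) N : ℝ) : ℂ) -
      (((Mn (fun l => (B l).re) n : ℝ) : ℂ) + Complex.I * ((Mn (fun l => (B l).im) n : ℝ) : ℂ)) =
      ((Mn (fun l => (B l).re) N - Mn (fun l => (B l).re) n : ℝ) : ℂ) +
        Complex.I * ((Mn (fun l => (B l).im) N - Mn (fun l => (B l).im) n : ℝ) : ℂ) := by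
    push_cast
    ring
  rw [e1]
  refine (norm_add_le _ _).trans ?_
  rw [norm_mul, Complex.norm_I, one_mul, Complex.norm_real, Complex.norm_real, Real.norm_eq_abs, Real.norm_eq_abs]
  linarith

/-- the average variation of the mean -/
lemma mB_var (σ : ℝ) (hσ : 0 < σ) : ∃ N₀ : ℕ, ∀ B : ℕ → ℂ, (∀ l, ‖B l‖ ≤ 1) → ∀ N : ℕ, N₀ ≤ N →
    ∑ n ∈ Icc 1 N, ‖mB B N - mB B n‖ ≤ σ * N := by
  obtain ⟨N₀, h1⟩ := mB_scale (σ / 2) (σ / 4) (by positivity) (by positivity)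
  refine ⟨N₀, fun B hB N hN => ?_⟩
  have hb := mB_le B 1 zero_le_one hB
  have h2 : ∀ n ∈ Icc 1 N, ‖mB B N - mB B n‖ ≤ σ / 2 + if (n : ℝ) < σ / 4 * N then 2 else 0 := by
    intro n hn
    split_ifs with h
    · have h3 := norm_sub_le (mB B N) (mB B n)
      have h4 := hb N
      have h5 := hb n
      linarith
    · rw [add_zero]
      exact h1 B hB N n hN (not_lt.1 h) (mem_Icc.1 hn).2
  refine (sum_le_sum h2).trans ?_
  rw [sum_add_distrib, sum_const, Nat.card_Icc, nsmul_eq_mul, Nat.add_sub_cancel, ← sum_filter, sum_const, nsmul_eq_mul]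
  have h3 : (((Icc 1 N).filter (fun n : ℕ => (n : ℝ) < σ / 4 * N)).card : ℝ) ≤ σ / 4 * N := by
    have h4 : (Icc 1 N).filter (fun n : ℕ => (n : ℝ) < σ / 4 * N) ⊆ Icc 1 ⌊σ / 4 * N⌋₊ := by
      intro n hn
      rw [mem_filter, mem_Icc] at hn
      rw [mem_Icc]
      exact ⟨hn.1.1, Nat.le_floor hn.2.le⟩
    have h5 := card_le_card h4
    rw [Nat.card_Icc, Nat.add_sub_cancel] at h5
    have h6 : (⌊σ / 4 * (N : ℝ)⌋₊ : ℝ) ≤ σ / 4 * N := Nat.floor_le (by positivity)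
    refine le_trans ?_ h6
    exact_mod_cast h5
  linarith

/-- the moving mean: sum up to `N` -/
lemma mov_le (w : ℕ → ℂ) (hw : ∀ n, 1 ≤ n → ‖w n‖ ≤ 1) (a N : ℕ) (B : ℕ → ℂ) :
    ‖∑ n ∈ Icc 1 N, w n * (B (cardFactors (n + a)) - mB B n)‖ ≤ ‖Lc w a N N B‖ + ∑ n ∈ Icc 1 N, ‖mB B N - mB B n‖ := by
  have e1 : ∑ n ∈ Icc 1 N, w n * (B (cardFactors (n + a)) - mB B n) =
      Lc w a N N B + ∑ n ∈ Icc 1 N, w n * (mB B N - mB B n) := by
    unfold Lc
    rw [← sum_add_distrib]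
    refine sum_congr rfl fun n _ => ?_
    ring
  rw [e1]
  refine (norm_add_le _ _).trans (add_le_add le_rfl ((norm_sum_le _ _).trans (sum_le_sum fun n hn => ?_)))
  rw [norm_mul]
  calc ‖w n‖ * ‖mB B N - mB B n‖ ≤ 1 * ‖mB B N - mB B n‖ :=
        mul_le_mul_of_nonneg_right (hw n (mem_Icc.1 hn).1) (norm_nonneg _)
    _ = _ := one_mul _

/-- **total variation** in the signature, logarithmic averages -/
theorem tvW (kc : ℕ) (a c : ℕ) (hac : a ≠ c) (ε : ℝ) (hε : 0 < ε) :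
    ∃ X₀ : ℕ, ∀ X : ℕ, X₀ ≤ X → ∀ χ : ℕ → Fin kc, ∀ g : ℕ → ℂ, (∀ n, 1 ≤ n → ‖g n‖ ≤ 1) →
      (∀ m n : ℕ, 1 ≤ m → 1 ≤ n → Nat.Coprime m n → g (m * n) = g m * g n) → ∀ B : ℕ → ℂ, (∀ l, ‖B l‖ ≤ 1) → ∀ α : ℝ,
        ∑ s ∈ (Icc 1 X).image (fun n => csg χ (n + c)),
          ‖∑ n ∈ (Icc 1 X).filter (fun n => csg χ (n + c) = s),
            g (n + c) * (B (cardFactors (n + a)) - mB B n) * ee (α * n) / n‖ ≤ ε * Real.log X := by
  classical
  obtain ⟨X₁, h1⟩ := pair_B kc a c hac (ε / 4) (by positivity)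
  obtain ⟨N₀, hvar⟩ := mB_var (ε / 8) (by positivity)
  obtain ⟨X₂, hX₂⟩ := Filter.eventually_atTop.1 ((Filter.tendsto_atTop.1
    (Real.tendsto_log_atTop.comp tendsto_natCast_atTop_atTop)) ((2 * N₀ + 2) * (4 / ε) + 1))
  refine ⟨X₁ + X₂, fun X hX χ g hg hm B hB α => ?_⟩
  have hlog : (2 * N₀ + 2) * (4 / ε) + 1 ≤ Real.log X := hX₂ X (by omega)
  have hlog1 : 1 ≤ Real.log X := by
    have : 0 ≤ (2 * (N₀ : ℝ) + 2) * (4 / ε) := by positivity
    linarith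
  set W : Multiset (Fin kc × ℕ) → ℂ := fun s => ∑ n ∈ (Icc 1 X).filter (fun n => csg χ (n + c) = s),
    g (n + c) * (B (cardFactors (n + a)) - mB B n) * ee (α * n) / n with hW
  have hph : ∀ s, ∃ A : ℂ, ‖A‖ ≤ 1 ∧ A * W s = ((‖W s‖ : ℝ) : ℂ) := fun s => Pool.Agent.TH823.MRS.phase (W s)
  choose A hA1 hA2 using hph
  set w : ℕ → ℂ := fun n => A (csg χ (n + c)) * g (n + c) * ee (α * n) with hwd
  have hw : ∀ n, 1 ≤ n → ‖w n‖ ≤ 1 := by
    intro n hn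
    rw [hwd]
    show ‖A (csg χ (n + c)) * g (n + c) * ee (α * n)‖ ≤ 1
    rw [norm_mul, norm_mul, c_norm_ee, mul_one]
    exact mul_le_one₀ (hA1 _) (norm_nonneg _) (hg _ (by omega))
  have hbm := mB_le B 1 zero_le_one hB
  set b : ℕ → ℂ := fun n => w n * (B (cardFactors (n + a)) - mB B n) / 2 with hbd
  have hb1 : ∀ n, 1 ≤ n → ‖b n‖ ≤ 1 := by
    intro n hn
    rw [hbd]
    show ‖w n * (B (cardFactors (n + a)) - mB B n) / 2‖ ≤ 1
    rw [norm_div, norm_mul, Complex.norm_two, div_le_one two_pos]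
    have h2 := norm_sub_le (B (cardFactors (n + a))) (mB B n)
    have h3 := hbm n
    have h4 := hB (cardFactors (n + a))
    calc ‖w n‖ * ‖B (cardFactors (n + a)) - mB B n‖ ≤ 1 * 2 :=
          mul_le_mul (hw n hn) (by linarith) (norm_nonneg _) zero_le_one
      _ = 2 := one_mul _
  have h2 := h1 X (by omega) χ A hA1 g hg hm B hB (fun _ => α) (fun N => N) (fun _ => le_rfl)
  have h3 := parts_le b hb1 X
  have h4 : ∑ n ∈ Icc 1 X, b n / n = ((1 / 2 * ∑ s ∈ (Icc 1 X).image (fun n => csg χ (n + c)), ‖W s‖ : ℝ) : ℂ) := by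
    have e1 : ∑ n ∈ Icc 1 X, b n / n = ∑ s ∈ (Icc 1 X).image (fun n => csg χ (n + c)),
        ∑ n ∈ (Icc 1 X).filter (fun n => csg χ (n + c) = s), b n / n :=
      (sum_fiberwise_of_maps_to (fun n hn => mem_image_of_mem _ hn) _).symm
    rw [e1, mul_sum, Complex.ofReal_sum]
    refine sum_congr rfl fun s _ => ?_
    rw [Complex.ofReal_mul, ← hA2 s, hW]
    simp only
    rw [mul_sum, mul_sum]
    refine sum_congr rfl fun n hn => ?_
    rw [← (mem_filter.1 hn).2, hbd, hwd]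
    push_cast
    ring
  rw [h4, Complex.norm_real, Real.norm_of_nonneg (mul_nonneg (by norm_num) (sum_nonneg fun _ _ => norm_nonneg _))] at h3
  have h5 : ∀ N ∈ Icc 1 X, ‖∑ n ∈ Icc 1 N, b n‖ / (N : ℝ) ^ 2 ≤
      1 / 2 * (‖Lc w a N N B‖ / (N : ℝ) ^ 2) + (ε / 16 * (1 / N) + if N < N₀ then 1 else 0) := by
    intro N hN
    have hN1 : (1 : ℝ) ≤ N := by exact_mod_cast (mem_Icc.1 hN).1
    have hN0 : (0 : ℝ) < N := by linarith
    have e1 : ∑ n ∈ Icc 1 N, b n = 1 / 2 * ∑ n ∈ Icc 1 N, w n * (B (cardFactors (n + a)) - mB B n) := by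
      rw [hbd, mul_sum]
      refine sum_congr rfl fun n _ => ?_
      ring
    have e2 : ‖∑ n ∈ Icc 1 N, b n‖ ≤ 1 / 2 * (‖Lc w a N N B‖ + ∑ n ∈ Icc 1 N, ‖mB B N - mB B n‖) := by
      rw [e1, norm_mul]
      have : ‖(1 / 2 : ℂ)‖ = 1 / 2 := by norm_num
      rw [this]
      exact mul_le_mul_of_nonneg_left (mov_le w hw a N B) (by norm_num)
    have e3 : ∑ n ∈ Icc 1 N, ‖mB B N - mB B n‖ ≤ ε / 8 * N + if N < N₀ then 2 * (N : ℝ) else 0 := by
      split_ifs with h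
      · have e4 : ∀ n ∈ Icc 1 N, ‖mB B N - mB B n‖ ≤ 2 := by
          intro n _
          have h3 := norm_sub_le (mB B N) (mB B n)
          have h4 := hbm N
          have h5 := hbm n
          linarith
        have e5 := sum_le_sum e4
        rw [sum_const, Nat.card_Icc, nsmul_eq_mul, Nat.add_sub_cancel] at e5
        have : 0 ≤ ε / 8 * (N : ℝ) := by positivity
        linarith
      · rw [add_zero]
        exact hvar B hB N (not_lt.1 h)
    rw [div_le_iff₀ (by positivity)]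
    have e6 : (1 / 2 * (‖Lc w a N N B‖ / (N : ℝ) ^ 2) + (ε / 16 * (1 / N) + if N < N₀ then 1 else 0)) * (N : ℝ) ^ 2 =
        1 / 2 * ‖Lc w a N N B‖ + ε / 16 * N + (if N < N₀ then 1 else 0) * (N : ℝ) ^ 2 := by
      field_simp
      ring
    rw [e6]
    have e7 : 1 / 2 * (if N < N₀ then 2 * (N : ℝ) else 0) ≤ (if N < N₀ then 1 else 0) * (N : ℝ) ^ 2 := by
      split_ifs
      · nlinarith
      · simp
    linarith
  have h6 : ∑ N ∈ Icc 1 X, ‖∑ n ∈ Icc 1 N, b n‖ / (N : ℝ) ^ 2 ≤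
      1 / 2 * (ε / 4 * Real.log X) + (ε / 16 * (1 + Real.log X) + N₀) := by
    refine (sum_le_sum h5).trans ?_
    rw [sum_add_distrib, sum_add_distrib, ← mul_sum, ← mul_sum]
    apply add_le_add
    · exact mul_le_mul_of_nonneg_left h2 (by norm_num)
    · apply add_le_add
      · exact mul_le_mul_of_nonneg_left (harm X) (by positivity)
      · rw [← sum_filter, sum_const, nsmul_eq_mul, mul_one]
        have h7 : (Icc 1 X).filter (fun n => n < N₀) ⊆ range N₀ := by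
          intro n hn
          rw [mem_range]
          exact (mem_filter.1 hn).2
        have h8 := card_le_card h7
        rw [card_range] at h8
        exact_mod_cast h8
  have h7 : 2 * (N₀ : ℝ) + 2 ≤ ε / 4 * Real.log X := by
    have e1 := mul_le_mul_of_nonneg_left hlog (by positivity : (0 : ℝ) ≤ ε / 4)
    have e2 : ε / 4 * ((2 * (N₀ : ℝ) + 2) * (4 / ε) + 1) = 2 * N₀ + 2 + ε / 4 := by
      field_simp
    linarith
  have h8 : ε / 16 * (1 + Real.log X) ≤ ε / 8 * Real.log X := by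
    have : ε / 16 * 1 ≤ ε / 16 * Real.log X := mul_le_mul_of_nonneg_left hlog1 (by positivity)
    linarith
  have h9 : 0 < ε * Real.log X := by positivity
  linarith

/-- **one exceptional set** for given functions -/
theorem excW {kc : ℕ} (χ : ℕ → Fin kc) (A : Multiset (Fin kc × ℕ) → ℂ) (hA : ∀ s, ‖A s‖ ≤ 1) (g : ℕ → ℂ) (hg : ∀ n, 1 ≤ n → ‖g n‖ ≤ 1)
    (hm : ∀ m n : ℕ, 1 ≤ m → 1 ≤ n → Nat.Coprime m n → g (m * n) = g m * g n) (B : ℕ → ℂ) (hB : ∀ l, ‖B l‖ ≤ 1) :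
    ∃ E : Set ℕ, LZ E ∧ ∀ a c : ℕ, a ≠ c → ∀ ε : ℝ, 0 < ε → ∃ N₀ : ℕ, ∀ N : ℕ, N₀ ≤ N → N ∉ E →
      ∀ (α : ℝ) (y : ℕ), y ≤ N → ‖Lc (fun n => A (csg χ (n + c)) * g (n + c) * ee (α * n)) a N y B‖ ≤ ε * N := by
  classical
  obtain ⟨F, hF, h1⟩ := LZ_diag' (ι := ℕ × ℕ × ℕ)
    (fun t => {N : ℕ | t.1 ≠ t.2.1 ∧ ∃ (α : ℝ) (y : ℕ), y ≤ N ∧ 1 / ((t.2.2 : ℝ) + 1) * N <
      ‖Lc (fun n => A (csg χ (n + t.2.1)) * g (n + t.2.1) * ee (α * n)) t.1 N y B‖}) (by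
    rintro ⟨a, c, j⟩
    rw [LZ_eps]
    intro ε hε
    by_cases hac : a ≠ c
    swap
    · refine ⟨0, fun X _ => ?_⟩
      have e : {N : ℕ | a ≠ c ∧ ∃ (α : ℝ) (y : ℕ), y ≤ N ∧ 1 / ((j : ℝ) + 1) * N <
          ‖Lc (fun n => A (csg χ (n + c)) * g (n + c) * ee (α * n)) a N y B‖} = ∅ := by
        ext N
        simp [hac]
      show sE {N : ℕ | a ≠ c ∧ ∃ (α : ℝ) (y : ℕ), y ≤ N ∧ 1 / ((j : ℝ) + 1) * N <
          ‖Lc (fun n => A (csg χ (n + c)) * g (n + c) * ee (α * n)) a N y B‖} X ≤ _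
      rw [e]
      unfold sE ind
      simp only [Set.mem_empty_iff_false, if_false, zero_div, sum_const_zero]
      exact mul_nonneg hε.le (Real.log_natCast_nonneg _)
    have hj0 : (0 : ℝ) < (j : ℝ) + 1 := by positivity
    obtain ⟨X₀, h2⟩ := pair_B kc a c hac (ε / (j + 1)) (by positivity)
    refine ⟨X₀, fun X hX => ?_⟩
    set T : Set ℕ := {N : ℕ | a ≠ c ∧ ∃ (α : ℝ) (y : ℕ), y ≤ N ∧ 1 / ((j : ℝ) + 1) * N <
          ‖Lc (fun n => A (csg χ (n + c)) * g (n + c) * ee (α * n)) a N y B‖} with hT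
    have hex : ∀ N : ℕ, ∃ (α : ℝ) (y : ℕ), y ≤ N ∧ (N ∈ T → 1 / ((j : ℝ) + 1) * N <
          ‖Lc (fun n => A (csg χ (n + c)) * g (n + c) * ee (α * n)) a N y B‖) := by
      intro N
      by_cases hN : N ∈ T
      · obtain ⟨-, α, y, hy, h3⟩ := hN
        exact ⟨α, y, hy, fun _ => h3⟩
      · exact ⟨0, 0, Nat.zero_le _, fun h3 => (hN h3).elim⟩
    choose α y hy h3 using hex
    have h4 := h2 X hX χ A hA g hg hm B hB α y hy
    have h5 : 1 / ((j : ℝ) + 1) * sE T X ≤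
        ∑ N ∈ Icc 1 X, ‖Lc (fun n => A (csg χ (n + c)) * g (n + c) * ee (α N * n)) a N (y N) B‖ / (N : ℝ) ^ 2 := by
      unfold sE
      rw [mul_sum]
      refine sum_le_sum fun N hN => ?_
      have hN0 : (0 : ℝ) < N := by exact_mod_cast (mem_Icc.1 hN).1
      unfold ind
      split_ifs with h6
      · rw [le_div_iff₀ (by positivity)]
        calc 1 / ((j : ℝ) + 1) * (1 / N) * (N : ℝ) ^ 2 = 1 / ((j : ℝ) + 1) * N := by field_simp
          _ ≤ _ := (h3 N h6).le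
      · rw [zero_div, mul_zero]
        positivity
    have h6 : 1 / ((j : ℝ) + 1) * sE T X ≤ ε / (j + 1) * Real.log X := h5.trans h4
    have h7 := mul_le_mul_of_nonneg_left h6 hj0.le
    have e1 : ((j : ℝ) + 1) * (1 / ((j : ℝ) + 1) * sE T X) = sE T X := by field_simp
    have e2 : ((j : ℝ) + 1) * (ε / (j + 1) * Real.log X) = ε * Real.log X := by field_simp
    rw [e1, e2] at h7
    exact h7)
  refine ⟨F, hF, fun a c hac ε hε => ?_⟩
  obtain ⟨j, hj⟩ := exists_nat_gt (1 / ε)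
  obtain ⟨N₀, h2⟩ := h1 (a, c, j)
  refine ⟨N₀, fun N hN hNF α y hy => ?_⟩
  by_contra hcon
  rw [not_le] at hcon
  apply hNF
  apply h2 N hN
  rw [Set.mem_ofPred_eq]
  refine ⟨hac, α, y, hy, lt_of_le_of_lt ?_ hcon⟩
  apply mul_le_mul_of_nonneg_right _ (Nat.cast_nonneg N)
  show 1 / ((j : ℝ) + 1) ≤ ε
  rw [div_le_iff₀ (by positivity)]
  rw [div_lt_iff₀ hε] at hj
  nlinarith

end Pool.Agent.Y842.QY
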