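import Pool.Agent.Y842.QY.FinW
import Pool.Agent.Y842.PG.Ell

/-!
Library Y842.QY (helper842), part 7: pairs with a fixed gap at moving shifts, arbitrary side information.
-/

set_option autoImplicit false

open Finset

namespace Pool.Agent.Y842.QY

open Pool.Agent.Y842.PG
open Pool.Agent.Y842.QG
open Pool.Agent.Y842.PH (shifts)
open Pool.Agent.Helper602.MK (ee)
open Pool.Agent.Helper602.MK.N_J1c (c_ee_add c_ee_int c_norm_ee)
open Pool.Agent.Y304.U (harm)
open ArithmeticFunction (cardFactors)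

lemma csg_om (χ : ℕ → Fin 1) (n : ℕ) : ((csg χ n).map Prod.snd).sum = cardFactors n := by
  rw [ArithmeticFunction.cardFactors_eq_sum_factorization]
  unfold csg
  rw [Multiset.map_map]
  rfl

/-- functions of `Ω`, all phases -/
theorem pair_om (a c : ℕ) (hac : a ≠ c) (ε : ℝ) (hε : 0 < ε) :
    ∃ X₀ : ℕ, ∀ X : ℕ, X₀ ≤ X → ∀ A B : ℕ → ℂ, (∀ l, ‖A l‖ ≤ 1) → (∀ l, ‖B l‖ ≤ 1) →
      ∃ U : ℕ → ℝ, (∀ N (α : ℝ), ‖∑ n ∈ Icc 1 N, A (cardFactors (n + c)) *
          (B (cardFactors (n + a)) - mB B N) * ee (α * n)‖ ≤ U N) ∧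
        ∑ N ∈ Icc 1 X, U N / (N : ℝ) ^ 2 ≤ ε * Real.log X := by
  obtain ⟨X₁, hX₁⟩ := pair_B 1 a c hac (ε / 2) (by positivity)
  obtain ⟨X₂, hX₂⟩ := Filter.eventually_atTop.1 ((Filter.tendsto_atTop.1
    (Real.tendsto_log_atTop.comp tendsto_natCast_atTop_atTop)) (4 / ε))
  refine ⟨X₁ + X₂, fun X hX A B hA hB => ?_⟩
  have hlog : 4 / ε ≤ Real.log X := hX₂ X (by omega)
  have hbm := mB_le B 1 zero_le_one hB
  set F : ℕ → ℝ → ℝ := fun N α => ‖∑ n ∈ Icc 1 N, A (cardFactors (n + c)) *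
          (B (cardFactors (n + a)) - mB B N) * ee (α * n)‖ with hF
  have hbd : ∀ N, BddAbove (Set.range (F N)) := by
    intro N
    refine ⟨(N : ℝ) * 2, ?_⟩
    rintro _ ⟨α, rfl⟩
    refine (norm_sum_le _ _).trans ?_
    calc ∑ n ∈ Icc 1 N, ‖A (cardFactors (n + c)) * (B (cardFactors (n + a)) - mB B N) * ee (α * n)‖ ≤
          ∑ n ∈ Icc 1 N, (2 : ℝ) := by
          refine sum_le_sum fun n _ => ?_
          rw [norm_mul, norm_mul, c_norm_ee, mul_one]
          have h2 := norm_sub_le (B (cardFactors (n + a))) (mB B N)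
          have h3 := hbm N
          have h4 := hB (cardFactors (n + a))
          calc ‖A (cardFactors (n + c))‖ * ‖B (cardFactors (n + a)) - mB B N‖ ≤ 1 * 2 :=
                mul_le_mul (hA _) (by linarith) (norm_nonneg _) zero_le_one
            _ = 2 := one_mul _
      _ = (N : ℝ) * 2 := by simp
  have hex : ∀ N, ∃ α : ℝ, (⨆ β, F N β) - 1 < F N α := fun N => exists_lt_of_lt_ciSup (by linarith)
  choose α hα using hex
  refine ⟨fun N => F N (α N) + 1, fun N β => ?_, ?_⟩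
  · have h1 : F N β ≤ ⨆ β, F N β := le_ciSup (hbd N) β
    have h2 := hα N
    show F N β ≤ F N (α N) + 1
    linarith
  · have h1 := hX₁ X (by omega) (fun _ => 0) (fun s => A ((s.map Prod.snd).sum)) (fun s => hA _) (fun _ => 1)
      (fun n _ => by simp) (fun m n _ _ _ => by simp) B hB α (fun N => N) (fun _ => le_rfl)
    have h2 : ∀ N ∈ Icc 1 X, (F N (α N) + 1) / (N : ℝ) ^ 2 =
        ‖Lc (fun n => A (((csg (fun _ => (0 : Fin 1)) (n + c)).map Prod.snd).sum) * 1 * ee (α N * n)) a N N B‖ /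
          (N : ℝ) ^ 2 + 1 / (N : ℝ) ^ 2 := by
      intro N _
      rw [add_div]
      congr 2
      rw [hF]
      unfold Lc
      show ‖∑ n ∈ Icc 1 N, A (cardFactors (n + c)) * (B (cardFactors (n + a)) - mB B N) * ee (α N * n)‖ = _
      congr 1
      refine sum_congr rfl fun n hn => ?_
      show A (cardFactors (n + c)) * (B (cardFactors (n + a)) - mB B N) * ee (α N * n) =
        A (((csg (fun _ => (0 : Fin 1)) (n + c)).map Prod.snd).sum) * 1 * ee (α N * n) *
          (B (cardFactors (n + a)) - mB B N)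
      rw [csg_om]
      ring
    rw [sum_congr rfl h2, sum_add_distrib]
    have h3 := sq_le X
    have h4 : 2 ≤ ε / 2 * Real.log X := by
      calc (2 : ℝ) = ε / 2 * (4 / ε) := by field_simp; norm_num
        _ ≤ ε / 2 * Real.log X := mul_le_mul_of_nonneg_left hlog (by positivity)
    linarith

/-- moving one function with small sums -/
lemma mov (N : ℕ) (hN : 1 ≤ N) (P F : ℕ → ℂ) (hF : ∀ n, ‖F n‖ ≤ 1) (S : ℝ)
    (hS : ∀ α : ℝ, ‖∑ m ∈ Icc 1 (2 * N), P m * ee (α * m)‖ ≤ S) :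
    ∑ s ∈ range N, ‖∑ n ∈ Icc 1 N, F n * P (n + s)‖ ≤ 2 * N * S := by
  have hS0 : 0 ≤ S := (norm_nonneg _).trans (hS 0)
  have h2 := shifts (2 * N + 1) (N + 1) (N + 1) (by omega) (by omega) (by omega) (fun m => if m = 0 then 0 else P m)
    (fun n => if n = 0 then 0 else F n) S (fun β => by
      have e2 := sum_shift (fun m => (if m = 0 then 0 else P m) * ee (β * m)) (2 * N)
      rw [sum_range_succ]
      have e3 : (if (0 : ℕ) = 0 then (0 : ℂ) else P 0) = 0 := if_pos rfl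
      have e4 : ∑ n ∈ Icc 1 (2 * N), (if n = 0 then 0 else P n) * ee (β * n) =
          ∑ n ∈ Icc 1 (2 * N), P n * ee (β * n) := by
        refine sum_congr rfl fun n hn => ?_
        have h3 := (mem_Icc.1 hn).1
        rw [if_neg (by omega)]
      beta_reduce at e2
      rw [e4, e3, zero_mul, sub_zero] at e2
      rw [← e2]
      exact hS β)
  have h3 : ∑ s ∈ range N, ‖∑ n ∈ Icc 1 N, F n * P (n + s)‖ ≤
      ∑ s ∈ range (N + 1), ‖∑ n ∈ range (N + 1), (if n = 0 then 0 else F n) * (if n + s = 0 then 0 else P (n + s))‖ := by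
    have e0 : range N ⊆ range (N + 1) := range_subset_range.2 (Nat.le_succ N)
    refine le_trans (le_of_eq ?_) (sum_le_sum_of_subset_of_nonneg e0 fun _ _ _ => norm_nonneg _)
    refine sum_congr rfl fun s hs => ?_
    congr 1
    have e1 := sum_shift (fun n => (if n = 0 then 0 else F n) * (if n + s = 0 then 0 else P (n + s))) N
    rw [sum_range_succ]
    have e2 : (if (0 : ℕ) = 0 then (0 : ℂ) else F 0) * (if 0 + s = 0 then 0 else P (0 + s)) = 0 := by
      rw [if_pos rfl, zero_mul]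
    beta_reduce at e1
    rw [e2, sub_zero] at e1
    rw [← e1]
    refine sum_congr rfl fun n hn => ?_
    have hn1 := (mem_Icc.1 hn).1
    rw [if_neg (by omega), if_neg (by omega)]
  have h4 : Real.sqrt (∑ n ∈ range (N + 1), ‖(if n = 0 then 0 else F n)‖ ^ 2) ≤ Real.sqrt ((N + 1 : ℕ) : ℝ) := by
    apply Real.sqrt_le_sqrt
    calc ∑ n ∈ range (N + 1), ‖(if n = 0 then 0 else F n)‖ ^ 2 ≤ ∑ n ∈ range (N + 1), (1 : ℝ) := by
          refine sum_le_sum fun n _ => ?_
          apply pow_le_one₀ (norm_nonneg _)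
          split_ifs
          · simp
          · exact hF n
      _ = ((N + 1 : ℕ) : ℝ) := by simp
  have h5 : Real.sqrt (∑ n ∈ range (N + 1), ‖(if n = 0 then 0 else F n)‖ ^ 2) * Real.sqrt ((N + 1 : ℕ) : ℝ) ≤
      2 * N := by
    calc _ ≤ Real.sqrt ((N + 1 : ℕ) : ℝ) * Real.sqrt ((N + 1 : ℕ) : ℝ) :=
          mul_le_mul_of_nonneg_right h4 (Real.sqrt_nonneg _)
      _ = ((N + 1 : ℕ) : ℝ) := Real.mul_self_sqrt (Nat.cast_nonneg _)
      _ ≤ 2 * N := by
          push_cast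
          have : (1 : ℝ) ≤ N := by exact_mod_cast hN
          linarith
  refine (h3.trans h2).trans ((mul_le_mul_of_nonneg_left h5 hS0).trans (le_of_eq ?_))
  ring

/-- sums over even integers -/
lemma even_sum (U : ℕ → ℝ) (hU : ∀ N, 0 ≤ U N) (X : ℕ) :
    ∑ N ∈ Icc 1 X, U (2 * N) / ((2 * N : ℕ) : ℝ) ^ 2 ≤ ∑ M ∈ Icc 1 (2 * X), U M / (M : ℝ) ^ 2 := by
  have e1 : ∑ N ∈ Icc 1 X, U (2 * N) / ((2 * N : ℕ) : ℝ) ^ 2 =
      ∑ M ∈ (Icc 1 X).image (fun N => 2 * N), U M / (M : ℝ) ^ 2 := by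
    rw [sum_image]
    intro x _ y _ hxy
    have : 2 * x = 2 * y := hxy
    omega
  rw [e1]
  apply sum_le_sum_of_subset_of_nonneg
  · intro M hM
    rw [mem_image] at hM
    obtain ⟨N, hN, rfl⟩ := hM
    rw [mem_Icc] at hN ⊢
    omega
  · intro M _ _
    exact div_nonneg (hU M) (by positivity)

/-- **one cluster**, uniformly in the side information -/
theorem one_cl (a c : ℕ) (hac : a ≠ c) (ε : ℝ) (hε : 0 < ε) :
    ∃ X₀ : ℕ, ∀ X : ℕ, X₀ ≤ X → ∀ A B : ℕ → ℂ, (∀ l, ‖A l‖ ≤ 1) → (∀ l, ‖B l‖ ≤ 1) →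
      ∃ V : ℕ → ℝ, (∀ N, 1 ≤ N → ∀ F : ℕ → ℂ, (∀ n, ‖F n‖ ≤ 1) → ∑ s ∈ range N, ‖∑ n ∈ Icc 1 N,
          F n * (A (cardFactors (n + s + c)) * B (cardFactors (n + s + a)) - mB A N * mB B N)‖ ≤ V N) ∧
        ∑ N ∈ Icc 1 X, V N / (N : ℝ) ^ 3 ≤ ε * Real.log X := by
  obtain ⟨X₁, hX₁⟩ := pair_om a c hac (ε / 128) (by positivity)
  obtain ⟨X₂, hX₂⟩ := pair_om c (c + 1) (by omega) (ε / 128) (by positivity)
  obtain ⟨N₀, hN₀⟩ := mB_scale (ε / 16) (1 / 2) (by positivity) (by norm_num)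
  obtain ⟨X₃, hX₃⟩ := Filter.eventually_atTop.1 ((Filter.tendsto_atTop.1
    (Real.tendsto_log_atTop.comp tendsto_natCast_atTop_atTop)) (4 * N₀ * (4 / ε) + 1))
  refine ⟨X₁ + X₂ + X₃ + 2, fun X hX A B hA hB => ?_⟩
  have hlog : 4 * N₀ * (4 / ε) + 1 ≤ Real.log X := hX₃ X (by omega)
  have hlog1 : 1 ≤ Real.log X := by
    have : 0 ≤ 4 * (N₀ : ℝ) * (4 / ε) := by positivity
    linarith
  have hlX := log_two_mul X (by omega)
  obtain ⟨U1, hU1, hU1s⟩ := hX₁ (2 * X) (by omega) A B hA hB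
  obtain ⟨U2, hU2, hU2s⟩ := hX₂ (2 * X) (by omega) (fun _ => 1) A (fun _ => by simp) hA
  have hU10 : ∀ N, 0 ≤ U1 N := fun N => (norm_nonneg _).trans (hU1 N 0)
  have hU20 : ∀ N, 0 ≤ U2 N := fun N => (norm_nonneg _).trans (hU2 N 0)
  have hAm := mB_le A 1 zero_le_one hA
  have hBm := mB_le B 1 zero_le_one hB
  refine ⟨fun N => 2 * N * U1 (2 * N) + 2 * N * U2 (2 * N) +
    (N : ℝ) ^ 2 * (‖mB B (2 * N) - mB B N‖ + ‖mB A (2 * N) - mB A N‖), fun N hN F hF => ?_, ?_⟩
  · have g1 := mov N hN (fun m => A (cardFactors (m + c)) * (B (cardFactors (m + a)) - mB B (2 * N))) F hF _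
      (fun α => hU1 (2 * N) α)
    have g2 := mov N hN (fun m => A (cardFactors (m + c)) - mB A (2 * N)) F hF (U2 (2 * N)) (fun α => by
      have h := hU2 (2 * N) α
      simp only [one_mul] at h
      exact h)
    have g3 : ∀ s ∈ range N, ‖∑ n ∈ Icc 1 N,
          F n * (A (cardFactors (n + s + c)) * B (cardFactors (n + s + a)) - mB A N * mB B N)‖ ≤
        ‖∑ n ∈ Icc 1 N, F n * (A (cardFactors (n + s + c)) * (B (cardFactors (n + s + a)) - mB B (2 * N)))‖ +
        ‖∑ n ∈ Icc 1 N, F n * (A (cardFactors (n + s + c)) - mB A (2 * N))‖ +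
        (N : ℝ) * (‖mB B (2 * N) - mB B N‖ + ‖mB A (2 * N) - mB A N‖) := by
      intro s _
      have e1 : ∑ n ∈ Icc 1 N, F n * (A (cardFactors (n + s + c)) * B (cardFactors (n + s + a)) - mB A N * mB B N) =
          ∑ n ∈ Icc 1 N, F n * (A (cardFactors (n + s + c)) * (B (cardFactors (n + s + a)) - mB B (2 * N))) +
          mB B N * ∑ n ∈ Icc 1 N, F n * (A (cardFactors (n + s + c)) - mB A (2 * N)) +
          ∑ n ∈ Icc 1 N, (F n * A (cardFactors (n + s + c)) * (mB B (2 * N) - mB B N) +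
            F n * mB B N * (mB A (2 * N) - mB A N)) := by
        rw [mul_sum, ← sum_add_distrib, ← sum_add_distrib]
        refine sum_congr rfl fun n _ => ?_
        ring
      rw [e1]
      refine (norm_add_le _ _).trans (add_le_add ((norm_add_le _ _).trans (add_le_add le_rfl ?_)) ?_)
      · rw [norm_mul]
        calc ‖mB B N‖ * ‖∑ n ∈ Icc 1 N, F n * (A (cardFactors (n + s + c)) - mB A (2 * N))‖ ≤
              1 * ‖∑ n ∈ Icc 1 N, F n * (A (cardFactors (n + s + c)) - mB A (2 * N))‖ :=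
              mul_le_mul_of_nonneg_right (hBm N) (norm_nonneg _)
          _ = _ := one_mul _
      · refine (norm_sum_le _ _).trans ?_
        have e2 : ∀ n ∈ Icc 1 N, ‖F n * A (cardFactors (n + s + c)) * (mB B (2 * N) - mB B N) +
            F n * mB B N * (mB A (2 * N) - mB A N)‖ ≤ ‖mB B (2 * N) - mB B N‖ + ‖mB A (2 * N) - mB A N‖ := by
          intro n _
          refine (norm_add_le _ _).trans (add_le_add ?_ ?_)
          · rw [norm_mul, norm_mul]
            calc ‖F n‖ * ‖A (cardFactors (n + s + c))‖ * ‖mB B (2 * N) - mB B N‖ ≤ 1 * ‖mB B (2 * N) - mB B N‖ :=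
                  mul_le_mul_of_nonneg_right (mul_le_one₀ (hF n) (norm_nonneg _) (hA _)) (norm_nonneg _)
              _ = _ := one_mul _
          · rw [norm_mul, norm_mul]
            calc ‖F n‖ * ‖mB B N‖ * ‖mB A (2 * N) - mB A N‖ ≤ 1 * ‖mB A (2 * N) - mB A N‖ :=
                  mul_le_mul_of_nonneg_right (mul_le_one₀ (hF n) (norm_nonneg _) (hBm _)) (norm_nonneg _)
              _ = _ := one_mul _
        refine (sum_le_sum e2).trans (le_of_eq ?_)
        rw [sum_const, Nat.card_Icc, nsmul_eq_mul, Nat.add_sub_cancel]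
    refine (sum_le_sum g3).trans ?_
    rw [sum_add_distrib, sum_add_distrib, sum_const, card_range, nsmul_eq_mul]
    have e3 : (N : ℝ) * ((N : ℝ) * (‖mB B (2 * N) - mB B N‖ + ‖mB A (2 * N) - mB A N‖)) =
        (N : ℝ) ^ 2 * (‖mB B (2 * N) - mB B N‖ + ‖mB A (2 * N) - mB A N‖) := by ring
    rw [e3]
    exact add_le_add (add_le_add g1 g2) le_rfl
  · have h1 : ∀ N ∈ Icc 1 X, (2 * N * U1 (2 * N) + 2 * N * U2 (2 * N) +
        (N : ℝ) ^ 2 * (‖mB B (2 * N) - mB B N‖ + ‖mB A (2 * N) - mB A N‖)) / (N : ℝ) ^ 3 ≤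
        8 * (U1 (2 * N) / ((2 * N : ℕ) : ℝ) ^ 2) + 8 * (U2 (2 * N) / ((2 * N : ℕ) : ℝ) ^ 2) +
          (ε / 8 * (1 / N) + if N < N₀ then 4 else 0) := by
      intro N hN
      have hN1 := (mem_Icc.1 hN).1
      have hNr : (1 : ℝ) ≤ N := by exact_mod_cast hN1
      have hN0 : (0 : ℝ) < N := by linarith
      have e1 : (2 * N * U1 (2 * N) + 2 * N * U2 (2 * N) +
          (N : ℝ) ^ 2 * (‖mB B (2 * N) - mB B N‖ + ‖mB A (2 * N) - mB A N‖)) / (N : ℝ) ^ 3 =
          8 * (U1 (2 * N) / ((2 * N : ℕ) : ℝ) ^ 2) + 8 * (U2 (2 * N) / ((2 * N : ℕ) : ℝ) ^ 2) +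
          (‖mB B (2 * N) - mB B N‖ + ‖mB A (2 * N) - mB A N‖) * (1 / N) := by
        push_cast
        field_simp
        ring
      rw [e1]
      apply add_le_add le_rfl
      split_ifs with h
      · have e2 : ‖mB B (2 * N) - mB B N‖ + ‖mB A (2 * N) - mB A N‖ ≤ 4 := by
          have f1 := norm_sub_le (mB B (2 * N)) (mB B N)
          have f2 := norm_sub_le (mB A (2 * N)) (mB A N)
          have f3 := hAm N
          have f4 := hAm (2 * N)
          have f5 := hBm N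
          have f6 := hBm (2 * N)
          linarith
        have e3 : (1 : ℝ) / N ≤ 1 := by
          rw [div_le_one hN0]
          exact hNr
        have e4 : (‖mB B (2 * N) - mB B N‖ + ‖mB A (2 * N) - mB A N‖) * (1 / N) ≤ 4 * 1 :=
          mul_le_mul e2 e3 (by positivity) (by norm_num)
        have e5 : 0 ≤ ε / 8 * (1 / (N : ℝ)) := by positivity
        linarith
      · have hc : (1 : ℝ) / 2 * ((2 * N : ℕ) : ℝ) ≤ N := by
          push_cast
          linarith
        have f1 := hN₀ B hB (2 * N) N (by omega) hc (by omega)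
        have f2 := hN₀ A hA (2 * N) N (by omega) hc (by omega)
        rw [add_zero]
        apply mul_le_mul_of_nonneg_right _ (by positivity)
        linarith
    refine (sum_le_sum h1).trans ?_
    rw [sum_add_distrib, sum_add_distrib, sum_add_distrib, ← mul_sum, ← mul_sum, ← mul_sum]
    have h2 := (even_sum U1 hU10 X).trans hU1s
    have h3 := (even_sum U2 hU20 X).trans hU2s
    have h4 := harm X
    have h5 : ∑ N ∈ Icc 1 X, (if N < N₀ then (4 : ℝ) else 0) ≤ 4 * N₀ := by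
      rw [← sum_filter, sum_const, nsmul_eq_mul, mul_comm]
      apply mul_le_mul_of_nonneg_left _ (by norm_num)
      have h7 : (Icc 1 X).filter (fun n => n < N₀) ⊆ range N₀ := by
        intro n hn
        rw [mem_range]
        exact (mem_filter.1 hn).2
      have h8 := card_le_card h7
      rw [card_range] at h8
      exact_mod_cast h8
    have h6 : ε / 8 * ∑ N ∈ Icc 1 X, 1 / (N : ℝ) ≤ ε / 4 * Real.log X := by
      calc ε / 8 * ∑ N ∈ Icc 1 X, 1 / (N : ℝ) ≤ ε / 8 * (1 + Real.log X) :=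
            mul_le_mul_of_nonneg_left h4 (by positivity)
        _ ≤ ε / 8 * (2 * Real.log X) := mul_le_mul_of_nonneg_left (by linarith) (by positivity)
        _ = _ := by ring
    have h7 : 4 * (N₀ : ℝ) ≤ ε / 4 * Real.log X := by
      have e1 := mul_le_mul_of_nonneg_left hlog (by positivity : (0 : ℝ) ≤ ε / 4)
      have e2 : ε / 4 * (4 * (N₀ : ℝ) * (4 / ε) + 1) = 4 * N₀ + ε / 4 := by
        field_simp
      linarith
    have h8 : ε / 128 * Real.log ((2 * X : ℕ) : ℝ) ≤ ε / 64 * Real.log X := by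
      have := mul_le_mul_of_nonneg_left hlX (by positivity : (0 : ℝ) ≤ ε / 128)
      linarith
    have h9 : 0 ≤ ε * Real.log X := by positivity
    linarith

end Pool.Agent.Y842.QY
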