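import Pool.Agent.Y842.QY.AllW
import Pool.Agent.Y842.QG.Fin
import Pool.Agent.TH575.OM.FinO

/-!
Library Y842.QY (helper842), part 5: functions of the coloured prime signature against functions of `Ω` with mean removed.
-/

set_option autoImplicit false

open Finset

namespace Pool.Agent.Y842.QY

open Pool.Agent.Y842.PG
open Pool.Agent.Y842.QG
open Pool.Agent.Helper602.MK (ee)
open Pool.Agent.Helper602.MK.N_J1c (c_ee_add c_ee_int c_norm_ee)
open Pool.Agent.Y304.U (sE ind ind_nonneg harm)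
open Pool.Agent.TH575.OM (Mn rl rl_B0 Mn_scale SA lay lay_b lay_sum B0)
open ArithmeticFunction (cardFactors)

/-- the coloured prime signature: the multiset of the pairs (colour of the prime, exponent) -/
def csg {k : ℕ} (χ : ℕ → Fin k) (n : ℕ) : Multiset (Fin k × ℕ) := n.primeFactors.val.map (fun p => (χ p, n.factorization p))

lemma csg_mul {k : ℕ} (χ : ℕ → Fin k) (p n : ℕ) (hp : p.Prime) (hn : ¬ p ∣ n) :
    csg χ (p * n) = (χ p, 1) ::ₘ csg χ n := by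
  have hn0 : n ≠ 0 := by
    rintro rfl
    exact hn (dvd_zero _)
  have hpn : p ∉ n.primeFactors := fun h => hn (Nat.dvd_of_mem_primeFactors h)
  have h1 : (p * n).primeFactors = insert p n.primeFactors := by
    rw [Nat.primeFactors_mul hp.ne_zero hn0, hp.primeFactors, insert_eq]
  have h2 : (p * n).primeFactors.val = p ::ₘ n.primeFactors.val := by
    rw [h1, insert_val_of_notMem hpn]
  have h3 : (p * n).factorization = p.factorization + n.factorization :=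
    Nat.factorization_mul hp.ne_zero hn0
  unfold csg
  rw [h2, Multiset.map_cons]
  congr 1
  · rw [h3, Finsupp.add_apply, hp.factorization_self, Nat.factorization_eq_zero_of_not_dvd hn]
  · refine Multiset.map_congr rfl fun q hq => ?_
    have hq' : q ∈ n.primeFactors := hq
    have hne : p ≠ q := by
      rintro rfl
      exact hpn hq'
    rw [h3, Finsupp.add_apply, hp.factorization, Finsupp.single_apply, if_neg hne, zero_add]

/-- functions of the coloured signature times functions with the relation at the primes -/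
lemma C1c_sg {k : ℕ} (χ : ℕ → Fin k) (A : Multiset (Fin k × ℕ) → ℂ) (hA : ∀ s, ‖A s‖ ≤ 1) (G : ℕ → ℂ)
    (hG : ∀ n, ‖G n‖ ≤ 1) (hGF : ∀ p : ℕ, p.Prime → Flp G p) : C1c χ (fun n => A (csg χ n) * G n) := by
  refine ⟨fun n => ?_, fun j => ⟨fun n => A ((csg χ n).erase (j, 1)) * G n, fun n => ?_, fun p hp hχ => ?_⟩⟩
  · rw [norm_mul]
    exact mul_le_one₀ (hA _) (norm_nonneg _) (hG _)
  · rw [norm_mul]
    exact mul_le_one₀ (hA _) (norm_nonneg _) (hG _)
  · obtain ⟨c, hc, h1⟩ := hGF p hp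
    refine ⟨c, hc, fun n hn => ?_⟩
    show A ((csg χ (p * n)).erase (j, 1)) * G (p * n) = c * (A (csg χ n) * G n)
    rw [csg_mul χ p n hp hn, hχ, Multiset.erase_cons_head, h1 n hn]
    ring

/-- functions of the signature times arbitrary multiplicative functions against integer valued functions of `Ω` -/
theorem pair_sgW (kc : ℕ) (a c : ℕ) (hac : a ≠ c) (ε : ℝ) (hε : 0 < ε) :
    ∃ X₀ : ℕ, ∀ X : ℕ, X₀ ≤ X → ∀ χ : ℕ → Fin kc, ∀ A : Multiset (Fin kc × ℕ) → ℂ, (∀ s, ‖A s‖ ≤ 1) → ∀ g : ℕ → ℂ, (∀ n, ‖g n‖ ≤ 1) →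
      (∀ m n : ℕ, Nat.Coprime m n → g (m * n) = g m * g n) → ∀ b : ℕ → ℤ, (∀ l, |b l| ≤ 1) →
      ∀ (α : ℕ → ℝ) (y : ℕ → ℕ), (∀ N, y N ≤ N) →
        ∑ N ∈ Icc 1 X, ‖∑ n ∈ Icc 1 (y N), Fb b N (n + a) * (A (csg χ (n + c)) * g (n + c)) * ee (α N * n)‖ / (N : ℝ) ^ 2 ≤
          ε * Real.log X := by
  set δ : ℝ := min 1 (ε / 4) with hδ
  have hδ0 : 0 < δ := lt_min one_pos (by positivity)
  have hδ1 : δ ≤ 1 := min_le_left _ _
  have hδε : δ ≤ ε / 4 := min_le_right _ _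
  obtain ⟨X₁, hX₁⟩ := all_phasesW kc a c hac δ hδ0 hδ1 (ε / 4) (by positivity)
  obtain ⟨X₂, hX₂⟩ := Filter.eventually_atTop.1 ((Filter.tendsto_atTop.1
    (Real.tendsto_log_atTop.comp tendsto_natCast_atTop_atTop)) (20 / ε + 1))
  refine ⟨X₁ + X₂ + 1, fun X hX χ A hA g hg hm b hbb α y hy => ?_⟩
  have hb := fun N n => Fb_le b hbb N n
  have hlog : 20 / ε + 1 ≤ Real.log X := hX₂ X (by omega)
  have hlog1 : (1 : ℝ) ≤ Real.log X := by
    have : 0 < 20 / ε := by positivity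
    linarith
  have hlog2 : 4 ≤ ε / 4 * Real.log X := by
    have h1 : ε / 4 * (20 / ε + 1) ≤ ε / 4 * Real.log X := mul_le_mul_of_nonneg_left hlog (by positivity)
    have h2 : ε / 4 * (20 / ε + 1) = 5 + ε / 4 := by
      field_simp
      ring
    linarith
  have key := reduct (r := 1) (fun _ => c) X (X + c) (fun _ => le_refl _) (fun N => 1 / (N : ℝ) ^ 2)
    (fun N => by positivity) y hy (fun N n => Fb b N (n + a) * A (csg χ (n + c)) * ee (α N * n)) (ε * Real.log X) (by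
      intro G hG hGF
      have hGA : ∀ n, ‖A (csg χ n) * G 0 n‖ ≤ 1 := fun n => by
        rw [norm_mul]
        exact mul_le_one₀ (hA _) (norm_nonneg _) (hG _ _)
      have h1 := hX₁ X (by omega) (fun N => ![Fb b N, fun n => A (csg χ n) * G 0 n])
        ⟨χ, b, _, hbb, C1c_sg χ A hA (G 0) (hG 0) (fun p hp => hGF p hp 0), rfl⟩
      set T : Set ℕ := {N : ℕ | ∃ α : ℝ, ∃ y ≤ N, δ * N < ‖Cg ![Fb b N, fun n => A (csg χ n) * G 0 n] ![a, c] y α‖} with hT
      have h2 := l1_of_sE (Icc 1 X) X (Subset.refl _) (fun N =>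
        ‖∑ n ∈ Icc 1 (y N), Fb b N (n + a) * A (csg χ (n + c)) * ee (α N * n) * ∏ t : Fin 1, G t (n + c)‖) T δ hδ0.le (by
          intro N _
          refine (norm_sum_le _ _).trans ?_
          calc ∑ n ∈ Icc 1 (y N), ‖Fb b N (n + a) * A (csg χ (n + c)) * ee (α N * n) * ∏ t : Fin 1, G t (n + c)‖ ≤
              ∑ n ∈ Icc 1 (y N), (1 : ℝ) := by
                refine sum_le_sum fun n _ => ?_
                rw [norm_mul, norm_mul, norm_mul, c_norm_ee, mul_one, norm_prod]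
                have e1 := hb N (n + a)
                have e2 : ∏ t : Fin 1, ‖G t (n + c)‖ ≤ 1 :=
                  prod_le_one (fun _ _ => norm_nonneg _) (fun t _ => hG t _)
                have e3 : 0 ≤ ∏ t : Fin 1, ‖G t (n + c)‖ := prod_nonneg (fun _ _ => norm_nonneg _)
                exact mul_le_one₀ (mul_le_one₀ e1 (norm_nonneg _) (hA _)) e3 e2
            _ = (y N : ℝ) := by simp
            _ ≤ N := by exact_mod_cast hy N) (by
          intro N _ hNT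
          have h3 : ‖Cg ![Fb b N, fun n => A (csg χ n) * G 0 n] ![a, c] (y N) (α N)‖ ≤ δ * N := by
            by_contra h
            push Not at h
            exact hNT ⟨α N, y N, hy N, h⟩
          have h4 := sum_shift_le (fun n => pr ![Fb b N, fun n => A (csg χ n) * G 0 n] ![a, c] 1 n * ee (α N * n)) (fun n => by
            show ‖pr ![Fb b N, fun n => A (csg χ n) * G 0 n] ![a, c] 1 n * ee (α N * n)‖ ≤ 1
            rw [norm_mul, c_norm_ee, mul_one]
            refine pr_le _ (fun t n => ?_) _ _ _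
            fin_cases t
            · exact hb N n
            · exact hGA n) (y N)
          have h5 : ∑ n ∈ Icc 1 (y N), pr ![Fb b N, fun n => A (csg χ n) * G 0 n] ![a, c] 1 n * ee (α N * n) =
              ∑ n ∈ Icc 1 (y N), Fb b N (n + a) * A (csg χ (n + c)) * ee (α N * n) * ∏ t : Fin 1, G t (n + c) := by
            refine sum_congr rfl fun n _ => ?_
            rw [pr_two, Fin.prod_univ_one, one_mul, one_mul]
            ring
          have h6 : ‖∑ n ∈ Icc 1 (y N), pr ![Fb b N, fun n => A (csg χ n) * G 0 n] ![a, c] 1 n * ee (α N * n)‖ ≤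
            ‖Cg ![Fb b N, fun n => A (csg χ n) * G 0 n] ![a, c] (y N) (α N)‖ + 2 := h4
          rw [h5] at h6
          linarith)
      have h3 : ∑ N ∈ Icc 1 X, 1 / (N : ℝ) ^ 2 * ‖∑ n ∈ Icc 1 (y N), Fb b N (n + a) * A (csg χ (n + c)) * ee (α N * n) *
          ∏ t : Fin 1, G t (n + c)‖ = ∑ N ∈ Icc 1 X, ‖∑ n ∈ Icc 1 (y N), Fb b N (n + a) * A (csg χ (n + c)) * ee (α N * n) *
          ∏ t : Fin 1, G t (n + c)‖ / (N : ℝ) ^ 2 := by
        refine sum_congr rfl fun N _ => ?_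
        rw [one_div, mul_comm, div_eq_mul_inv]
      refine (le_of_eq h3).trans (h2.trans ?_)
      have h4 : δ * (1 + Real.log X) ≤ ε / 4 * (2 * Real.log X) := by
        apply mul_le_mul hδε (by linarith) (by linarith) (by positivity)
      linarith) (by positivity) (fun _ => g) (fun _ n => hg n) (fun _ m n h => hm m n h)
  refine le_trans (le_of_eq ?_) key
  refine sum_congr rfl fun N _ => ?_
  rw [one_div, mul_comm (((N : ℝ) ^ 2)⁻¹), ← div_eq_mul_inv]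
  congr 2
  refine sum_congr rfl fun n _ => ?_
  show Fb b N (n + a) * (A (csg χ (n + c)) * g (n + c)) * ee (α N * n) =
    Fb b N (n + a) * A (csg χ (n + c)) * ee (α N * n) * ∏ t : Fin 1, g (n + c)
  rw [Fin.prod_univ_one]
  ring

/-- the mean of a function of `Ω` -/
noncomputable def mB (B : ℕ → ℂ) (N : ℕ) : ℂ := (∑ n ∈ Icc 1 N, B (cardFactors n)) / N

lemma Mn_eq (r : ℕ → ℝ) (N : ℕ) : ((Mn r N : ℝ) : ℂ) = mB (fun l => ((r l : ℝ) : ℂ)) N := by
  unfold Mn SA mB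
  rw [Nat.floor_natCast]
  push_cast
  congr 1
  refine sum_congr rfl fun n _ => ?_
  rw [if_pos (Nat.mod_one n)]

lemma Fb_eq (b : ℕ → ℤ) (N n : ℕ) : 2 * Fb b N n = ((b (cardFactors n) : ℤ) : ℂ) - mB (fun l => ((b l : ℤ) : ℂ)) N := by
  have h1 := Mn_eq (rl b) N
  have h2 : (fun l => ((rl b l : ℝ) : ℂ)) = fun l => ((b l : ℤ) : ℂ) := by
    funext l
    unfold rl
    push_cast
    rfl
  rw [h2] at h1
  unfold Fb
  rw [← h1]
  push_cast
  ring

/-- the centred sum -/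
noncomputable def Lc (w : ℕ → ℂ) (a N y : ℕ) (B : ℕ → ℂ) : ℂ :=
  ∑ n ∈ Icc 1 y, w n * (B (cardFactors (n + a)) - mB B N)

lemma mB_add (B C : ℕ → ℂ) (N : ℕ) : mB (fun l => B l + C l) N = mB B N + mB C N := by
  unfold mB
  rw [sum_add_distrib, add_div]

lemma mB_smul (z : ℂ) (B : ℕ → ℂ) (N : ℕ) : mB (fun l => z * B l) N = z * mB B N := by
  unfold mB
  rw [← mul_sum, mul_div_assoc]

lemma mB_le (B : ℕ → ℂ) (β : ℝ) (hβ : 0 ≤ β) (h : ∀ l, ‖B l‖ ≤ β) (N : ℕ) : ‖mB B N‖ ≤ β := by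
  unfold mB
  rcases Nat.eq_zero_or_pos N with h0 | h0
  · rw [h0]
    simpa using hβ
  · have hN : (0 : ℝ) < N := by exact_mod_cast h0
    rw [norm_div, Complex.norm_natCast, div_le_iff₀ hN]
    refine (norm_sum_le _ _).trans ((sum_le_sum fun n _ => h _).trans (le_of_eq ?_))
    rw [sum_const, Nat.card_Icc, nsmul_eq_mul, Nat.add_sub_cancel, mul_comm]

lemma Lc_add (w : ℕ → ℂ) (a N y : ℕ) (B C : ℕ → ℂ) : Lc w a N y (fun l => B l + C l) = Lc w a N y B + Lc w a N y C := by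
  unfold Lc
  rw [mB_add, ← sum_add_distrib]
  refine sum_congr rfl fun n _ => ?_
  ring

lemma Lc_smul (w : ℕ → ℂ) (a N y : ℕ) (z : ℂ) (B : ℕ → ℂ) : Lc w a N y (fun l => z * B l) = z * Lc w a N y B := by
  unfold Lc
  rw [mB_smul, mul_sum]
  refine sum_congr rfl fun n _ => ?_
  ring

lemma Lc_zero (w : ℕ → ℂ) (a N y : ℕ) : Lc w a N y (fun _ => 0) = 0 := by
  unfold Lc mB
  simp

lemma Lc_sum (w : ℕ → ℂ) (a N y m : ℕ) (B : ℕ → ℕ → ℂ) :
    Lc w a N y (fun l => ∑ s ∈ range m, B s l) = ∑ s ∈ range m, Lc w a N y (B s) := by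
  induction m with
  | zero =>
    simp only [range_zero, sum_empty]
    exact Lc_zero w a N y
  | succ m ih =>
    rw [sum_range_succ, ← ih, ← Lc_add]
    congr 1
    funext l
    rw [sum_range_succ]

lemma Lc_le (w : ℕ → ℂ) (hw : ∀ n, 1 ≤ n → ‖w n‖ ≤ 1) (a N y : ℕ) (B : ℕ → ℂ) (β : ℝ) (hβ : 0 ≤ β)
    (h : ∀ l, ‖B l‖ ≤ β) : ‖Lc w a N y B‖ ≤ 2 * β * y := by
  unfold Lc
  refine (norm_sum_le _ _).trans ?_
  have h1 : ∀ n ∈ Icc 1 y, ‖w n * (B (cardFactors (n + a)) - mB B N)‖ ≤ 2 * β := by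
    intro n hn
    rw [norm_mul]
    have h2 := norm_sub_le (B (cardFactors (n + a))) (mB B N)
    have h3 := mB_le B β hβ h N
    have h4 := h (cardFactors (n + a))
    calc ‖w n‖ * ‖B (cardFactors (n + a)) - mB B N‖ ≤ 1 * (2 * β) :=
          mul_le_mul (hw n (mem_Icc.1 hn).1) (by linarith) (norm_nonneg _) zero_le_one
      _ = 2 * β := one_mul _
  refine (sum_le_sum h1).trans (le_of_eq ?_)
  rw [sum_const, Nat.card_Icc, nsmul_eq_mul, Nat.add_sub_cancel, mul_comm]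

/-- real functions from integer valued ones -/
lemma lay_real (w : ℕ → ℕ → ℂ) (hw : ∀ N n, 1 ≤ n → ‖w N n‖ ≤ 1) (a X : ℕ) (y : ℕ → ℕ) (hy : ∀ N, y N ≤ N) (E : ℝ)
    (hE : ∀ b : ℕ → ℤ, (∀ l, |b l| ≤ 1) →
      ∑ N ∈ Icc 1 X, ‖Lc (w N) a N (y N) (fun l => ((b l : ℤ) : ℂ))‖ / (N : ℝ) ^ 2 ≤ E)
    (m : ℕ) (hm : 1 ≤ m) (r : ℕ → ℝ) (hr : ∀ l, |r l| ≤ 1) :
    ∑ N ∈ Icc 1 X, ‖Lc (w N) a N (y N) (fun l => ((r l : ℝ) : ℂ))‖ / (N : ℝ) ^ 2 ≤ E + 4 / m * (1 + Real.log X) := by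
  have hm0 : (0 : ℝ) < m := by exact_mod_cast hm
  set err : ℕ → ℂ := fun l => ((r l - 1 / m * ∑ s ∈ range m, (lay m r s l : ℝ) : ℝ) : ℂ) with herr
  have herr1 : ∀ l, ‖err l‖ ≤ 2 / m := by
    intro l
    rw [herr]
    simp only
    rw [Complex.norm_real, Real.norm_eq_abs]
    exact lay_sum m hm r hr l
  have hdec : (fun l => ((r l : ℝ) : ℂ)) = fun l => (1 / (m : ℂ)) * (∑ s ∈ range m, (((lay m r s l : ℤ)) : ℂ)) + err l := by
    funext l
    rw [herr]
    push_cast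
    ring
  have h1 : ∀ N ∈ Icc 1 X, ‖Lc (w N) a N (y N) (fun l => ((r l : ℝ) : ℂ))‖ / (N : ℝ) ^ 2 ≤
      1 / m * ∑ s ∈ range m, ‖Lc (w N) a N (y N) (fun l => ((lay m r s l : ℤ) : ℂ))‖ / (N : ℝ) ^ 2 + 4 / m * (1 / N) := by
    intro N hN
    have hN0 : (0 : ℝ) < N := by exact_mod_cast (mem_Icc.1 hN).1
    rw [hdec, Lc_add (w N) a N (y N) (fun l => (1 / (m : ℂ)) * (∑ s ∈ range m, (((lay m r s l : ℤ)) : ℂ))) err,
      Lc_smul, Lc_sum (w N) a N (y N) m (fun s l => (((lay m r s l : ℤ)) : ℂ))]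
    have h2 := Lc_le (w N) (hw N) a N (y N) err (2 / m) (by positivity) herr1
    have h3 : ‖(1 / (m : ℂ)) * ∑ s ∈ range m, Lc (w N) a N (y N) (fun l => ((lay m r s l : ℤ) : ℂ))‖ ≤
        1 / m * ∑ s ∈ range m, ‖Lc (w N) a N (y N) (fun l => ((lay m r s l : ℤ) : ℂ))‖ := by
      rw [norm_mul, norm_div, norm_one, Complex.norm_natCast]
      exact mul_le_mul_of_nonneg_left (norm_sum_le _ _) (by positivity)
    have h4 : (y N : ℝ) ≤ N := by exact_mod_cast hy N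
    rw [div_le_iff₀ (by positivity)]
    refine (norm_add_le _ _).trans ((add_le_add h3 h2).trans ?_)
    rw [← sum_div]
    have e1 : (1 / (m : ℝ) * ((∑ s ∈ range m, ‖Lc (w N) a N (y N) (fun l => ((lay m r s l : ℤ) : ℂ))‖) / (N : ℝ) ^ 2) +
        4 / m * (1 / N)) * (N : ℝ) ^ 2 =
        1 / m * ∑ s ∈ range m, ‖Lc (w N) a N (y N) (fun l => ((lay m r s l : ℤ) : ℂ))‖ + 4 / m * N := by
      field_simp
    rw [e1]
    apply add_le_add le_rfl
    calc 2 * (2 / (m : ℝ)) * (y N) ≤ 2 * (2 / (m : ℝ)) * N := mul_le_mul_of_nonneg_left h4 (by positivity)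
      _ = 4 / m * N := by ring
  refine (sum_le_sum h1).trans ?_
  rw [sum_add_distrib, ← mul_sum, ← mul_sum, sum_comm]
  apply add_le_add
  · calc 1 / (m : ℝ) * ∑ s ∈ range m, ∑ N ∈ Icc 1 X,
          ‖Lc (w N) a N (y N) (fun l => ((lay m r s l : ℤ) : ℂ))‖ / (N : ℝ) ^ 2 ≤ 1 / m * ∑ s ∈ range m, E :=
          mul_le_mul_of_nonneg_left (sum_le_sum fun s _ => hE _ (fun l => lay_b m r s l)) (by positivity)
      _ = E := by
          rw [sum_const, card_range, nsmul_eq_mul]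
          field_simp
  · exact mul_le_mul_of_nonneg_left (harm X) (by positivity)

/-- complex functions from integer valued ones -/
lemma lay_complex (w : ℕ → ℕ → ℂ) (hw : ∀ N n, 1 ≤ n → ‖w N n‖ ≤ 1) (a X : ℕ) (y : ℕ → ℕ) (hy : ∀ N, y N ≤ N) (E : ℝ)
    (hE : ∀ b : ℕ → ℤ, (∀ l, |b l| ≤ 1) →
      ∑ N ∈ Icc 1 X, ‖Lc (w N) a N (y N) (fun l => ((b l : ℤ) : ℂ))‖ / (N : ℝ) ^ 2 ≤ E)
    (m : ℕ) (hm : 1 ≤ m) (B : ℕ → ℂ) (hB : ∀ l, ‖B l‖ ≤ 1) :
    ∑ N ∈ Icc 1 X, ‖Lc (w N) a N (y N) B‖ / (N : ℝ) ^ 2 ≤ 2 * (E + 4 / m * (1 + Real.log X)) := by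
  have h1 := lay_real w hw a X y hy E hE m hm (fun l => (B l).re) (fun l => (Complex.abs_re_le_norm _).trans (hB l))
  have h2 := lay_real w hw a X y hy E hE m hm (fun l => (B l).im) (fun l => (Complex.abs_im_le_norm _).trans (hB l))
  have hdec : B = fun l => (((B l).re : ℝ) : ℂ) + Complex.I * (((B l).im : ℝ) : ℂ) := by
    funext l
    rw [mul_comm]
    exact (Complex.re_add_im (B l)).symm
  have h3 : ∀ N ∈ Icc 1 X, ‖Lc (w N) a N (y N) B‖ / (N : ℝ) ^ 2 ≤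
      ‖Lc (w N) a N (y N) (fun l => (((B l).re : ℝ) : ℂ))‖ / (N : ℝ) ^ 2 +
        ‖Lc (w N) a N (y N) (fun l => (((B l).im : ℝ) : ℂ))‖ / (N : ℝ) ^ 2 := by
    intro N _
    rw [← add_div]
    apply div_le_div_of_nonneg_right _ (by positivity)
    have e1 : Lc (w N) a N (y N) B = Lc (w N) a N (y N) (fun l => (((B l).re : ℝ) : ℂ)) +
        Complex.I * Lc (w N) a N (y N) (fun l => (((B l).im : ℝ) : ℂ)) := by
      rw [← Lc_smul, ← Lc_add]
      congr 1
    rw [e1]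
    refine (norm_add_le _ _).trans (le_of_eq ?_)
    rw [norm_mul, Complex.norm_I, one_mul]
  refine (sum_le_sum h3).trans ?_
  rw [sum_add_distrib]
  linarith

/-- **the pair**, all bounded functions of `Ω` -/
theorem pair_B (kc : ℕ) (a c : ℕ) (hac : a ≠ c) (ε : ℝ) (hε : 0 < ε) :
    ∃ X₀ : ℕ, ∀ X : ℕ, X₀ ≤ X → ∀ χ : ℕ → Fin kc, ∀ A : Multiset (Fin kc × ℕ) → ℂ, (∀ s, ‖A s‖ ≤ 1) → ∀ g : ℕ → ℂ, (∀ n, 1 ≤ n → ‖g n‖ ≤ 1) →
      (∀ m n : ℕ, 1 ≤ m → 1 ≤ n → Nat.Coprime m n → g (m * n) = g m * g n) → ∀ B : ℕ → ℂ, (∀ l, ‖B l‖ ≤ 1) →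
      ∀ (α : ℕ → ℝ) (y : ℕ → ℕ), (∀ N, y N ≤ N) →
        ∑ N ∈ Icc 1 X, ‖Lc (fun n => A (csg χ (n + c)) * g (n + c) * ee (α N * n)) a N (y N) B‖ / (N : ℝ) ^ 2 ≤
          ε * Real.log X := by
  obtain ⟨X₁, h1⟩ := pair_sgW kc a c hac (ε / 8) (by positivity)
  obtain ⟨m, hm⟩ := exists_nat_ge (max 1 (32 / ε))
  have hm1R : (1 : ℝ) ≤ m := (le_max_left _ _).trans hm
  have hm1 : 1 ≤ m := by exact_mod_cast hm1R
  have hm0 : (0 : ℝ) < m := by linarith
  obtain ⟨X₂, hX₂⟩ := Filter.eventually_atTop.1 ((Filter.tendsto_atTop.1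
    (Real.tendsto_log_atTop.comp tendsto_natCast_atTop_atTop)) 1)
  refine ⟨X₁ + X₂, fun X hX χ A hA g hg hmul B hB α y hy => ?_⟩
  have hlog : (1 : ℝ) ≤ Real.log X := hX₂ X (by omega)
  have h2 := lay_complex (fun N n => A (csg χ (n + c)) * g (n + c) * ee (α N * n)) (fun N n hn => by
      show ‖A (csg χ (n + c)) * g (n + c) * ee (α N * n)‖ ≤ 1
      rw [norm_mul, norm_mul, c_norm_ee, mul_one]
      exact mul_le_one₀ (hA _) (norm_nonneg _) (hg _ (by omega))) a X y hy (ε / 4 * Real.log X) (by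
      intro b hb
      have h3 := h1 X (by omega) χ A hA (z0 g) (z0_le g hg) (z0_mul g hmul) b hb α y hy
      have h4 : ∑ N ∈ Icc 1 X, ‖Lc (fun n => A (csg χ (n + c)) * g (n + c) * ee (α N * n)) a N (y N)
          (fun l => ((b l : ℤ) : ℂ))‖ / (N : ℝ) ^ 2 = 2 * ∑ N ∈ Icc 1 X,
          ‖∑ n ∈ Icc 1 (y N), Fb b N (n + a) * (A (csg χ (n + c)) * z0 g (n + c)) * ee (α N * n)‖ / (N : ℝ) ^ 2 := by
        rw [mul_sum]
        refine sum_congr rfl fun N _ => ?_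
        rw [← mul_div_assoc]
        congr 1
        have e1 : Lc (fun n => A (csg χ (n + c)) * g (n + c) * ee (α N * n)) a N (y N) (fun l => ((b l : ℤ) : ℂ)) =
            2 * ∑ n ∈ Icc 1 (y N), Fb b N (n + a) * (A (csg χ (n + c)) * z0 g (n + c)) * ee (α N * n) := by
          unfold Lc
          rw [mul_sum]
          refine sum_congr rfl fun n hn => ?_
          have hn1 := (mem_Icc.1 hn).1
          have e2 : z0 g (n + c) = g (n + c) := by
            unfold z0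
            rw [if_neg (by omega)]
          rw [← Fb_eq, e2]
          ring
        rw [e1, norm_mul, Complex.norm_two]
      rw [h4]
      linarith) m hm1 B hB
  refine h2.trans ?_
  have h5 : 4 / (m : ℝ) ≤ ε / 8 := by
    rw [div_le_iff₀ hm0]
    have h6 : 32 / ε ≤ m := (le_max_right _ _).trans hm
    rw [div_le_iff₀ hε] at h6
    linarith
  have h6 : 4 / (m : ℝ) * (1 + Real.log X) ≤ ε / 8 * (2 * Real.log X) :=
    mul_le_mul h5 (by linarith) (by linarith) (by positivity)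
  linarith

end Pool.Agent.Y842.QY
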