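import Pool.Agent.Y842.QY.BilU

/-!
Library Y842.QY (helper842), part 3: minor arcs, rational phases and all phases for families depending on the scale.
-/

set_option autoImplicit false

open Finset

namespace Pool.Agent.Y842.QY

open Pool.Agent.Y842.PG
open Pool.Agent.Y842.QG
open Pool.Agent.Y842.PH
open Pool.Agent.Helper602.MK (ee)
open Pool.Agent.Helper602.MK.N_J1c (c_ee_add c_ee_int c_norm_ee)
open Pool.Agent.TH112.BL (QD)
open Pool.Agent.Y304.U (sE ind ind_nonneg)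
open Pool.Agent.TH575.OM (Mn rl rl_B0 Mn_scale)

/-- one function with partners for the colours of the primes -/
def C1c {k : ℕ} (χ : ℕ → Fin k) (g' : ℕ → ℂ) : Prop := (∀ n, ‖g' n‖ ≤ 1) ∧ ∀ j : Fin k, ∃ g : ℕ → ℂ,
  (∀ n, ‖g n‖ ≤ 1) ∧ ∀ p : ℕ, p.Prime → χ p = j → Fl2 g' g p

/-- several functions with partners for the colours of the primes -/
def CFc {k r : ℕ} (χ : ℕ → Fin k) (G' : Fin r → ℕ → ℂ) : Prop := (∀ t n, ‖G' t n‖ ≤ 1) ∧ ∀ j : Fin k,
  ∃ G : Fin r → ℕ → ℂ, (∀ t n, ‖G t n‖ ≤ 1) ∧ ∀ p : ℕ, p.Prime → χ p = j → ∀ t, Fl2 (G' t) (G t) p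

/-- sums over the colours -/
lemma col_sum {k : ℕ} (χ : ℕ → Fin k) (n : ℕ) (c : ℕ → ℝ) (S : ℕ → Finset ℕ) (v : ℕ → ℕ → ℝ) (ε₁ Z Bc ε : ℝ)
    (h : ∀ j : Fin k, ∑ i ∈ range n, c i * ∑ p ∈ (S i).filter (fun p => χ p = j), v i p ≤ ε₁ * Z + Bc) (hZ : 0 ≤ Z)
    (hε : (k : ℝ) * ε₁ ≤ ε) : ∑ i ∈ range n, c i * ∑ p ∈ S i, v i p ≤ ε * Z + k * Bc := by
  have e1 : ∑ i ∈ range n, c i * ∑ p ∈ S i, v i p =
      ∑ j : Fin k, ∑ i ∈ range n, c i * ∑ p ∈ (S i).filter (fun p => χ p = j), v i p := by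
    rw [sum_comm]
    refine sum_congr rfl fun i _ => ?_
    rw [← mul_sum]
    congr 1
    exact (sum_fiberwise (S i) χ (v i)).symm
  rw [e1]
  refine (sum_le_sum fun j _ => h j).trans ?_
  rw [sum_const, card_univ, Fintype.card_fin, nsmul_eq_mul]
  nlinarith

/-- **minor arcs**, products of any number of functions, uniformly -/
theorem minorW {r kc : ℕ} (hr : 1 ≤ r) (h : ℕ) (hs : Fin r → ℕ) (hhs : ∀ t, hs t ≤ h)
    (𝒞 : (ℕ → Fin r → ℕ → ℂ) → Prop) (hCF : ∀ G, 𝒞 G → ∃ χ : ℕ → Fin kc, ∀ N, CFc χ (G N))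
    (hSt : Stab 𝒞) (δ : ℝ) (hδ : 0 < δ)
    (hδ1 : δ ≤ 1) (η : ℝ) (hη : 0 < η) :
    ∃ R X₀ : ℕ, ∀ X : ℕ, X₀ ≤ X → ∀ G, 𝒞 G → sE (BadW G hs GdM R δ) X ≤ η * Real.log X := by
  refine cellsW hr hs 𝒞 (fun G hG N => by
    obtain ⟨χ, h1⟩ := hCF G hG
    exact (h1 N).1) hSt GdM ?_ ?_ ?_ δ hδ hδ1 η hη
  · intro R R' N α hRR hG q hq hqR A
    refine le_trans ?_ (hG q hq (hqR.trans hRR) A)
    exact_mod_cast hRR
  · intro R N N' α hNN hG q hq hqR A
    refine (hG q hq hqR A).trans ?_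
    apply mul_le_mul_of_nonneg_left _ (abs_nonneg _)
    exact_mod_cast hNN
  intro ε₀ hε₀
  set ε : ℝ := ε₀ / (kc + 1) with hεd
  have hε : 0 < ε := by positivity
  obtain ⟨D, hD, Bc, hBc, b₀, hch⟩ := chain_g2 hr h hs hhs ε hε
  obtain ⟨I₁, hI₁⟩ := cc_lim r 1 (ε / 10) (by positivity)
  refine ⟨D, hD, kc * Bc, by positivity, b₀ + I₁ + r + 1, fun b hb n => ?_⟩
  obtain ⟨M₀, hM₀⟩ := hch b (by omega) n
  set I : ℕ := b + n * D with hI
  refine ⟨2 ^ (8 * 2 ^ I) + 2 * ((2 ^ (I + 1)).factorial * 2 ^ I), M₀ + 2 * (2 ^ (8 * 2 ^ I) * 2 ^ I +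
    2 ^ I * (4 * 2 ^ I * (2 ^ r * h))), fun M hM GG hGG α S hS hGd => ?_⟩
  obtain ⟨χ, hχ⟩ := hCF GG hGG
  obtain ⟨hG'1, hGc⟩ := hχ M
  choose A q β hq1 hqY hAq hα hβ using fun k : ℕ => dir (α k) (2 ^ (8 * 2 ^ (b + k * D))) (by positivity)
  refine col_sum χ n (fun k => 1 / ((b + k * D : ℕ) : ℝ)) S (fun k p => Real.log p / 2 ^ (b + k * D) *
    (p * ‖Cg (GG M) hs (M / p) (α k)‖ / M)) ε (∑ k ∈ range n, 1 / ((b + k * D : ℕ) : ℝ)) Bc ε₀ (fun j => ?_)
    (sum_nonneg fun _ _ => by positivity) (by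
      rw [hεd, mul_div_assoc', div_le_iff₀ (by positivity)]
      nlinarith)
  obtain ⟨G, hG1, hGF⟩ := hGc j
  have hSj : ∀ k, (S k).filter (fun p => χ p = j) ⊆ S k := fun k => filter_subset _ _
  have h1 := hM₀ M (by omega) (GG M) G hG'1 hG1 A q β (fun k => (S k).filter (fun p => χ p = j))
    (fun k => (hSj k).trans (hS k)) (fun k p hp t => hGF p (QD_mem (hS k (hSj k hp))).1 (mem_filter.1 hp).2 t) hq1 hqY hAq
    hβ (by
      intro k hk N hNM hMN P hP' hPq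
      have hP : P ⊆ S k := hP'.trans (hSj k)
      rcases P.eq_empty_or_nonempty with hPe | hPne
      · rw [hPe, sum_empty]
        positivity
      have hne : (S k).Nonempty := hPne.mono hP
      have hGk := hGd k hk hne
      set i := b + k * D with hi
      have hiI : i ≤ I := by
        rw [hI, hi]
        have := Nat.mul_le_mul_right D hk.le
        omega
      have hib : b ≤ i := by rw [hi]; omega
      have h2iI : 2 ^ i ≤ 2 ^ I := Nat.pow_le_pow_right (by norm_num) hiI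
      have hqI : q k ≤ 2 ^ (8 * 2 ^ I) := (hqY k).trans (Nat.pow_le_pow_right (by norm_num)
        (Nat.mul_le_mul_left _ h2iI))
      have e2 : α k - A k / q k = β k := by rw [hα k]; ring
      have hβM := hGk (q k) (hq1 k) (hqI.trans (Nat.le_add_right _ _)) (A k)
      rw [e2] at hβM
      have hfac : (2 ^ (i + 1)).factorial * 2 ^ i ≤ (2 ^ (I + 1)).factorial * 2 ^ I :=
        Nat.mul_le_mul (Nat.factorial_le (Nat.pow_le_pow_right (by norm_num) (by omega))) h2iI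
      have hβN : ((2 ^ (i + 1)).factorial : ℝ) * 2 ^ i ≤ |β k| * N := by
        have e1 : (M : ℝ) ≤ 2 * N := by exact_mod_cast hMN
        have e3 : |β k| * M ≤ |β k| * (2 * N) := mul_le_mul_of_nonneg_left e1 (abs_nonneg _)
        have e4 : (((2 ^ (i + 1)).factorial * 2 ^ i : ℕ) : ℝ) ≤ (((2 ^ (I + 1)).factorial * 2 ^ I : ℕ) : ℝ) := by
          exact_mod_cast hfac
        have e5 : (0 : ℝ) ≤ ((2 ^ (8 * 2 ^ I) : ℕ) : ℝ) := Nat.cast_nonneg _
        push_cast at hβM e4 e5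
        linarith
      have hN2 : 2 ^ (8 * 2 ^ I) * 2 ^ I + 2 ^ I * (4 * 2 ^ I * (2 ^ r * h)) ≤ N := by omega
      refine bilpr G hG1 h hs hhs i N P (hP.trans (hS k)) _ (sp_th r i N (A k) (q k) (hq1 k) (β k) ?_ P (fun p hp => ?_) ?_ hβN)
        ?_ (ε / 10) ?_
      · refine le_trans ?_ (hβ k)
        rw [mul_comm (2 ^ (r + 1) : ℝ)]
        apply mul_le_mul_of_nonneg_left _ (abs_nonneg _)
        apply mul_le_mul_of_nonneg_left _ (Nat.cast_nonneg _)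
        have : 2 ^ (r + 1) ≤ 2 ^ (8 * 2 ^ (b + k * D)) := Nat.pow_le_pow_right (by norm_num) (by
          have : b + k * D < 2 ^ (b + k * D) := Nat.lt_two_pow_self
          omega)
        exact_mod_cast this
      · have := QD_mem (hS k (hP hp))
        exact ⟨this.1.pos, this.2.2⟩
      · have e1 : q k * 2 ^ i ≤ N := by
          have e3 : q k * 2 ^ i ≤ 2 ^ (8 * 2 ^ I) * 2 ^ I := Nat.mul_le_mul hqI h2iI
          omega
        exact_mod_cast e1
      · refine le_trans ?_ ((Nat.le_add_left _ _).trans hN2)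
        exact Nat.mul_le_mul h2iI (Nat.mul_le_mul_right _ (Nat.mul_le_mul_left _ h2iI))
      · have := hI₁ i (by omega)
        rw [pow_one] at this
        exact this)
  refine le_trans (le_of_eq ?_) h1
  refine sum_congr rfl fun k _ => ?_
  rw [← hα k]

/-- the class of families -/
def CW (kc : ℕ) (G : ℕ → Fin 2 → ℕ → ℂ) : Prop := ∃ (χ : ℕ → Fin kc) (b : ℕ → ℤ) (g : ℕ → ℂ), (∀ l, |b l| ≤ 1) ∧
  C1c χ g ∧ G = fun N => ![Fb b N, g]

lemma CW_CF2 (kc : ℕ) (G : ℕ → Fin 2 → ℕ → ℂ) (hG : CW kc G) : ∃ χ : ℕ → Fin kc, ∀ N, CFc χ (G N) := by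
  obtain ⟨χ, b, g, hb, hg, rfl⟩ := hG
  refine ⟨χ, fun N => ⟨fun t n => ?_, fun j => ?_⟩⟩
  · fin_cases t
    · exact Fb_le b hb N n
    · exact hg.1 n
  · obtain ⟨g₀, hg₀, hgF⟩ := hg.2 j
    refine ⟨![Fp b N, g₀], fun t n => ?_, fun p hp hχ t => ?_⟩
    · fin_cases t
      · exact Fp_le b hb N n
      · exact hg₀ n
    · fin_cases t
      · exact Fb_Fl2 b N p hp
      · exact hgF p hp hχ

lemma CW_le (kc : ℕ) (G : ℕ → Fin 2 → ℕ → ℂ) (hG : CW kc G) (N : ℕ) (t : Fin 2) (n : ℕ) : ‖G N t n‖ ≤ 1 := by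
  obtain ⟨χ, h⟩ := CW_CF2 kc G hG
  exact (h N).1 t n

lemma CW_Stab (kc : ℕ) : Stab (CW kc) := by
  intro σ hσ K
  obtain ⟨x₂, hx₂⟩ := Mn_scale (show (0 : ℝ) < 1 / (K + 1) by positivity) (show (0 : ℝ) < 2 * σ by positivity)
  obtain ⟨N₁, hN₁⟩ := exists_nat_ge x₂
  refine ⟨N₁ + 1, fun G hG N M hN hNM hMK t n => ?_⟩
  obtain ⟨-, b, g, hb, hg, rfl⟩ := hG
  fin_cases t
  · show ‖Fb b M n - Fb b N n‖ ≤ σ
    unfold Fb
    rw [← Complex.ofReal_sub, Complex.norm_real, Real.norm_eq_abs]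
    have e1 : ((b (ArithmeticFunction.cardFactors n) : ℝ) - Mn (rl b) M) / 2 -
        ((b (ArithmeticFunction.cardFactors n) : ℝ) - Mn (rl b) N) / 2 = -((Mn (rl b) M - Mn (rl b) N) / 2) := by ring
    rw [e1, abs_neg, abs_div, abs_two, div_le_iff₀ two_pos]
    have hx : x₂ ≤ M := hN₁.trans (by exact_mod_cast (by omega : N₁ ≤ M))
    have h1 := hx₂ M hx (N : ℝ) (by
      rw [div_mul_eq_mul_div, one_mul, div_le_iff₀ (by positivity)]
      have h2 : (M : ℝ) ≤ K * N := by exact_mod_cast hMK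
      have h3 : (0 : ℝ) ≤ N := Nat.cast_nonneg N
      linarith) (by exact_mod_cast hNM) (rl b) (rl_B0 hb)
    linarith
  · show ‖g n - g n‖ ≤ σ
    rw [sub_self, norm_zero]
    exact hσ.le

/-- **rational phases** -/
theorem ratW (kc : ℕ) (a c : ℕ) (hac : a ≠ c) (A : ℤ) (q : ℕ) (hq : 1 ≤ q) (hAq : IsCoprime A (q : ℤ)) (δ : ℝ) (hδ : 0 < δ)
    (hδ1 : δ ≤ 1) (η : ℝ) (hη : 0 < η) :
    ∃ X₀ : ℕ, ∀ X : ℕ, X₀ ≤ X → ∀ G, CW kc G →
      sE {N : ℕ | δ * N < ‖Cg (G N) ![a, c] N (A / q)‖} X ≤ η * Real.log X := by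
  have h1 := cellsW (r := 2) (by norm_num) ![a, c] (CW kc) (CW_le kc) (CW_Stab kc)
    (fun _ _ α => α = A / q) (fun _ _ _ _ _ h => h) (fun _ _ _ _ _ h => h) ?_ δ hδ hδ1 η hη
  · obtain ⟨R, X₀, h2⟩ := h1
    refine ⟨X₀, fun X hX G hG => ?_⟩
    have h3 := h2 X hX G hG
    refine le_trans (le_of_eq ?_) h3
    congr 1
    ext N
    unfold BadW
    rw [Set.mem_ofPred_eq, Set.mem_ofPred_eq]
    constructor
    · intro h
      exact ⟨_, rfl, h⟩
    · rintro ⟨α, rfl, h⟩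
      exact h
  intro ε₀ hε₀
  set ε : ℝ := ε₀ / (kc + 1) with hεd
  have hε : 0 < ε := by positivity
  obtain ⟨D, hD, Bc, hBc, b₀, hch⟩ := chain_g2 (r := 2) (by norm_num) (a + c) ![a, c] (by
    intro t
    fin_cases t
    · show a ≤ a + c
      omega
    · show c ≤ a + c
      omega) ε hε
  obtain ⟨I₁, hI₁⟩ := bilF a c hac A q hq (ε / 10) (by positivity)
  refine ⟨D, hD, kc * Bc, by positivity, b₀ + I₁ + q + 1, fun b hb' n => ?_⟩
  obtain ⟨M₀, hM₀⟩ := hch b (by omega) n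
  choose N₀ hN₀ using fun k : ℕ => hI₁ (b + k * D) (by omega)
  refine ⟨0, M₀ + 2 * ∑ k ∈ range n, N₀ k, fun M hM G hG α S hS hGd => ?_⟩
  obtain ⟨χ, b', g', hb1, ⟨hg', hgc⟩, rfl⟩ := hG
  refine col_sum χ n (fun k => 1 / ((b + k * D : ℕ) : ℝ)) S (fun k p => Real.log p / 2 ^ (b + k * D) *
    (p * ‖Cg ![Fb b' M, g'] ![a, c] (M / p) (α k)‖ / M)) ε (∑ k ∈ range n, 1 / ((b + k * D : ℕ) : ℝ)) Bc ε₀
    (fun j => ?_) (sum_nonneg fun _ _ => by positivity) (by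
      rw [hεd, mul_div_assoc', div_le_iff₀ (by positivity)]
      nlinarith)
  obtain ⟨g, hg, hgF⟩ := hgc j
  have hSj : ∀ k, (S k).filter (fun p => χ p = j) ⊆ S k := fun k => filter_subset _ _
  have h1 := hM₀ M (by omega) ![Fb b' M, g'] ![Fp b' M, g] (by
      intro t n
      fin_cases t
      · exact Fb_le b' hb1 M n
      · exact hg' n) (by
      intro t n
      fin_cases t
      · exact Fp_le b' hb1 M n
      · exact hg n) (fun _ => A) (fun _ => q) (fun _ => 0) (fun k => (S k).filter (fun p => χ p = j))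
      (fun k => (hSj k).trans (hS k)) (by
      intro k p hp t
      have hpp := (QD_mem (hS k (hSj k hp))).1
      fin_cases t
      · exact Fb_Fl2 b' M p hpp
      · exact hgF p hpp (mem_filter.1 hp).2) (fun _ => hq) (by
      intro k
      calc q ≤ 2 ^ q := (Nat.lt_two_pow_self).le
        _ ≤ 2 ^ (8 * 2 ^ (b + k * D)) := Nat.pow_le_pow_right (by norm_num) (by
          have : b + k * D < 2 ^ (b + k * D) := Nat.lt_two_pow_self
          omega)) (fun _ => hAq) (by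
      intro k
      rw [abs_zero, zero_mul]
      exact zero_le_one) (by
      intro k hk N hNM hMN P hP _
      refine hN₀ k N M ?_ hNM hMN b' hb1 g hg P ((hP.trans (hSj k)).trans (hS k))
      have := single_le_sum (f := N₀) (fun _ _ => Nat.zero_le _) (mem_range.2 hk)
      omega)
  refine le_trans (le_of_eq ?_) h1
  refine sum_congr rfl fun k hk => ?_
  rw [mem_range] at hk
  congr 1
  rcases ((S k).filter (fun p => χ p = j)).eq_empty_or_nonempty with hSe | hSne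
  · rw [hSe, sum_empty, sum_empty]
  · rw [hGd k hk (hSne.mono (hSj k)), add_zero]

end Pool.Agent.Y842.QY
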